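import Pool.Agent.Lib.MP_8c2010_pr.NU.Spec

/-! # NU, module CHA: chain rule for the entropy on permutations -/

set_option autoImplicit false

namespace Pool.Agent.Lib.MP8c2010.NU

open Equiv Finset

theorem specCHA (hSYM : SpecSYM) : SpecCHA := by
  obtain ⟨h1, h2, -, -, -, -, h7⟩ := hSYM
  intro n A i hi f
  have hb : (0 : ℝ) < ((SymA (A.erase i)).card : ℝ) := by
    exact_mod_cast Finset.card_pos.2 ⟨1, h7 n (A.erase i)⟩
  have ha : (0 : ℝ) < (A.card : ℝ) := by
    exact_mod_cast Finset.card_pos.2 ⟨i, hi⟩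
  have hc : ((SymA A).card : ℝ) = (A.card : ℝ) * ((SymA (A.erase i)).card : ℝ) := by
    exact_mod_cast h2 n A i hi
  have e1 := h1 n A i hi (fun σ => phi (f σ))
  have e2 := h1 n A i hi f
  have e3 : (∑ v ∈ A, marg A i f v) / (A.card : ℝ) =
      (∑ π ∈ SymA A, f π) / ((SymA A).card : ℝ) := by
    unfold marg
    rw [← Finset.sum_div, ← e2, hc, div_div, mul_comm]
  have e4 : ∑ v ∈ A, entS (SymA (A.erase i)) (fun π => f (swap i v * π)) =
      (∑ π ∈ SymA A, phi (f π)) / ((SymA (A.erase i)).card : ℝ) - ∑ v ∈ A, phi (marg A i f v) := by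
    unfold entS
    rw [Finset.sum_sub_distrib, ← Finset.sum_div, ← e1]
    rfl
  rw [e4, entS, entS, e3, hc]
  field_simp
  ring

end Pool.Agent.Lib.MP8c2010.NU
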