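import Pool.Agent.Lib.MP_8c2010_pr.NU.Spec

/-!
# CTR: contraction of the entropy
-/

set_option autoImplicit false

namespace Pool.Agent.Lib.MP8c2010.NU

open Equiv Finset

namespace CTRM

variable {n : ℕ} {c C : ℝ} {p : Fin n → Fin n → ℝ}

theorem g_nonneg (x m : ℝ) (hx : 0 ≤ x) (hm : 0 < m) : 0 ≤ phi x - x * Real.log m - x + m := by
  unfold phi
  rcases hx.eq_or_lt with h | h
  · rw [← h]
    simp [hm.le]
  · have h1 := Real.one_sub_inv_le_log_of_pos (div_pos h hm)
    rw [inv_div, Real.log_div h.ne' hm.ne'] at h1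
    have h2 := mul_le_mul_of_nonneg_left h1 h.le
    have h3 : x * (1 - m / x) = x - m := by
      field_simp
    rw [h3] at h2
    linarith [mul_sub x (Real.log x) (Real.log m)]

theorem phi_zero : phi 0 = 0 := by simp [phi]

/-- the inner inequality for one row -/
theorem row (hn : 1 ≤ n) (a : Fin n → ℝ) (ha : ∀ j, 0 ≤ a j) (m : ℝ) (hm : 0 < m) :
    (n : ℝ) * entS univ a ≤ ∑ j, (phi (a j) - a j * Real.log m - a j + m) := by
  have hn0 : (0 : ℝ) < n := by exact_mod_cast hn
  set b : ℝ := (∑ j, a j) / (n : ℝ) with hb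
  have hb0 : 0 ≤ b := div_nonneg (sum_nonneg fun j _ => ha j) hn0.le
  have hsum : ∑ j, a j = n * b := by
    rw [hb]
    field_simp
  have h1 := g_nonneg b m hb0 hm
  have h2 : ∑ j, (phi (a j) - a j * Real.log m - a j + m) =
      ∑ j, phi (a j) - n * b * Real.log m - n * b + n * m := by
    rw [sum_add_distrib, sum_sub_distrib, sum_sub_distrib, ← sum_mul, hsum, sum_const, card_univ,
      Fintype.card_fin, nsmul_eq_mul]
  have h3 : (n : ℝ) * entS univ a = ∑ j, phi (a j) - n * phi b := by
    unfold entS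
    rw [card_univ, Fintype.card_fin, ← hb]
    field_simp
  rw [h2, h3]
  have h4 := mul_nonneg hn0.le h1
  linarith [mul_add (n : ℝ) (phi b - b * Real.log m - b) m,
    mul_sub (n : ℝ) (phi b - b * Real.log m) b, mul_sub (n : ℝ) (phi b) (b * Real.log m),
    mul_assoc (n : ℝ) b (Real.log m)]

theorem EU_Pop (hp : NearlyUniform c C p) (f : Perm (Fin n) → ℝ) : EU (Pop p f) = EU f := by
  unfold EU Pop
  congr 1
  rw [sum_comm]
  have h : ∀ i ∈ (univ : Finset (Fin n)), ∑ σ : Perm (Fin n), ∑ j, p i j * f (σ * swap i j) =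
      ∑ j, p i j * ∑ σ, f σ := by
    intro i _
    rw [sum_comm]
    refine sum_congr rfl fun j _ => ?_
    rw [← mul_sum]
    congr 1
    exact Equiv.sum_comp (Equiv.mulRight (swap i j)) f
  rw [sum_congr rfl h]
  simp only [← sum_mul]
  rw [hp.total, one_mul]

/-- the pointwise inequality -/
theorem pointwise (hn : 1 ≤ n) (hc : 0 < c) (hp : NearlyUniform c C p)
    (f : Perm (Fin n) → ℝ) (hf : ∀ σ, 0 ≤ f σ) (σ : Perm (Fin n)) :
    (c / n) * ∑ k, entS univ (fun j => f (σ * swap k j)) ≤
      Pop p (fun τ => phi (f τ)) σ - phi (Pop p f σ) := by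
  have hn0 : (0 : ℝ) < n := by exact_mod_cast hn
  have hcn : (0 : ℝ) < c / (n : ℝ) ^ 2 := by positivity
  have hpp : ∀ i j, 0 < p i j := fun i j => lt_of_lt_of_le hcn (hp.lower i j)
  have hm0 : 0 ≤ Pop p f σ := sum_nonneg fun i _ => sum_nonneg fun j _ =>
    mul_nonneg (hpp i j).le (hf _)
  rcases hm0.eq_or_lt with hm | hm
  · -- all values are zero
    have hz : ∀ i j, f (σ * swap i j) = 0 := by
      intro i j
      have h1 := (sum_eq_zero_iff_of_nonneg fun i _ => sum_nonneg fun j _ =>
        mul_nonneg (hpp i j).le (hf (σ * swap i j))).1 hm.symm i (mem_univ i)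
      have h2 := (sum_eq_zero_iff_of_nonneg fun j _ =>
        mul_nonneg (hpp i j).le (hf (σ * swap i j))).1 h1 j (mem_univ j)
      exact (mul_eq_zero.1 h2).resolve_left (hpp i j).ne'
    rw [← hm]
    have h3 : Pop p (fun τ => phi (f τ)) σ = 0 := by
      unfold Pop
      simp [hz, phi_zero]
    have h4 : ∑ k, entS univ (fun j => f (σ * swap k j)) = 0 := by
      refine sum_eq_zero fun k _ => ?_
      simp [entS, hz, phi_zero]
    rw [h3, h4, phi_zero]
    simp
  · set m := Pop p f σ with hmdef
    have h1 : Pop p (fun τ => phi (f τ)) σ - phi m =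
        ∑ i, ∑ j, p i j * (phi (f (σ * swap i j)) - f (σ * swap i j) * Real.log m -
          f (σ * swap i j) + m) := by
      have e : ∀ i j, p i j * (phi (f (σ * swap i j)) - f (σ * swap i j) * Real.log m -
          f (σ * swap i j) + m) = p i j * phi (f (σ * swap i j)) -
            p i j * f (σ * swap i j) * Real.log m - p i j * f (σ * swap i j) + p i j * m := by
        intro i j
        ring
      simp only [e, sum_add_distrib, sum_sub_distrib, ← sum_mul]
      rw [hp.total]
      have e2 : ∑ i, ∑ j, p i j * f (σ * swap i j) = m := rfl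
      rw [e2]
      change ∑ i, ∑ j, p i j * phi (f (σ * swap i j)) - m * Real.log m = _
      ring
    rw [h1]
    have h2 : ∀ k, (n : ℝ) * entS univ (fun j => f (σ * swap k j)) ≤
        ∑ j, (phi (f (σ * swap k j)) - f (σ * swap k j) * Real.log m -
          f (σ * swap k j) + m) := fun k => row hn _ (fun j => hf _) m hm
    calc (c / n) * ∑ k, entS univ (fun j => f (σ * swap k j))
        = c / (n : ℝ) ^ 2 * ∑ k, (n : ℝ) * entS univ (fun j => f (σ * swap k j)) := by
          rw [← mul_sum]
          field_simp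
      _ ≤ c / (n : ℝ) ^ 2 * ∑ k, ∑ j, (phi (f (σ * swap k j)) -
            f (σ * swap k j) * Real.log m - f (σ * swap k j) + m) :=
          mul_le_mul_of_nonneg_left (sum_le_sum fun k _ => h2 k) hcn.le
      _ ≤ _ := by
          rw [mul_sum]
          refine sum_le_sum fun i _ => ?_
          rw [mul_sum]
          refine sum_le_sum fun j _ => ?_
          exact mul_le_mul_of_nonneg_right (hp.lower i j) (g_nonneg _ m (hf _) hm)

end CTRM

open CTRM in
/-- CTR: contraction of the entropy. -/
theorem specCTR (hIND : SpecIND) (hJEN : SpecJEN) (hSYM : SpecSYM) : SpecCTR := by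
  intro n c C p hn hc hp
  have hn0 : (0 : ℝ) < n := by exact_mod_cast hn
  have hU := (hSYM.2.2.2.2.2.1 n).1
  have hcard := (hSYM.2.2.2.2.2.1 n).2
  have hent : ∀ f : Perm (Fin n) → ℝ, entS (SymA (univ : Finset (Fin n))) f = ent f := by
    intro f
    unfold entS ent EU
    rw [hcard, hU]
  have h0 : ∀ f : Perm (Fin n) → ℝ, (∀ σ, 0 ≤ f σ) → 0 ≤ ent f := by
    intro f hf
    rw [← hent f]
    exact hJEN.1 _ _ f ⟨1, hSYM.2.2.2.2.2.2 n univ⟩ fun σ _ => hf σ
  have h1 : ∀ f : Perm (Fin n) → ℝ, (∀ σ, 0 ≤ f σ) →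
      ent (Pop p f) ≤ (1 - 4 * c / (9 * n)) * ent f := by
    intro f hf
    have hne : (univ : Finset (Fin n)).Nonempty := ⟨⟨0, hn⟩, mem_univ _⟩
    have h2 := hIND n univ hne f hf
    rw [hent f] at h2
    have h3 : starS (univ : Finset (Fin n)) f =
        EU (fun σ => ∑ k, entS univ (fun j => f (σ * swap k j))) := by
      unfold starS EU
      rw [hcard, hU, ← sum_div, sum_comm]
    have h4 : (c / n) * starS (univ : Finset (Fin n)) f ≤ ent f - ent (Pop p f) := by
      have h5 : ent f - ent (Pop p f) =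
          EU (fun σ => Pop p (fun τ => phi (f τ)) σ - phi (Pop p f σ)) := by
        have h6 : EU (fun σ => Pop p (fun τ => phi (f τ)) σ - phi (Pop p f σ)) =
            EU (Pop p (fun τ => phi (f τ))) - EU (fun σ => phi (Pop p f σ)) := by
          unfold EU
          rw [sum_sub_distrib, sub_div]
        rw [h6, EU_Pop hp]
        unfold ent
        rw [EU_Pop hp]
        ring
      rw [h5, h3]
      unfold EU
      rw [← mul_div_assoc, mul_sum]
      exact div_le_div_of_nonneg_right (sum_le_sum fun σ _ => pointwise hn hc hp f hf σ)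
        (by positivity)
    have h7 : 4 * c / (9 * n) * ent f ≤ (c / n) * starS (univ : Finset (Fin n)) f := by
      have h8 : 4 * c / (9 * n) * ent f ≤ 4 * c / (9 * n) * ((9 / 4) * starS univ f) :=
        mul_le_mul_of_nonneg_left h2 (by positivity)
      have h9 : 4 * c / (9 * n) * ((9 / 4) * starS (univ : Finset (Fin n)) f) =
          (c / n) * starS univ f := by
        field_simp
      linarith
    linarith
  refine ⟨fun f hf => ⟨h0 f hf, h1 f hf⟩, ?_⟩
  intro f hf s
  have hpos : ∀ s : ℕ, ∀ σ, 0 ≤ ((Pop p)^[s] f) σ := by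
    intro s
    induction s with
    | zero => exact hf
    | succ s ih =>
      intro σ
      rw [Function.iterate_succ_apply']
      exact sum_nonneg fun i _ => sum_nonneg fun j _ =>
        mul_nonneg (le_trans (by positivity) (hp.lower i j)) (ih _)
  induction s with
  | zero => simp
  | succ s ih =>
    rw [Function.iterate_succ_apply']
    have h2 := h1 _ (hpos s)
    have h3 : (1 - 4 * c / (9 * n)) * ent ((Pop p)^[s] f) ≤
        Real.exp (-(4 * c / (9 * n))) * ent ((Pop p)^[s] f) := by
      refine mul_le_mul_of_nonneg_right ?_ (h0 _ (hpos s))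
      have := Real.add_one_le_exp (-(4 * c / (9 * n)))
      linarith
    have h4 : Real.exp (-(4 * c / (9 * n))) * ent ((Pop p)^[s] f) ≤
        Real.exp (-(4 * c / (9 * n))) * (Real.exp (-(4 * c * s / (9 * n))) * ent f) :=
      mul_le_mul_of_nonneg_left ih (Real.exp_pos _).le
    have h5 : Real.exp (-(4 * c / (9 * n))) * (Real.exp (-(4 * c * s / (9 * n))) * ent f) =
        Real.exp (-(4 * c * ((s + 1 : ℕ) : ℝ) / (9 * n))) * ent f := by
      rw [← mul_assoc, ← Real.exp_add]
      congr 2
      push_cast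
      ring
    linarith

end Pool.Agent.Lib.MP8c2010.NU
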