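import Pool.Agent.Lib.MP_8c2010_pr.NU.Spec

/-!
# DIS: dissipation controls the logarithmic gradient
-/

set_option autoImplicit false

namespace Pool.Agent.Lib.MP8c2010.NU

namespace DISM

/-- the pointwise estimate for a weighted average -/
lemma core {ι : Type} [Fintype ι] (w a : ι → ℝ) (b L m : ℝ)
    (hP : ∀ x L : ℝ, 0 < x → |Real.log x| ≤ L → 1 ≤ L →
      (Real.log x) ^ 2 ≤ 6 * L ^ 2 * (phi x - x + 1))
    (hw : ∀ i, 0 ≤ w i) (hw1 : ∑ i, w i = 1) (ha : ∀ i, 0 < a i) (hb : 0 < b)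
    (hR : ∀ i, |Real.log (a i) - Real.log b| ≤ L / 2) (hm : m = ∑ i, w i * a i) (hL : 1 ≤ L) :
    m * ∑ i, w i * (Real.log (a i) - Real.log m) ^ 2 ≤
      6 * L ^ 2 * ((∑ i, w i * phi (a i)) - phi m) := by
  have hup : ∀ i, a i ≤ b * Real.exp (L / 2) := by
    intro i
    have h1 := (abs_le.1 (hR i)).2
    have h2 : Real.log (a i) ≤ Real.log b + L / 2 := by linarith
    have h3 := Real.exp_le_exp.2 h2
    rwa [Real.exp_log (ha i), Real.exp_add, Real.exp_log hb] at h3
  have hlo : ∀ i, b * Real.exp (-(L / 2)) ≤ a i := by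
    intro i
    have h1 := (abs_le.1 (hR i)).1
    have h2 : Real.log b + -(L / 2) ≤ Real.log (a i) := by linarith
    have h3 := Real.exp_le_exp.2 h2
    rwa [Real.exp_log (ha i), Real.exp_add, Real.exp_log hb] at h3
  have hmup : m ≤ b * Real.exp (L / 2) := by
    rw [hm]
    calc ∑ i, w i * a i ≤ ∑ i, w i * (b * Real.exp (L / 2)) :=
          Finset.sum_le_sum fun i _ => mul_le_mul_of_nonneg_left (hup i) (hw i)
      _ = b * Real.exp (L / 2) := by rw [← Finset.sum_mul, hw1, one_mul]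
  have hmlo : b * Real.exp (-(L / 2)) ≤ m := by
    rw [hm]
    calc b * Real.exp (-(L / 2)) = ∑ i, w i * (b * Real.exp (-(L / 2))) := by
          rw [← Finset.sum_mul, hw1, one_mul]
      _ ≤ ∑ i, w i * a i :=
          Finset.sum_le_sum fun i _ => mul_le_mul_of_nonneg_left (hlo i) (hw i)
  have hm0 : 0 < m := lt_of_lt_of_le (mul_pos hb (Real.exp_pos _)) hmlo
  have hlm1 : Real.log m ≤ Real.log b + L / 2 := by
    have h := Real.log_le_log hm0 hmup
    rwa [Real.log_mul hb.ne' (Real.exp_pos _).ne', Real.log_exp] at h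
  have hlm2 : Real.log b - L / 2 ≤ Real.log m := by
    have h := Real.log_le_log (mul_pos hb (Real.exp_pos _)) hmlo
    rw [Real.log_mul hb.ne' (Real.exp_pos _).ne', Real.log_exp] at h
    linarith
  have hpt : ∀ i, m * (Real.log (a i) - Real.log m) ^ 2 ≤
      6 * L ^ 2 * (phi (a i) - a i * Real.log m - a i + m) := by
    intro i
    have hx : 0 < a i / m := div_pos (ha i) hm0
    have hlx : Real.log (a i / m) = Real.log (a i) - Real.log m :=
      Real.log_div (ha i).ne' hm0.ne'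
    have h1 := abs_le.1 (hR i)
    have h2 : |Real.log (a i / m)| ≤ L := by
      rw [hlx, abs_le]
      constructor <;> linarith [h1.1, h1.2]
    have h3 := hP _ _ hx h2 hL
    have h4 := mul_le_mul_of_nonneg_left h3 hm0.le
    rw [hlx] at h4
    refine h4.trans (le_of_eq ?_)
    unfold phi
    rw [hlx]
    field_simp
  calc m * ∑ i, w i * (Real.log (a i) - Real.log m) ^ 2
      = ∑ i, w i * (m * (Real.log (a i) - Real.log m) ^ 2) := by
        rw [Finset.mul_sum]
        exact Finset.sum_congr rfl fun i _ => by ring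
    _ ≤ ∑ i, w i * (6 * L ^ 2 * (phi (a i) - a i * Real.log m - a i + m)) :=
        Finset.sum_le_sum fun i _ => mul_le_mul_of_nonneg_left (hpt i) (hw i)
    _ = 6 * L ^ 2 * ((∑ i, w i * phi (a i)) - (∑ i, w i * a i) * Real.log m -
          (∑ i, w i * a i) + m * ∑ i, w i) := by
        rw [Finset.sum_mul, Finset.mul_sum, ← Finset.sum_sub_distrib, ← Finset.sum_sub_distrib,
          ← Finset.sum_add_distrib, Finset.mul_sum]
        exact Finset.sum_congr rfl fun i _ => by ring
    _ = 6 * L ^ 2 * ((∑ i, w i * phi (a i)) - phi m) := by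
        rw [← hm, hw1]
        unfold phi
        ring

lemma EU_sub {n : ℕ} (f g : Equiv.Perm (Fin n) → ℝ) :
    EU (fun σ => f σ - g σ) = EU f - EU g := by
  unfold EU
  rw [Finset.sum_sub_distrib, sub_div]

lemma EU_mul {n : ℕ} (k : ℝ) (f : Equiv.Perm (Fin n) → ℝ) :
    EU (fun σ => k * f σ) = k * EU f := by
  unfold EU
  rw [← Finset.mul_sum, mul_div_assoc]

lemma EU_mono {n : ℕ} (f g : Equiv.Perm (Fin n) → ℝ) (h : ∀ σ, f σ ≤ g σ) : EU f ≤ EU g := by
  unfold EU
  exact div_le_div_of_nonneg_right (Finset.sum_le_sum fun σ _ => h σ) (Nat.cast_nonneg _)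

end DISM

open DISM in
theorem specDIS (hSMO : SpecSMO) (hPTW : SpecPTW) : SpecDIS := by
  intro n c C p hn hc hp t
  obtain ⟨-, -, hL, hPop, -, -, hpos, hEU, -, hrec, hLip⟩ := hSMO n c C p hn hc hp
  obtain ⟨-, -, -, hP⟩ := hPTW
  have hp0 : ∀ i j, 0 ≤ p i j := fun i j => le_trans (by positivity) (hp.lower i j)
  have hDk : Dk p t - Dk p (t + 1) =
      EU (fun τ => Pop p (fun σ => phi (sm p t σ)) τ - phi (sm p (t + 1) τ)) := by
    rw [EU_sub, hPop (fun σ => phi (sm p t σ))]
    unfold Dk ent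
    rw [hEU, hEU]
    ring
  rw [hDk, ← EU_mul]
  refine EU_mono _ _ fun τ => ?_
  have h := core (fun x : Fin n × Fin n => p x.1 x.2)
    (fun x => sm p t (τ * Equiv.swap x.1 x.2)) (sm p t τ) (LL n c) (sm p (t + 1) τ) hP
    (fun x => hp0 _ _) (by rw [Fintype.sum_prod_type]; exact hp.total) (fun x => hpos _ _)
    (hpos _ _) (fun x => hLip _ _ _ _)
    (by rw [Fintype.sum_prod_type, hrec]; rfl) hL
  rw [Fintype.sum_prod_type, Fintype.sum_prod_type] at h
  exact h

end Pool.Agent.Lib.MP8c2010.NU
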