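import Pool.Agent.Lib.MP_8c2010_pr.NU.Spec

set_option autoImplicit false

/-! # Module ENT0: size of the entropy -/

namespace Pool.Agent.Lib.MP8c2010.NU

open Equiv

namespace ENT0M

variable {n : ℕ}

lemma EU_mono {f g : Perm (Fin n) → ℝ} (h : ∀ σ, f σ ≤ g σ) : EU f ≤ EU g :=
  div_le_div_of_nonneg_right (Finset.sum_le_sum fun σ _ => h σ) (Nat.cast_nonneg _)

lemma EU_mul (a : ℝ) (f : Perm (Fin n) → ℝ) : EU (fun σ => a * f σ) = a * EU f := by
  simp only [EU, ← Finset.mul_sum, mul_div_assoc]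

end ENT0M

open ENT0M in
theorem specENT0 (hSMO : SpecSMO) (hCTR : SpecCTR) : SpecENT0 := by
  intro n c C p hn hc hp
  obtain ⟨-, -, -, -, -, -, hs0, hs1, -, hsP, -⟩ := hSMO n c C p hn hc hp
  obtain ⟨h1, h2⟩ := hCTR n c C p (by omega) hc hp
  have hnR : (2 : ℝ) ≤ n := by exact_mod_cast hn
  have hD0 : ∀ t, 0 ≤ Dk p t := fun t => (h1 (sm p t) fun σ => (hs0 t σ).le).1
  refine ⟨hD0, fun t => ?_, fun t => ?_, fun t s => ?_⟩
  · have h3 := (h1 (sm p t) fun σ => (hs0 t σ).le).2
    rw [← hsP t] at h3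
    have h4 : 0 ≤ 4 * c / (9 * n) := by positivity
    have h5 := hD0 t
    rw [Dk] at h5 ⊢
    rw [Dk]
    nlinarith
  · have hle : ∀ σ, sm p t σ ≤ n.factorial := by
      intro σ
      have hf : (0 : ℝ) < n.factorial := by exact_mod_cast n.factorial_pos
      have h3 := hs1 t
      rw [EU, div_eq_one_iff_eq hf.ne'] at h3
      rw [← h3]
      exact Finset.single_le_sum (fun τ _ => (hs0 t τ).le) (Finset.mem_univ σ)
    have hle2 : (n.factorial : ℝ) ≤ (n : ℝ) ^ n := by exact_mod_cast Nat.factorial_le_pow n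
    rw [Dk, ent, hs1]
    simp only [phi, Real.log_one, mul_zero, sub_zero]
    calc EU (fun σ => sm p t σ * Real.log (sm p t σ))
        ≤ EU (fun σ => (n * Real.log n) * sm p t σ) := by
          refine EU_mono fun σ => ?_
          rw [mul_comm]
          refine mul_le_mul_of_nonneg_right ?_ (hs0 t σ).le
          rw [← Real.log_pow]
          exact Real.log_le_log (hs0 t σ) ((hle σ).trans hle2)
      _ = n * Real.log n := by rw [EU_mul, hs1, mul_one]
  · have h3 : ∀ s, sm p (t + s) = (Pop p)^[s] (sm p t) := by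
      intro s
      induction s with
      | zero => rfl
      | succ s ih => rw [Function.iterate_succ_apply', ← ih, ← hsP]; rfl
    rw [Dk, Dk, h3 s]
    exact h2 (sm p t) (fun σ => (hs0 t σ).le) s

end Pool.Agent.Lib.MP8c2010.NU
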