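import Pool.Agent.Lib.MP_8c2010_pr.NU.Spec

/-!
# NU, module ERA: entropy and the removal of one point
-/

set_option autoImplicit false

namespace Pool.Agent.Lib.MP8c2010.NU

open Equiv Finset

namespace ERAM

theorem entS_nonneg {ι : Type} (s : Finset ι) (a : ι → ℝ) (hs : s.Nonempty)
    (ha : ∀ i ∈ s, 0 ≤ a i) : 0 ≤ entS s a := by
  have hN : (0 : ℝ) < s.card := by exact_mod_cast hs.card_pos
  have h := Real.convexOn_mul_log.map_sum_le (t := s) (w := fun _ => 1 / (s.card : ℝ)) (p := a)
    (fun i _ => by positivity) (by rw [sum_const, nsmul_eq_mul]; field_simp)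
    (fun i hi => ha i hi)
  simp only [smul_eq_mul, ← mul_sum] at h
  unfold entS phi
  rw [div_eq_mul_one_div (∑ i ∈ s, a i * Real.log (a i)), div_eq_mul_one_div (∑ i ∈ s, a i),
    mul_comm _ (1 / (s.card : ℝ)), mul_comm (∑ i ∈ s, a i) (1 / (s.card : ℝ))]
  linarith

theorem entS_erase {ι : Type} [DecidableEq ι] (s : Finset ι) (a : ι → ℝ) {i : ι} (hi : i ∈ s)
    (h2 : 2 ≤ s.card) : entS (s.erase i) a =
      (∑ j ∈ s, phi (a j) - phi (a i)) / ((s.card : ℝ) - 1) -
        phi ((∑ j ∈ s, a j - a i) / ((s.card : ℝ) - 1)) := by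
  have h1 : (((s.erase i).card : ℕ) : ℝ) = (s.card : ℝ) - 1 := by
    rw [card_erase_of_mem hi, Nat.cast_sub (by omega), Nat.cast_one]
  unfold entS
  rw [h1, sum_erase_eq_sub hi, sum_erase_eq_sub hi]

theorem phi_mul {A x : ℝ} (hA : 0 < A) (hx : 0 ≤ x) : phi (A * x) = x * phi A + A * phi x := by
  rcases hx.eq_or_lt with h | h
  · rw [← h]
    simp [phi]
  · unfold phi
    rw [Real.log_mul hA.ne' h.ne']
    ring

theorem phi_le {y : ℝ} (hy : 0 ≤ y) : phi y ≤ y ^ 2 - y := by
  rcases hy.eq_or_lt with h | h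
  · rw [← h]
    simp [phi]
  · have h1 := mul_le_mul_of_nonneg_left (Real.log_le_sub_one_of_pos h) hy
    unfold phi
    linarith [h1, (by ring : y * (y - 1) = y ^ 2 - y)]

end ERAM

open ERAM in
theorem specERA (hPTW : SpecPTW) : SpecERA := by
  intro ι _ s a ha
  obtain ⟨hP1, _, hP3, _⟩ := hPTW
  obtain ⟨P, hP⟩ : ∃ P : ℝ, P = ∑ i ∈ s, phi (a i) := ⟨_, rfl⟩
  obtain ⟨T, hT⟩ : ∃ T : ℝ, T = ∑ i ∈ s, a i := ⟨_, rfl⟩
  have hT0 : 0 ≤ T := by
    rw [hT]
    exact sum_nonneg ha
  have haT : ∀ i ∈ s, a i ≤ T := by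
    intro i hi
    rw [hT]
    exact single_le_sum ha hi
  obtain ⟨m, hm⟩ : ∃ m : ι → ℝ, ∀ i, m i = (T - a i) / ((s.card : ℝ) - 1) :=
    ⟨fun i => (T - a i) / ((s.card : ℝ) - 1), fun _ => rfl⟩
  -- the sum of the entropies of the sets with one point removed
  have hX : 2 ≤ s.card → ∑ i ∈ s, entS (s.erase i) a = P - ∑ i ∈ s, phi (m i) := by
    intro h2
    have h2r : (2 : ℝ) ≤ s.card := by exact_mod_cast h2
    have h1 : ∀ i ∈ s, entS (s.erase i) a =
        (P - phi (a i)) / ((s.card : ℝ) - 1) - phi (m i) := by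
      intro i hi
      rw [entS_erase s a hi h2, hm, ← hP, ← hT]
    rw [sum_congr rfl h1, sum_sub_distrib, ← sum_div, sum_sub_distrib, ← hP, sum_const,
      nsmul_eq_mul]
    have h3 : ((s.card : ℝ) * P - P) / ((s.card : ℝ) - 1) = P := by
      have : (s.card : ℝ) - 1 ≠ 0 := by linarith
      field_simp
    rw [h3]
  have hmsum : 2 ≤ s.card → ∑ i ∈ s, m i = T := by
    intro h2
    have h2r : (2 : ℝ) ≤ s.card := by exact_mod_cast h2
    have : (s.card : ℝ) - 1 ≠ 0 := by linarith
    rw [sum_congr rfl fun i _ => hm i, ← sum_div, sum_sub_distrib, ← hT, sum_const, nsmul_eq_mul]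
    field_simp
  have hm0 : 2 ≤ s.card → ∀ i ∈ s, 0 ≤ m i := by
    intro h2 i hi
    have h2r : (2 : ℝ) ≤ s.card := by exact_mod_cast h2
    rw [hm]
    exact div_nonneg (by linarith [haT i hi]) (by linarith)
  refine ⟨fun h2 => ?_, fun h4 => ?_⟩
  · have h2r : (2 : ℝ) ≤ s.card := by exact_mod_cast h2
    have hne : s.Nonempty := card_pos.1 (by omega)
    have h1 := entS_nonneg s m hne (hm0 h2)
    unfold entS at h1 ⊢
    rw [hmsum h2] at h1
    have h3 := hX h2
    unfold entS at h3
    rw [h3, ← hP, ← hT, sub_div]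
    linarith
  · have h2 : 2 ≤ s.card := by omega
    have h4r : (4 : ℝ) ≤ s.card := by exact_mod_cast h4
    obtain ⟨N, hN⟩ : ∃ N : ℝ, N = (s.card : ℝ) := ⟨_, rfl⟩
    rw [← hN] at h4r
    have hN0 : 0 < N := by linarith
    rw [hX h2, ← hN]
    rcases hT0.eq_or_lt with h0 | h0
    · have h1 : ∀ i ∈ s, a i = 0 := by
        rw [hT] at h0
        exact (sum_eq_zero_iff_of_nonneg ha).1 h0.symm
      have h3 : ∀ i ∈ s, phi (m i) = 0 := by
        intro i hi
        rw [hm, h1 i hi, ← h0]
        simp [phi]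
      have h5 : P = 0 := by
        rw [hP]
        exact sum_eq_zero fun i hi => by rw [h1 i hi]; simp [phi]
      have h6 : entS s a = 0 := by
        unfold entS
        rw [← hP, ← hT, h5, ← h0]
        simp [phi]
      rw [h6, h5, sum_eq_zero h3]
      simp
    · obtain ⟨A, hA⟩ : ∃ A : ℝ, A = T / N := ⟨_, rfl⟩
      have hA0 : 0 < A := by
        rw [hA]
        positivity
      have hTA : T = N * A := by
        rw [hA]
        field_simp
      obtain ⟨x, hx⟩ : ∃ x : ι → ℝ, ∀ i, x i = a i / A := ⟨fun i => a i / A, fun _ => rfl⟩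
      have hax : ∀ i, a i = A * x i := by
        intro i
        rw [hx]
        field_simp
      have hx0 : ∀ i ∈ s, 0 ≤ x i := by
        intro i hi
        rw [hx]
        exact div_nonneg (ha i hi) hA0.le
      have hxN : ∀ i ∈ s, x i ≤ N := by
        intro i hi
        rw [hx, div_le_iff₀ hA0, ← hTA]
        exact haT i hi
      have hxsum : ∑ i ∈ s, x i = N := by
        rw [sum_congr rfl fun i _ => hx i, ← sum_div, ← hT, hTA]
        field_simp
      -- the entropy of `a`
      have hent : N * entS s a = A * ∑ i ∈ s, (phi (x i) - x i + 1) := by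
        have h1 : P = N * phi A + A * ∑ i ∈ s, phi (x i) := by
          rw [hP, sum_congr rfl fun i hi => by rw [hax i, phi_mul hA0 (hx0 i hi)],
            sum_add_distrib, ← sum_mul, ← mul_sum, hxsum]
        unfold entS
        rw [← hP, ← hT, ← hN, ← hA, h1, sum_add_distrib, sum_sub_distrib, hxsum, sum_const,
          nsmul_eq_mul, ← hN]
        field_simp
        ring
      -- the entropy of `m`
      have hment : ∑ i ∈ s, phi (m i) - N * phi A ≤
          A * ((N + 1) / (N - 1) ^ 2) * ∑ i ∈ s, (phi (x i) - x i + 1) := by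
        have hN1 : N - 1 ≠ 0 := by linarith
        have hN1' : 0 < N - 1 := by linarith
        have hmy : ∀ i, m i = A * ((N - x i) / (N - 1)) := by
          intro i
          rw [hm, hTA, hax i, ← hN]
          field_simp
        have hy0 : ∀ i ∈ s, 0 ≤ (N - x i) / (N - 1) := fun i hi =>
          div_nonneg (by linarith [hxN i hi]) hN1'.le
        have hysum : ∑ i ∈ s, (N - x i) / (N - 1) = N := by
          rw [← sum_div, sum_sub_distrib, hxsum, sum_const, nsmul_eq_mul, ← hN]
          field_simp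
        have h1 : ∑ i ∈ s, phi (m i) = N * phi A + A * ∑ i ∈ s, phi ((N - x i) / (N - 1)) := by
          rw [sum_congr rfl fun i hi => by rw [hmy i, phi_mul hA0 (hy0 i hi)],
            sum_add_distrib, ← sum_mul, ← mul_sum, hysum]
        have h3 : ∑ i ∈ s, phi ((N - x i) / (N - 1)) ≤
            ∑ i ∈ s, ((N + 1) / (N - 1) ^ 2 * (phi (x i) - x i + 1) +
              ((N - x i) / (N - 1) - 1)) := by
          refine sum_le_sum fun i hi => ?_
          have h5 := phi_le (hy0 i hi)
          have h6 := hP3 (x i) N (hx0 i hi) (hxN i hi) (by linarith)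
          have h7 : ((N - x i) / (N - 1)) ^ 2 - (N - x i) / (N - 1) =
              (x i - 1) ^ 2 / (N - 1) ^ 2 + ((N - x i) / (N - 1) - 1) := by
            field_simp
            ring
          have h8 : (x i - 1) ^ 2 / (N - 1) ^ 2 ≤
              (N + 1) / (N - 1) ^ 2 * (phi (x i) - x i + 1) := by
            rw [div_mul_eq_mul_div]
            exact div_le_div_of_nonneg_right h6 (by positivity)
          linarith
        rw [sum_add_distrib, ← mul_sum, sum_sub_distrib, hysum, sum_const, nsmul_eq_mul, ← hN,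
          mul_one, sub_self, add_zero] at h3
        have h5 := mul_le_mul_of_nonneg_left h3 hA0.le
        rw [h1]
        linarith
      have hH : 0 ≤ A * ∑ i ∈ s, (phi (x i) - x i + 1) :=
        mul_nonneg hA0.le (sum_nonneg fun i hi => hP1 _ (hx0 i hi))
      have h59 : (N + 1) / (N - 1) ^ 2 ≤ 5 / 9 := by
        have h1 : 0 < (N - 1) ^ 2 := by
          have : 0 < N - 1 := by linarith
          positivity
        rw [div_le_div_iff₀ h1 (by norm_num)]
        nlinarith
      have h5 : A * ((N + 1) / (N - 1) ^ 2) * ∑ i ∈ s, (phi (x i) - x i + 1) ≤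
          5 / 9 * (N * entS s a) := by
        rw [hent]
        calc A * ((N + 1) / (N - 1) ^ 2) * ∑ i ∈ s, (phi (x i) - x i + 1)
            = (N + 1) / (N - 1) ^ 2 * (A * ∑ i ∈ s, (phi (x i) - x i + 1)) := by ring
          _ ≤ _ := mul_le_mul_of_nonneg_right h59 hH
      have h6 : N * entS s a = P - N * phi A := by
        unfold entS
        rw [← hP, ← hT, ← hN, ← hA]
        field_simp
      have h7 : N * entS s a ≤ 9 / 4 * (P - ∑ i ∈ s, phi (m i)) := by linarith
      have h8 : 9 / 4 * ((P - ∑ i ∈ s, phi (m i)) / N) =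
          (9 / 4 * (P - ∑ i ∈ s, phi (m i))) / N := by ring
      rw [h8, le_div_iff₀ hN0]
      linarith

end Pool.Agent.Lib.MP8c2010.NU
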