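import Pool.Agent.Lib.MP_8c2010_pr.NU.Spec

/-!
# FIN: small smoothed entropy gives mixing
-/

set_option autoImplicit false

namespace Pool.Agent.Lib.MP8c2010.NU

open Equiv Finset

namespace FINM

variable {n : ℕ} {p : Fin n → Fin n → ℝ}

lemma Pop_add (f g : Perm (Fin n) → ℝ) : Pop p (f + g) = Pop p f + Pop p g := by
  funext σ
  simp only [Pop, Pi.add_apply, mul_add, Finset.sum_add_distrib]

lemma Pop_smul (a : ℝ) (f : Perm (Fin n) → ℝ) : Pop p (a • f) = a • Pop p f := by
  funext σ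
  simp only [Pop, Pi.smul_apply, smul_eq_mul, Finset.mul_sum]
  exact Finset.sum_congr rfl fun i _ => Finset.sum_congr rfl fun j _ => by ring

lemma it_add (s : ℕ) : ∀ f g : Perm (Fin n) → ℝ,
    (Pop p)^[s] (f + g) = (Pop p)^[s] f + (Pop p)^[s] g := by
  induction s with
  | zero => intro f g; rfl
  | succ s ih => intro f g; rw [Function.iterate_succ_apply, Pop_add, ih]; rfl

lemma it_smul (s : ℕ) (a : ℝ) : ∀ f : Perm (Fin n) → ℝ,
    (Pop p)^[s] (a • f) = a • (Pop p)^[s] f := by
  induction s with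
  | zero => intro f; rfl
  | succ s ih => intro f; rw [Function.iterate_succ_apply, Pop_smul, ih]; rfl

lemma it_nonneg (hp : ∀ i j, 0 ≤ p i j) (s : ℕ) : ∀ f : Perm (Fin n) → ℝ, (∀ σ, 0 ≤ f σ) →
    ∀ σ, 0 ≤ (Pop p)^[s] f σ := by
  induction s with
  | zero => intro f hf σ; exact hf σ
  | succ s ih =>
    intro f hf σ
    rw [Function.iterate_succ_apply]
    exact ih _ (fun σ => Finset.sum_nonneg fun i _ => Finset.sum_nonneg fun j _ =>
      mul_nonneg (hp i j) (hf _)) σ

lemma EU_it (h : ∀ f : Perm (Fin n) → ℝ, EU (Pop p f) = EU f) (s : ℕ) :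
    ∀ f : Perm (Fin n) → ℝ, EU ((Pop p)^[s] f) = EU f := by
  induction s with
  | zero => intro f; rfl
  | succ s ih => intro f; rw [Function.iterate_succ_apply, ih, h]

lemma EU_add (f g : Perm (Fin n) → ℝ) : EU (f + g) = EU f + EU g := by
  simp only [EU, Pi.add_apply, Finset.sum_add_distrib, add_div]

lemma EU_smul (a : ℝ) (f : Perm (Fin n) → ℝ) : EU (a • f) = a * EU f := by
  simp only [EU, Pi.smul_apply, smul_eq_mul, ← Finset.mul_sum, mul_div_assoc]

lemma EU_mono {f g : Perm (Fin n) → ℝ} (h : ∀ σ, f σ ≤ g σ) : EU f ≤ EU g := by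
  unfold EU
  exact div_le_div_of_nonneg_right (Finset.sum_le_sum fun σ _ => h σ) (by positivity)

lemma EU_const (a : ℝ) : EU (fun _ : Perm (Fin n) => a) = a := by
  have hf : (n.factorial : ℝ) ≠ 0 := by exact_mod_cast n.factorial_ne_zero
  unfold EU
  rw [Finset.sum_const, Finset.card_univ, Fintype.card_perm, Fintype.card_fin, nsmul_eq_mul]
  field_simp

lemma dens_add (k s : ℕ) : dens p (k + s) = (Pop p)^[s] (dens p k) := by
  induction s with
  | zero => rfl
  | succ s ih =>
    rw [Function.iterate_succ_apply', ← ih, ← add_assoc]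
    rfl

lemma phi_le {x : ℝ} (h0 : 0 ≤ x) (h8 : x ≤ 8) : phi x ≤ Real.log 8 * x := by
  unfold phi
  rcases h0.eq_or_lt with h | h
  · rw [← h]; simp
  · rw [mul_comm]
    exact mul_le_mul_of_nonneg_right (Real.log_le_log h h8) h0

end FINM

open FINM in
theorem specFIN (hSMO : SpecSMO) (hCTR : SpecCTR) (hPIN : SpecPIN) : SpecFIN := by
  classical
  intro n c C η p hn hc h hη hη' k s hD
  obtain ⟨-, -, -, hEP, hd0, hd1, hs0, hs1, hsm, -, -⟩ := hSMO n c C p hn hc h
  obtain ⟨-, hC2⟩ := hCTR n c C p (by omega) hc h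
  have hn0 : (0 : ℝ) < n := by exact_mod_cast (show 0 < n by omega)
  have hp : ∀ i j, 0 ≤ p i j := fun i j => le_trans (by positivity) (h.lower i j)
  -- the distance of the smoothed density
  set f := sm p k with hf
  set d1 := EU (fun σ => |f σ - 1|) with hd1'
  have hd1n : 0 ≤ d1 := by
    have := EU_mono (f := fun _ : Perm (Fin n) => (0 : ℝ)) (g := fun σ => |f σ - 1|)
      (fun σ => abs_nonneg _)
    rwa [EU_const] at this
  have hd1s : d1 ^ 2 ≤ 3 * η := by
    have h1 := hPIN n f (fun σ => (hs0 k σ).le) (hs1 k)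
    have h2 : ent f = Dk p k := rfl
    rw [h2] at h1
    linarith
  have hd1r : d1 ≤ Real.sqrt (3 * η) := Real.le_sqrt_of_sq_le hd1s
  have hd14 : d1 ≤ 1 / 4 := by
    have : d1 ^ 2 ≤ (1 / 4) ^ 2 := by linarith
    exact abs_le_of_sq_le_sq' this (by norm_num) |>.2
  have hle2 : ∀ σ, dens p k σ ≤ 2 * f σ := by
    intro σ
    have h1 := hsm k σ
    have h2 := hs0 (k + 1) σ
    rw [hf]
    linarith
  -- splitting of the density
  set g : Perm (Fin n) → ℝ := fun σ => if f σ ≤ 2 then dens p k σ else 0 with hg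
  set r : Perm (Fin n) → ℝ := fun σ => if f σ ≤ 2 then 0 else dens p k σ with hr
  have hgr : dens p k = g + r := by
    funext σ
    simp only [hg, hr, Pi.add_apply]
    split_ifs <;> simp
  have hg0 : ∀ σ, 0 ≤ g σ := by
    intro σ; simp only [hg]; split_ifs
    · exact hd0 k σ
    · exact le_rfl
  have hr0 : ∀ σ, 0 ≤ r σ := by
    intro σ; simp only [hr]; split_ifs
    · exact le_rfl
    · exact hd0 k σ
  have hg4 : ∀ σ, g σ ≤ 4 := by
    intro σ; simp only [hg]; split_ifs with h1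
    · linarith [hle2 σ]
    · norm_num
  set b := EU r with hb
  have hb0 : 0 ≤ b := by
    have := EU_mono (f := fun _ : Perm (Fin n) => (0 : ℝ)) (g := r) hr0
    rwa [EU_const] at this
  have hgb : EU g = 1 - b := by
    have h1 : EU (dens p k) = EU g + EU r := by rw [hgr, EU_add]
    rw [hd1 k] at h1
    linarith
  have hb2 : b ≤ 2 * d1 := by
    have h1 : ∀ σ, r σ ≤ 2 * |f σ - 1| + 2 * (f σ - 1) := by
      intro σ
      simp only [hr]
      split_ifs with h2
      · have := neg_abs_le (f σ - 1)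
        linarith
      · push Not at h2
        rw [abs_of_pos (by linarith)]
        linarith [hle2 σ]
    have h2 : EU r ≤ EU ((2 : ℝ) • (fun σ => |f σ - 1|) + ((2 : ℝ) • f + fun _ => (-2 : ℝ))) := by
      refine EU_mono fun σ => ?_
      simp only [Pi.add_apply, Pi.smul_apply, smul_eq_mul]
      linarith [h1 σ]
    rw [EU_add, EU_smul, EU_add, EU_smul, EU_const, hf, hs1 k] at h2
    linarith
  have hb12 : b ≤ 1 / 2 := by linarith
  have h1b : 0 < 1 - b := by linarith
  -- the normalised bounded part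
  set g1 : Perm (Fin n) → ℝ := (1 - b)⁻¹ • g with hg1
  have hg1g : g = (1 - b) • g1 := by
    rw [hg1, smul_smul, mul_inv_cancel₀ h1b.ne', one_smul]
  have hg10 : ∀ σ, 0 ≤ g1 σ := by
    intro σ
    simp only [hg1, Pi.smul_apply, smul_eq_mul]
    exact mul_nonneg (inv_nonneg.mpr h1b.le) (hg0 σ)
  have hg18 : ∀ σ, g1 σ ≤ 8 := by
    intro σ
    simp only [hg1, Pi.smul_apply, smul_eq_mul]
    have h2 : (1 - b)⁻¹ ≤ 2 := by
      rw [inv_le_comm₀ h1b (by norm_num)]
      linarith
    calc (1 - b)⁻¹ * g σ ≤ 2 * 4 := mul_le_mul h2 (hg4 σ) (hg0 σ) (by norm_num)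
      _ = 8 := by norm_num
  have hg1E : EU g1 = 1 := by
    rw [hg1, EU_smul, hgb, inv_mul_cancel₀ h1b.ne']
  have hent : ent g1 ≤ Real.log 8 := by
    have h2 : EU (fun σ => phi (g1 σ)) ≤ EU (Real.log 8 • g1) := by
      refine EU_mono fun σ => ?_
      simp only [Pi.smul_apply, smul_eq_mul]
      exact phi_le (hg10 σ) (hg18 σ)
    rw [EU_smul, hg1E] at h2
    unfold ent
    rw [hg1E]
    have h3 : phi 1 = 0 := by simp [phi]
    rw [h3]
    linarith
  have hP : EU (fun σ => |(Pop p)^[s] g1 σ - 1|) ≤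
      Real.sqrt (3 * (Real.exp (-(4 * c * s / (9 * n))) * Real.log 8)) := by
    refine Real.le_sqrt_of_sq_le ?_
    refine (hPIN n _ (it_nonneg hp s g1 hg10) ((EU_it hEP s g1).trans hg1E)).trans ?_
    have h2 := hC2 g1 hg10 s
    have h3 : Real.exp (-(4 * c * s / (9 * n))) * ent g1 ≤
        Real.exp (-(4 * c * s / (9 * n))) * Real.log 8 :=
      mul_le_mul_of_nonneg_left hent (Real.exp_pos _).le
    linarith
  -- the total variation distance
  have hfin : EU (fun σ => |dens p (k + s) σ - 1|) ≤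
      EU (fun σ => |(Pop p)^[s] g1 σ - 1|) + 2 * b := by
    have h2 : EU (fun σ => |dens p (k + s) σ - 1|) ≤
        EU ((fun σ => |(Pop p)^[s] g1 σ - 1|) + ((Pop p)^[s] r + fun _ => b)) := by
      refine EU_mono fun σ => ?_
      rw [dens_add, hgr, it_add, hg1g, it_smul]
      simp only [Pi.add_apply, Pi.smul_apply, smul_eq_mul]
      have h3 := it_nonneg hp s r hr0 σ
      have h4 : |(1 - b) * (Pop p)^[s] g1 σ + (Pop p)^[s] r σ - 1| ≤
          (1 - b) * |(Pop p)^[s] g1 σ - 1| + ((Pop p)^[s] r σ + b) := by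
        have e1 : (1 - b) * (Pop p)^[s] g1 σ + (Pop p)^[s] r σ - 1 =
            (1 - b) * ((Pop p)^[s] g1 σ - 1) + ((Pop p)^[s] r σ - b) := by ring
        rw [e1]
        refine (abs_add_le _ _).trans ?_
        rw [abs_mul, abs_of_pos h1b]
        have h5 : |(Pop p)^[s] r σ - b| ≤ (Pop p)^[s] r σ + b := by
          rw [abs_le]; constructor <;> linarith
        linarith
      have h6 : (1 - b) * |(Pop p)^[s] g1 σ - 1| ≤ |(Pop p)^[s] g1 σ - 1| := by
        have := abs_nonneg ((Pop p)^[s] g1 σ - 1)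
        nlinarith
      have e2 : (1 - b) * (Pop p)^[s] g1 σ + (Pop p)^[s] r σ - 1 =
          (1 - b) * (Pop p)^[s] g1 σ + (Pop p)^[s] r σ - 1 := rfl
      linarith
    rw [EU_add, EU_add, EU_it hEP s r, EU_const] at h2
    linarith
  unfold tv
  linarith

end Pool.Agent.Lib.MP8c2010.NU
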