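import Pool.Agent.Lib.MP_8c2010_pr.NU.Spec

set_option autoImplicit false

/-! # Module IND: the induction for the entropy inequality on permutations -/

namespace Pool.Agent.Lib.MP8c2010.NU

open Equiv Finset

namespace INDM

/-- the statement for sets with `N` elements and constant `κ` -/
def K (n N : ℕ) (κ : ℝ) : Prop :=
  ∀ A : Finset (Fin n), A.card = N → ∀ f : Perm (Fin n) → ℝ, (∀ σ, 0 ≤ f σ) →
    entS (SymA A) f ≤ κ * starS A f

theorem symA_singleton {n : ℕ} (i : Fin n) : SymA ({i} : Finset (Fin n)) = {1} := by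
  ext π
  simp only [SymA, mem_filter, mem_univ, true_and, mem_singleton]
  constructor
  · intro h
    ext x
    congr 1
    by_cases hx : x = i
    · subst hx
      by_contra hne
      exact hne (π.injective (h (π x) hne))
    · exact h x hx
  · rintro rfl x _
    rfl

theorem base (n : ℕ) : K n 1 0 := by
  intro A hA f _
  obtain ⟨i, rfl⟩ := Finset.card_eq_one.1 hA
  rw [symA_singleton]
  simp [entS]

theorem card_pos' (h : SpecSYM) {n : ℕ} (A : Finset (Fin n)) : (0 : ℝ) < ((SymA A).card : ℝ) := by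
  obtain ⟨-, -, -, -, -, -, h7⟩ := h
  exact_mod_cast Finset.card_pos.2 ⟨1, h7 n A⟩

theorem star_nonneg (hJ : SpecJEN) {n : ℕ} (A : Finset (Fin n)) (f : Perm (Fin n) → ℝ)
    (hf : ∀ σ, 0 ≤ f σ) : 0 ≤ starS A f := by
  unfold starS
  refine Finset.sum_nonneg fun k hk => ?_
  refine div_nonneg (Finset.sum_nonneg fun π _ => ?_) (Nat.cast_nonneg _)
  exact hJ.1 (Fin n) A _ ⟨k, hk⟩ fun i _ => hf _

/-- the mean over `SymA A` of the entropy on `A.erase i` -/
noncomputable def Mk {n : ℕ} (A : Finset (Fin n)) (f : Perm (Fin n) → ℝ) (k i : Fin n) : ℝ :=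
  (∑ π ∈ SymA A, entS (A.erase i) (fun j => f (π * swap k j))) / ((SymA A).card : ℝ)

/-- the induction hypothesis for the fibres -/
theorem fibre (hS : SpecSYM) {n N : ℕ} {κ : ℝ} (hN : 2 ≤ N) (hK : K n (N - 1) κ)
    (A : Finset (Fin n)) (hA : A.card = N) (f : Perm (Fin n) → ℝ) (hf : ∀ σ, 0 ≤ f σ)
    (i : Fin n) (hi : i ∈ A) :
    (∑ v ∈ A, entS (SymA (A.erase i)) (fun π => f (swap i v * π))) / (A.card : ℝ) ≤
      κ * ∑ k ∈ A.erase i, Mk A f k i := by
  have hAc : (0 : ℝ) < (A.card : ℝ) := by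
    rw [hA]
    exact_mod_cast (by omega : 0 < N)
  have hc := card_pos' hS A
  have hc' := card_pos' hS (A.erase i)
  have hcard : ((SymA A).card : ℝ) = (A.card : ℝ) * ((SymA (A.erase i)).card : ℝ) := by
    exact_mod_cast hS.2.1 n A i hi
  have h1 : ∀ v ∈ A, entS (SymA (A.erase i)) (fun π => f (swap i v * π)) ≤
      κ * starS (A.erase i) (fun π => f (swap i v * π)) := by
    intro v _
    exact hK (A.erase i) (by rw [Finset.card_erase_of_mem hi, hA]) _ fun σ => hf _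
  rw [div_le_iff₀ hAc]
  refine (Finset.sum_le_sum h1).trans (le_of_eq ?_)
  rw [← Finset.mul_sum, mul_assoc]
  congr 1
  unfold starS Mk
  rw [Finset.sum_comm, Finset.sum_mul]
  refine Finset.sum_congr rfl fun k _ => ?_
  rw [← Finset.sum_div, hS.1 n A i hi (fun π => entS (A.erase i) (fun j => f (π * swap k j))), hcard]
  have h2 : ∑ v ∈ A, ∑ π ∈ SymA (A.erase i),
      entS (A.erase i) (fun j => f (swap i v * (π * swap k j))) =
      ∑ v ∈ A, ∑ π ∈ SymA (A.erase i),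
      entS (A.erase i) (fun j => f (swap i v * π * swap k j)) := by
    simp only [mul_assoc]
  rw [h2]
  field_simp

/-- removing one point, averaged -/
theorem removal (hE : SpecERA) (hS : SpecSYM) {n : ℕ}
    (A : Finset (Fin n)) (hA : 2 ≤ A.card) (f : Perm (Fin n) → ℝ) (hf : ∀ σ, 0 ≤ f σ)
    (k : Fin n) :
    ∑ i ∈ A, Mk A f k i ≤ (A.card : ℝ) *
      ((∑ π ∈ SymA A, entS A (fun j => f (π * swap k j))) / ((SymA A).card : ℝ)) := by
  have hAc : (0 : ℝ) < (A.card : ℝ) := by exact_mod_cast (by omega : 0 < A.card)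
  have hc := card_pos' hS A
  unfold Mk
  rw [← Finset.sum_div, Finset.sum_comm, ← mul_div_assoc, Finset.mul_sum]
  refine div_le_div_of_nonneg_right (Finset.sum_le_sum fun π _ => ?_) hc.le
  have h1 := (hE (Fin n) A (fun j => f (π * swap k j)) fun i _ => hf _).1 hA
  rw [div_le_iff₀ hAc] at h1
  rw [mul_comm]
  exact h1

theorem step (hE : SpecERA) (hS : SpecSYM) (hC : SpecCHA) {n N : ℕ} {κ : ℝ}
    (hN : 2 ≤ N) (hκ : 0 ≤ κ) (hK : K n (N - 1) κ)
    (A : Finset (Fin n)) (hA : A.card = N) (f : Perm (Fin n) → ℝ) (hf : ∀ σ, 0 ≤ f σ) :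
    entS (SymA A) f ≤ κ * starS A f - κ / N * ∑ k ∈ A, Mk A f k k +
      1 / N * ∑ i ∈ A, entS A (marg A i f) := by
  have hN0 : (0 : ℝ) < (N : ℝ) := by exact_mod_cast (by omega : 0 < N)
  have h1 : (N : ℝ) * entS (SymA A) f ≤
      ∑ i ∈ A, (κ * (∑ k ∈ A.erase i, Mk A f k i) + entS A (marg A i f)) := by
    have h2 : (N : ℝ) * entS (SymA A) f = ∑ _i ∈ A, entS (SymA A) f := by
      rw [Finset.sum_const, hA, nsmul_eq_mul]
    rw [h2]
    refine Finset.sum_le_sum fun i hi => ?_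
    rw [hC n A i hi f]
    exact add_le_add (fibre hS hN hK A hA f hf i hi) le_rfl
  have h3 : ∑ i ∈ A, ∑ k ∈ A.erase i, Mk A f k i = ∑ k ∈ A, (∑ i ∈ A, Mk A f k i - Mk A f k k) := by
    rw [Finset.sum_comm' (s' := fun k => A.erase k) (t' := A)]
    · refine Finset.sum_congr rfl fun k hk => ?_
      rw [Finset.sum_erase_eq_sub hk]
    · intro x y
      simp only [Finset.mem_erase, ne_eq]
      constructor
      · rintro ⟨h4, h5, h6⟩
        exact ⟨⟨fun h => h5 h.symm, h4⟩, h6⟩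
      · rintro ⟨⟨h4, h5⟩, h6⟩
        exact ⟨h5, fun h => h4 h.symm, h6⟩
  have h4 : ∑ k ∈ A, (∑ i ∈ A, Mk A f k i - Mk A f k k) ≤
      (N : ℝ) * starS A f - ∑ k ∈ A, Mk A f k k := by
    rw [Finset.sum_sub_distrib]
    refine sub_le_sub_right ?_ _
    unfold starS
    rw [Finset.mul_sum]
    refine Finset.sum_le_sum fun k _ => ?_
    have h5 := removal hE hS A (by omega) f hf k
    rw [hA] at h5
    exact h5
  rw [Finset.sum_add_distrib, ← Finset.mul_sum, h3] at h1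
  have h5 := mul_le_mul_of_nonneg_left h4 hκ
  have h6 : (N : ℝ) * entS (SymA A) f ≤ κ * ((N : ℝ) * starS A f - ∑ k ∈ A, Mk A f k k) +
      ∑ i ∈ A, entS A (marg A i f) := by linarith
  have h7 : entS (SymA A) f ≤ (κ * ((N : ℝ) * starS A f - ∑ k ∈ A, Mk A f k k) +
      ∑ i ∈ A, entS A (marg A i f)) / N := by
    rw [le_div_iff₀ hN0, mul_comm]
    exact h6
  refine h7.trans (le_of_eq ?_)
  field_simp

theorem mk_nonneg (hJ : SpecJEN) {n : ℕ} (A : Finset (Fin n)) (hA : 2 ≤ A.card)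
    (f : Perm (Fin n) → ℝ) (hf : ∀ σ, 0 ≤ f σ) (k : Fin n) : 0 ≤ Mk A f k k := by
  unfold Mk
  refine div_nonneg (Finset.sum_nonneg fun π _ => ?_) (Nat.cast_nonneg _)
  refine hJ.1 (Fin n) (A.erase k) _ ?_ fun i _ => hf _
  rw [← Finset.card_pos]
  have := Finset.pred_card_le_card_erase (s := A) (a := k)
  omega

theorem crude (hJ : SpecJEN) (hE : SpecERA) (hS : SpecSYM) (hC : SpecCHA) (hM : SpecMAR)
    {n N : ℕ} {κ : ℝ} (hN : 2 ≤ N) (hκ : 0 ≤ κ) (hK : K n (N - 1) κ) : K n N (κ + 1 / N) := by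
  intro A hA f hf
  have hN0 : (0 : ℝ) < (N : ℝ) := by exact_mod_cast (by omega : 0 < N)
  have h1 := step hE hS hC hN hκ hK A hA f hf
  have h2 : ∑ i ∈ A, entS A (marg A i f) ≤ starS A f := by
    unfold starS
    exact Finset.sum_le_sum fun i hi => (hM n A i hi f hf).1
  have h3 : 0 ≤ ∑ k ∈ A, Mk A f k k :=
    Finset.sum_nonneg fun k _ => mk_nonneg hJ A (by omega) f hf k
  have h4 : 0 ≤ κ / N * ∑ k ∈ A, Mk A f k k := mul_nonneg (div_nonneg hκ hN0.le) h3
  have h5 : 1 / (N : ℝ) * ∑ i ∈ A, entS A (marg A i f) ≤ 1 / (N : ℝ) * starS A f :=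
    mul_le_mul_of_nonneg_left h2 (by positivity)
  rw [add_mul]
  linarith

theorem refined (hE : SpecERA) (hS : SpecSYM) (hC : SpecCHA) (hM : SpecMAR)
    {n N : ℕ} (hN : 4 ≤ N) (hK : K n (N - 1) (9 / 4)) : K n N (9 / 4) := by
  intro A hA f hf
  have hN0 : (0 : ℝ) < (N : ℝ) := by exact_mod_cast (by omega : 0 < N)
  have h1 := step hE hS hC (by omega) (by norm_num) hK A hA f hf
  have h2 : ∑ i ∈ A, entS A (marg A i f) ≤ 9 / 4 * ∑ k ∈ A, Mk A f k k := by
    rw [Finset.mul_sum]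
    exact Finset.sum_le_sum fun i hi => (hM n A i hi f hf).2 (by omega)
  have h5 : 1 / (N : ℝ) * ∑ i ∈ A, entS A (marg A i f) ≤
      1 / (N : ℝ) * (9 / 4 * ∑ k ∈ A, Mk A f k k) :=
    mul_le_mul_of_nonneg_left h2 (by positivity)
  have h6 : 1 / (N : ℝ) * (9 / 4 * ∑ k ∈ A, Mk A f k k) =
      9 / 4 / (N : ℝ) * ∑ k ∈ A, Mk A f k k := by ring
  linarith

end INDM

open INDM in
theorem specIND (hJ : SpecJEN) (hE : SpecERA) (hS : SpecSYM) (hC : SpecCHA) (hM : SpecMAR) :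
    SpecIND := by
  have hmono : ∀ (n N : ℕ) (κ κ' : ℝ), κ ≤ κ' → K n N κ → K n N κ' := by
    intro n N κ κ' h hK A hA f hf
    exact (hK A hA f hf).trans (mul_le_mul_of_nonneg_right h (star_nonneg hJ A f hf))
  have hall : ∀ n N : ℕ, 1 ≤ N → K n N (9 / 4) := by
    intro n N hN
    have h1 : K n 1 0 := base n
    have h2 : K n 2 (0 + 1 / (2 : ℕ)) := crude hJ hE hS hC hM le_rfl le_rfl h1
    have h3 : K n 3 (0 + 1 / (2 : ℕ) + 1 / (3 : ℕ)) :=
      crude hJ hE hS hC hM (by norm_num) (by norm_num) h2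
    induction N, hN using Nat.le_induction with
    | base => exact hmono n 1 0 _ (by norm_num) h1
    | succ N hN ih =>
      by_cases h4 : N + 1 = 2
      · rw [h4]
        exact hmono n 2 _ _ (by norm_num) h2
      by_cases h5 : N + 1 = 3
      · rw [h5]
        exact hmono n 3 _ _ (by norm_num) h3
      exact refined hE hS hC hM (by omega) ih
  intro n A hA f hf
  exact hall n A.card (Finset.card_pos.2 hA) A rfl f hf

end Pool.Agent.Lib.MP8c2010.NU
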