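import Pool.Agent.Lib.MP_8c2010_pr.NU.Spec

set_option autoImplicit false

/-! # LOW: the mixing times are at least of order n log n -/

namespace Pool.Agent.Lib.MP8c2010.NU

open Equiv Finset

namespace LOWM

variable {n : ℕ}

/-- expectation after `t` steps for the joint walk (permutation, set of used positions) -/
noncomputable def W (p : Fin n → Fin n → ℝ) :
    ℕ → (Perm (Fin n) → Finset (Fin n) → ℝ) → Perm (Fin n) → Finset (Fin n) → ℝ
  | 0, G => G
  | t + 1, G => fun σ T => ∑ i, ∑ j, p i j * W p t G (σ * swap i j) (insert i (insert j T))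

theorem W_succ (p : Fin n → Fin n → ℝ) (t : ℕ) (G : Perm (Fin n) → Finset (Fin n) → ℝ)
    (σ : Perm (Fin n)) (T : Finset (Fin n)) :
    W p (t + 1) G σ T = ∑ i, ∑ j, p i j * W p t G (σ * swap i j) (insert i (insert j T)) := rfl

theorem W_fst (p : Fin n → Fin n → ℝ) (g : Perm (Fin n) → ℝ) (t : ℕ) :
    ∀ (σ : Perm (Fin n)) (T : Finset (Fin n)),
      W p t (fun σ _ => g σ) σ T = (Pop p)^[t] g σ := by
  induction t with
  | zero => intro σ T; rfl
  | succ t ih =>
    intro σ T
    rw [W_succ, Function.iterate_succ_apply']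
    unfold Pop
    refine Finset.sum_congr rfl fun i _ => Finset.sum_congr rfl fun j _ => ?_
    rw [ih]
    rfl

theorem W_lin (p : Fin n → Fin n → ℝ) (G H : Perm (Fin n) → Finset (Fin n) → ℝ) (a b : ℝ)
    (t : ℕ) : ∀ (σ : Perm (Fin n)) (T : Finset (Fin n)),
      W p t (fun σ T => a * G σ T + b * H σ T) σ T = a * W p t G σ T + b * W p t H σ T := by
  induction t with
  | zero => intro σ T; rfl
  | succ t ih =>
    intro σ T
    rw [W_succ, W_succ, W_succ, Finset.mul_sum, Finset.mul_sum, ← Finset.sum_add_distrib]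
    refine Finset.sum_congr rfl fun i _ => ?_
    rw [Finset.mul_sum, Finset.mul_sum, ← Finset.sum_add_distrib]
    refine Finset.sum_congr rfl fun j _ => ?_
    rw [ih]
    ring

theorem W_sum (p : Fin n → Fin n → ℝ) {ι : Type} (s : Finset ι)
    (G : ι → Perm (Fin n) → Finset (Fin n) → ℝ) (t : ℕ) :
    ∀ (σ : Perm (Fin n)) (T : Finset (Fin n)),
      W p t (fun σ T => ∑ x ∈ s, G x σ T) σ T = ∑ x ∈ s, W p t (G x) σ T := by
  induction t with
  | zero => intro σ T; rfl
  | succ t ih =>
    intro σ T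
    rw [W_succ]
    have h : ∑ x ∈ s, W p (t + 1) (G x) σ T = ∑ x ∈ s, ∑ i, ∑ j, p i j *
        W p t (G x) (σ * swap i j) (insert i (insert j T)) := rfl
    rw [h]
    conv_rhs => rw [Finset.sum_comm]
    refine Finset.sum_congr rfl fun i _ => ?_
    conv_rhs => rw [Finset.sum_comm]
    refine Finset.sum_congr rfl fun j _ => ?_
    rw [ih, Finset.mul_sum]

/-- the invariant -/
def Inv (σ : Perm (Fin n)) (T : Finset (Fin n)) : Prop := ∀ x, x ∉ T → σ x = x

theorem Inv_step {σ : Perm (Fin n)} {T : Finset (Fin n)} (h : Inv σ T) (i j : Fin n) :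
    Inv (σ * swap i j) (insert i (insert j T)) := by
  intro x hx
  rw [Finset.mem_insert, Finset.mem_insert, not_or, not_or] at hx
  rw [Perm.mul_apply, swap_apply_of_ne_of_ne hx.1 hx.2.1]
  exact h x hx.2.2

theorem W_mono (p : Fin n → Fin n → ℝ) (hp : ∀ i j, 0 ≤ p i j)
    {G H : Perm (Fin n) → Finset (Fin n) → ℝ} (h : ∀ σ T, Inv σ T → G σ T ≤ H σ T) (t : ℕ) :
    ∀ (σ : Perm (Fin n)) (T : Finset (Fin n)), Inv σ T → W p t G σ T ≤ W p t H σ T := by
  induction t with
  | zero => exact h
  | succ t ih =>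
    intro σ T hT
    rw [W_succ, W_succ]
    refine Finset.sum_le_sum fun i _ => Finset.sum_le_sum fun j _ => ?_
    exact mul_le_mul_of_nonneg_left (ih _ _ (Inv_step hT i j)) (hp i j)

/-- indicator of `X ∩ T = ∅` -/
noncomputable def ind (X T : Finset (Fin n)) : ℝ := if Disjoint X T then 1 else 0

/-- probability that a step does not use a position in `X` -/
noncomputable def q (p : Fin n → Fin n → ℝ) (X : Finset (Fin n)) : ℝ :=
  ∑ i, ∑ j, p i j * (if i ∉ X ∧ j ∉ X then 1 else 0)

theorem ind_insert (X T : Finset (Fin n)) (i j : Fin n) :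
    ind X (insert i (insert j T)) = ind X T * (if i ∉ X ∧ j ∉ X then 1 else 0) := by
  unfold ind
  have h : Disjoint X (insert i (insert j T)) ↔ (i ∉ X ∧ j ∉ X) ∧ Disjoint X T := by
    rw [Finset.disjoint_insert_right, Finset.disjoint_insert_right, and_assoc]
  by_cases h1 : Disjoint X T
  · by_cases h2 : i ∉ X ∧ j ∉ X
    · rw [if_pos (h.2 ⟨h2, h1⟩), if_pos h1, if_pos h2, mul_one]
    · rw [if_neg (fun h3 => h2 (h.1 h3).1), if_pos h1, if_neg h2, mul_zero]
  · rw [if_neg (fun h3 => h1 (h.1 h3).2), if_neg h1, zero_mul]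

theorem W_ind (p : Fin n → Fin n → ℝ) (X : Finset (Fin n)) (t : ℕ) :
    ∀ (σ : Perm (Fin n)) (T : Finset (Fin n)),
      W p t (fun _ T => ind X T) σ T = ind X T * q p X ^ t := by
  induction t with
  | zero => intro σ T; simp [W]
  | succ t ih =>
    intro σ T
    rw [W_succ]
    have h : ∀ i j, p i j * W p t (fun _ T => ind X T) (σ * swap i j) (insert i (insert j T)) =
        (ind X T * q p X ^ t) * (p i j * (if i ∉ X ∧ j ∉ X then 1 else 0)) := by
      intro i j
      rw [ih, ind_insert]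
      ring
    simp_rw [h]
    simp_rw [← Finset.mul_sum]
    change ind X T * q p X ^ t * q p X = _
    rw [pow_succ]
    ring

theorem ind_empty_left (T : Finset (Fin n)) : ind ∅ T = 1 := by
  unfold ind
  rw [if_pos (Finset.disjoint_empty_left T)]

theorem ind_empty_right (X : Finset (Fin n)) : ind X ∅ = 1 := by
  unfold ind
  rw [if_pos (Finset.disjoint_empty_right X)]

theorem ind_single (x : Fin n) (T : Finset (Fin n)) : ind {x} T = if x ∉ T then 1 else 0 := by
  unfold ind
  simp only [Finset.disjoint_singleton_left]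

theorem ind_pair (x y : Fin n) (T : Finset (Fin n)) : ind {x, y} T = ind {x} T * ind {y} T := by
  rw [ind_single, ind_single]
  unfold ind
  simp only [Finset.disjoint_insert_left, Finset.disjoint_singleton_left]
  by_cases h1 : x ∉ T <;> by_cases h2 : y ∉ T <;> simp [h1, h2]

/-! ### the density -/

theorem EU_Pop_mul (p : Fin n → Fin n → ℝ) (f g : Perm (Fin n) → ℝ) :
    EU (fun σ => Pop p f σ * g σ) = EU (fun σ => f σ * Pop p g σ) := by
  unfold EU
  congr 1
  have h : ∀ i j : Fin n, ∑ σ : Perm (Fin n), f (σ * swap i j) * g σ =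
      ∑ σ : Perm (Fin n), f σ * g (σ * swap i j) := by
    intro i j
    have h1 := Equiv.sum_comp (Equiv.mulRight (swap i j)) (fun σ => f σ * g (σ * swap i j))
    rw [← h1]
    refine Finset.sum_congr rfl fun σ _ => ?_
    simp only [Equiv.coe_mulRight]
    rw [mul_assoc σ, swap_mul_self, mul_one]
  have hL : ∑ σ : Perm (Fin n), Pop p f σ * g σ =
      ∑ i, ∑ j, p i j * ∑ σ : Perm (Fin n), f (σ * swap i j) * g σ := by
    unfold Pop
    simp_rw [Finset.sum_mul, Finset.mul_sum]
    rw [Finset.sum_comm]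
    refine Finset.sum_congr rfl fun i _ => ?_
    rw [Finset.sum_comm]
    refine Finset.sum_congr rfl fun j _ => Finset.sum_congr rfl fun σ _ => ?_
    ring
  have hR : ∑ σ : Perm (Fin n), f σ * Pop p g σ =
      ∑ i, ∑ j, p i j * ∑ σ : Perm (Fin n), f σ * g (σ * swap i j) := by
    unfold Pop
    simp_rw [Finset.mul_sum]
    rw [Finset.sum_comm]
    refine Finset.sum_congr rfl fun i _ => ?_
    rw [Finset.sum_comm]
    refine Finset.sum_congr rfl fun j _ => Finset.sum_congr rfl fun σ _ => ?_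
    ring
  rw [hL, hR]
  refine Finset.sum_congr rfl fun i _ => Finset.sum_congr rfl fun j _ => ?_
  rw [h]

theorem EU_dens (p : Fin n → Fin n → ℝ) (t : ℕ) : ∀ g : Perm (Fin n) → ℝ,
    EU (fun σ => dens p t σ * g σ) = (Pop p)^[t] g 1 := by
  induction t with
  | zero =>
    intro g
    have hn : (n.factorial : ℝ) ≠ 0 := by exact_mod_cast n.factorial_ne_zero
    unfold EU
    have h : ∀ σ : Perm (Fin n), dens p 0 σ * g σ =
        if σ = 1 then (n.factorial : ℝ) * g 1 else 0 := by
      intro σ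
      change (if σ = 1 then (n.factorial : ℝ) else 0) * g σ = _
      by_cases hσ : σ = 1
      · rw [if_pos hσ, if_pos hσ, hσ]
      · rw [if_neg hσ, if_neg hσ, zero_mul]
    simp_rw [h]
    rw [Finset.sum_ite_eq' Finset.univ (1 : Perm (Fin n)), if_pos (Finset.mem_univ _)]
    rw [mul_div_assoc, mul_comm, div_mul_cancel₀]
    · rfl
    · exact hn
  | succ t ih =>
    intro g
    have h1 : EU (fun σ => dens p (t + 1) σ * g σ) = EU (fun σ => Pop p (dens p t) σ * g σ) := rfl
    rw [h1, EU_Pop_mul, ih (Pop p g), Function.iterate_succ_apply]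

theorem Pop_one (p : Fin n → Fin n → ℝ) (hp : ∑ i, ∑ j, p i j = 1) :
    Pop p (fun _ => 1) = fun _ => 1 := by
  funext σ
  unfold Pop
  simp_rw [mul_one]
  exact hp

theorem iter_one (p : Fin n → Fin n → ℝ) (hp : ∑ i, ∑ j, p i j = 1) (t : ℕ) :
    (Pop p)^[t] (fun _ => 1) = fun _ => 1 := by
  induction t with
  | zero => rfl
  | succ t ih => rw [Function.iterate_succ_apply', ih, Pop_one p hp]

/-- linearity of `EU` -/
theorem EU_lin (f g : Perm (Fin n) → ℝ) (a b : ℝ) :
    EU (fun σ => a * f σ + b * g σ) = a * EU f + b * EU g := by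
  unfold EU
  rw [Finset.sum_add_distrib, ← Finset.mul_sum, ← Finset.mul_sum]
  ring

theorem EU_mono {f g : Perm (Fin n) → ℝ} (h : ∀ σ, f σ ≤ g σ) : EU f ≤ EU g := by
  unfold EU
  exact div_le_div_of_nonneg_right (Finset.sum_le_sum fun σ _ => h σ) (by positivity)

theorem EU_one : EU (fun _ : Perm (Fin n) => (1 : ℝ)) = 1 := by
  unfold EU
  rw [Finset.sum_const, Finset.card_univ, Fintype.card_perm, Fintype.card_fin, nsmul_eq_mul,
    mul_one]
  exact div_self (by exact_mod_cast n.factorial_ne_zero)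

theorem tv_ge (p : Fin n → Fin n → ℝ) (hp : ∑ i, ∑ j, p i j = 1) (t : ℕ)
    (g : Perm (Fin n) → ℝ) (h0 : ∀ σ, 0 ≤ g σ) (h1 : ∀ σ, g σ ≤ 1) :
    (Pop p)^[t] g 1 - EU g ≤ tv p t := by
  have hd1 : EU (dens p t) = 1 := by
    have h := EU_dens p t (fun _ => 1)
    rw [iter_one p hp] at h
    simpa using h
  have hge : EU (fun σ => (dens p t σ - 1) * (2 * g σ - 1)) ≤ EU (fun σ => |dens p t σ - 1|) := by
    apply EU_mono
    intro σ
    calc (dens p t σ - 1) * (2 * g σ - 1) ≤ |(dens p t σ - 1) * (2 * g σ - 1)| := le_abs_self _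
      _ = |dens p t σ - 1| * |2 * g σ - 1| := abs_mul _ _
      _ ≤ |dens p t σ - 1| * 1 := by
        refine mul_le_mul_of_nonneg_left ?_ (abs_nonneg _)
        rw [abs_le]
        constructor <;> linarith [h0 σ, h1 σ]
      _ = |dens p t σ - 1| := mul_one _
  have hexp : EU (fun σ => (dens p t σ - 1) * (2 * g σ - 1)) =
      2 * ((Pop p)^[t] g 1 - EU g) := by
    have e1 : (fun σ => (dens p t σ - 1) * (2 * g σ - 1)) =
        fun σ => 1 * (2 * (dens p t σ * g σ) + (-2) * g σ) +
          1 * ((-1) * dens p t σ + 1 * (1 : ℝ)) := by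
      funext σ
      ring
    rw [e1, EU_lin (fun σ => 2 * (dens p t σ * g σ) + (-2) * g σ)
      (fun σ => (-1) * dens p t σ + 1 * (1 : ℝ)), EU_lin (fun σ => dens p t σ * g σ) g,
      EU_lin (dens p t) (fun _ => 1), EU_dens, hd1, EU_one]
    ring
  unfold tv
  rw [hexp] at hge
  linarith

/-! ### fixed points under the uniform law -/

/-- number of fixed points -/
noncomputable def fixN (σ : Perm (Fin n)) : ℝ := ∑ x : Fin n, if σ x = x then 1 else 0

theorem EU_fix (x : Fin n) : EU (fun σ : Perm (Fin n) => if σ x = x then (1 : ℝ) else 0) =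
    1 / n := by
  have hn : (n : ℝ) ≠ 0 := by
    have := x.pos
    exact_mod_cast this.ne'
  have h1 : ∀ v : Fin n, EU (fun σ : Perm (Fin n) => if σ x = v then (1 : ℝ) else 0) =
      EU (fun σ : Perm (Fin n) => if σ x = x then (1 : ℝ) else 0) := by
    intro v
    unfold EU
    congr 1
    have h2 := Equiv.sum_comp (Equiv.mulLeft (swap x v))
      (fun σ : Perm (Fin n) => if σ x = v then (1 : ℝ) else 0)
    rw [← h2]
    refine Finset.sum_congr rfl fun σ _ => ?_
    simp only [Equiv.coe_mulLeft, Perm.mul_apply]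
    have h3 : swap x v (σ x) = v ↔ σ x = x := by
      rw [Equiv.swap_apply_eq_iff, swap_apply_right]
    simp only [h3]
  have h2 : ∑ v : Fin n, EU (fun σ : Perm (Fin n) => if σ x = v then (1 : ℝ) else 0) = 1 := by
    unfold EU
    rw [← Finset.sum_div, Finset.sum_comm]
    have h3 : ∀ σ : Perm (Fin n), ∑ v : Fin n, (if σ x = v then (1 : ℝ) else 0) = 1 := by
      intro σ
      rw [Finset.sum_ite_eq Finset.univ (σ x), if_pos (Finset.mem_univ _)]
    simp_rw [h3]
    exact EU_one
  simp_rw [h1] at h2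
  rw [Finset.sum_const, Finset.card_univ, Fintype.card_fin, nsmul_eq_mul] at h2
  field_simp
  linarith

theorem EU_fixN (hn : 0 < n) : EU (fixN : Perm (Fin n) → ℝ) = 1 := by
  have h : EU (fixN : Perm (Fin n) → ℝ) =
      ∑ x : Fin n, EU (fun σ : Perm (Fin n) => if σ x = x then (1 : ℝ) else 0) := by
    unfold EU fixN
    rw [← Finset.sum_div, Finset.sum_comm]
  rw [h]
  simp_rw [EU_fix]
  rw [Finset.sum_const, Finset.card_univ, Fintype.card_fin, nsmul_eq_mul]
  have : (n : ℝ) ≠ 0 := by exact_mod_cast hn.ne'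
  field_simp

/-! ### the probabilities -/

theorem q_empty (p : Fin n → Fin n → ℝ) (hp : ∑ i, ∑ j, p i j = 1) : q p ∅ = 1 := by
  unfold q
  simpa using hp

theorem q_le_one (p : Fin n → Fin n → ℝ) (h0 : ∀ i j, 0 ≤ p i j) (hp : ∑ i, ∑ j, p i j = 1)
    (X : Finset (Fin n)) : q p X ≤ 1 := by
  rw [← hp]
  unfold q
  refine Finset.sum_le_sum fun i _ => Finset.sum_le_sum fun j _ => ?_
  split_ifs
  · rw [mul_one]
  · rw [mul_zero]
    exact h0 i j

theorem q_nonneg (p : Fin n → Fin n → ℝ) (h0 : ∀ i j, 0 ≤ p i j) (X : Finset (Fin n)) :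
    0 ≤ q p X := by
  unfold q
  refine Finset.sum_nonneg fun i _ => Finset.sum_nonneg fun j _ => mul_nonneg (h0 i j) ?_
  split_ifs <;> norm_num

theorem q_single (p : Fin n → Fin n → ℝ) (h0 : ∀ i j, 0 ≤ p i j) (hp : ∑ i, ∑ j, p i j = 1)
    {C : ℝ} (hC : ∀ i j, p i j ≤ C / (n : ℝ) ^ 2) (x : Fin n) : 1 - 2 * C / n ≤ q p {x} := by
  have hn : (0 : ℝ) < n := by
    have := x.pos
    exact_mod_cast this
  have h1 : ∀ i j, p i j ≤ p i j * (if i ∉ ({x} : Finset (Fin n)) ∧ j ∉ ({x} : Finset (Fin n))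
      then 1 else 0) + ((if i = x then p i j else 0) + (if j = x then p i j else 0)) := by
    intro i j
    simp only [Finset.mem_singleton]
    have := h0 i j
    by_cases h2 : i = x <;> by_cases h3 : j = x <;> simp [h2, h3] <;> exact h0 _ _
  have h2 : (1 : ℝ) ≤ q p {x} + (∑ j, p x j + ∑ i, p i x) := by
    rw [← hp]
    have h3 : ∑ i, ∑ j, p i j ≤ ∑ i, ∑ j, (p i j * (if i ∉ ({x} : Finset (Fin n)) ∧
        j ∉ ({x} : Finset (Fin n)) then 1 else 0) +
        ((if i = x then p i j else 0) + (if j = x then p i j else 0))) :=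
      Finset.sum_le_sum fun i _ => Finset.sum_le_sum fun j _ => h1 i j
    refine h3.trans (le_of_eq ?_)
    simp_rw [Finset.sum_add_distrib]
    congr 1
    congr 1
    · rw [Finset.sum_comm]
      refine Finset.sum_congr rfl fun j _ => ?_
      rw [Finset.sum_ite_eq' Finset.univ x, if_pos (Finset.mem_univ _)]
    · refine Finset.sum_congr rfl fun i _ => ?_
      rw [Finset.sum_ite_eq' Finset.univ x, if_pos (Finset.mem_univ _)]
  have h3 : ∑ j, p x j ≤ C / n := by
    calc ∑ j, p x j ≤ ∑ _j : Fin n, C / (n : ℝ) ^ 2 := Finset.sum_le_sum fun j _ => hC x j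
      _ = C / n := by
        rw [Finset.sum_const, Finset.card_univ, Fintype.card_fin, nsmul_eq_mul]
        field_simp
  have h4 : ∑ i, p i x ≤ C / n := by
    calc ∑ i, p i x ≤ ∑ _i : Fin n, C / (n : ℝ) ^ 2 := Finset.sum_le_sum fun i _ => hC i x
      _ = C / n := by
        rw [Finset.sum_const, Finset.card_univ, Fintype.card_fin, nsmul_eq_mul]
        field_simp
  have h5 : 2 * C / n = C / n + C / n := by ring
  rw [h5]
  linarith

theorem q_pair (p : Fin n → Fin n → ℝ) (h0 : ∀ i j, 0 ≤ p i j) (hp : ∑ i, ∑ j, p i j = 1)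
    {C : ℝ} (hC : ∀ i j, p i j ≤ C / (n : ℝ) ^ 2) {x y : Fin n} (hxy : x ≠ y) :
    q p {x, y} ≤ q p {x} * q p {y} + 2 * C / (n : ℝ) ^ 2 := by
  have h1 : ∀ i j, p i j * (if i ∉ ({x, y} : Finset (Fin n)) ∧ j ∉ ({x, y} : Finset (Fin n))
      then 1 else 0) + p i j ≤
      p i j * (if i ∉ ({x} : Finset (Fin n)) ∧ j ∉ ({x} : Finset (Fin n)) then 1 else 0) +
      p i j * (if i ∉ ({y} : Finset (Fin n)) ∧ j ∉ ({y} : Finset (Fin n)) then 1 else 0) +
      ((if i = x then (if j = y then p i j else 0) else 0) +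
        (if i = y then (if j = x then p i j else 0) else 0)) := by
    intro i j
    simp only [Finset.mem_singleton, Finset.mem_insert, not_or]
    have hp0 := h0 i j
    by_cases a1 : i = x
    · subst a1
      by_cases a3 : j = i
      · subst a3
        simp [hxy]
      · by_cases a4 : j = y
        · subst a4
          simp [hxy, hxy.symm]
        · simp [hxy, a3, a4]
    · by_cases a2 : i = y
      · subst a2
        by_cases a3 : j = x
        · subst a3
          simp [hxy, hxy.symm]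
        · by_cases a4 : j = i
          · subst a4
            simp [hxy, hxy.symm]
          · simp [hxy, hxy.symm, a3, a4]
      · by_cases a3 : j = x
        · subst a3
          simp [a1, a2, hxy]
        · by_cases a4 : j = y
          · subst a4
            simp [a1, a2, hxy.symm]
          · simp [a1, a2, a3, a4]
  have h2 : q p {x, y} + 1 ≤ q p {x} + q p {y} + (p x y + p y x) := by
    have h3 : ∑ i, ∑ j, (p i j * (if i ∉ ({x, y} : Finset (Fin n)) ∧
        j ∉ ({x, y} : Finset (Fin n)) then 1 else 0) + p i j) ≤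
        ∑ i, ∑ j, (p i j * (if i ∉ ({x} : Finset (Fin n)) ∧ j ∉ ({x} : Finset (Fin n))
          then 1 else 0) +
        p i j * (if i ∉ ({y} : Finset (Fin n)) ∧ j ∉ ({y} : Finset (Fin n)) then 1 else 0) +
        ((if i = x then (if j = y then p i j else 0) else 0) +
          (if i = y then (if j = x then p i j else 0) else 0))) :=
      Finset.sum_le_sum fun i _ => Finset.sum_le_sum fun j _ => h1 i j
    simp_rw [Finset.sum_add_distrib] at h3
    have e1 : ∑ i, ∑ j, (if i = x then (if j = y then p i j else 0) else 0) = p x y := by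
      rw [Finset.sum_eq_single x, Finset.sum_eq_single y]
      · simp
      · intro b _ hb
        simp [hb]
      · intro hb
        exact absurd (Finset.mem_univ _) hb
      · intro b _ hb
        simp [hb]
      · intro hb
        exact absurd (Finset.mem_univ _) hb
    have e2 : ∑ i, ∑ j, (if i = y then (if j = x then p i j else 0) else 0) = p y x := by
      rw [Finset.sum_eq_single y, Finset.sum_eq_single x]
      · simp
      · intro b _ hb
        simp [hb]
      · intro hb
        exact absurd (Finset.mem_univ _) hb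
      · intro b _ hb
        simp [hb]
      · intro hb
        exact absurd (Finset.mem_univ _) hb
    rw [e1, e2, hp] at h3
    exact h3
  have h3 := q_le_one p h0 hp {x}
  have h4 := q_le_one p h0 hp {y}
  have h5 : p x y + p y x ≤ 2 * C / (n : ℝ) ^ 2 := by
    have := hC x y
    have := hC y x
    have h6 : 2 * C / (n : ℝ) ^ 2 = C / (n : ℝ) ^ 2 + C / (n : ℝ) ^ 2 := by ring
    rw [h6]
    linarith
  nlinarith [mul_nonneg (sub_nonneg.2 h3) (sub_nonneg.2 h4)]

/-- the expected number of unused positions -/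
noncomputable def mm (p : Fin n → Fin n → ℝ) (t : ℕ) : ℝ := ∑ x : Fin n, q p {x} ^ t

/-- the sum for the second moment -/
noncomputable def m2 (p : Fin n → Fin n → ℝ) (t : ℕ) : ℝ :=
  ∑ x : Fin n, ∑ y : Fin n, q p {x, y} ^ t

/-- the second moment method -/
theorem second_moment (p : Fin n → Fin n → ℝ) (h0 : ∀ i j, 0 ≤ p i j)
    (hp : ∑ i, ∑ j, p i j = 1) (t : ℕ) (a : ℝ) (ha : a < mm p t) :
    1 - (m2 p t - mm p t ^ 2) / (mm p t - a) ^ 2 ≤
      (Pop p)^[t] (fun σ => if a ≤ fixN σ then 1 else 0) 1 := by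
  set m := mm p t with hm
  set K := ((m - a) ^ 2)⁻¹ with hK
  have hma : 0 < m - a := sub_pos.2 ha
  have hKpos : 0 < K := by positivity
  have hInv : Inv (1 : Perm (Fin n)) ∅ := fun x _ => rfl
  have key : ∀ (σ : Perm (Fin n)) (T : Finset (Fin n)), Inv σ T →
      (1 - K * m ^ 2) * ind ∅ T + 1 * ((2 * m * K) * (∑ x, ind {x} T) +
        (-K) * (∑ x, ∑ y, ind {x, y} T)) ≤ (if a ≤ fixN σ then 1 else 0) := by
    intro σ T hT
    have e1 : ∑ x, ∑ y, ind ({x, y} : Finset (Fin n)) T = (∑ x, ind ({x} : Finset (Fin n)) T) ^ 2 := by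
      simp_rw [ind_pair]
      rw [pow_two, Finset.sum_mul_sum]
    rw [e1, ind_empty_left]
    set N := ∑ x, ind ({x} : Finset (Fin n)) T with hN
    have e2 : (1 - K * m ^ 2) * 1 + 1 * ((2 * m * K) * N + (-K) * N ^ 2) =
        1 - K * (N - m) ^ 2 := by ring
    rw [e2]
    by_cases h : a ≤ fixN σ
    · rw [if_pos h]
      have : 0 ≤ K * (N - m) ^ 2 := by positivity
      linarith
    · rw [if_neg h]
      have h1 : N ≤ fixN σ := by
        rw [hN]
        unfold fixN
        refine Finset.sum_le_sum fun x _ => ?_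
        rw [ind_single]
        by_cases hx : x ∉ T
        · rw [if_pos hx, if_pos (hT x hx)]
        · rw [if_neg hx]
          split_ifs <;> norm_num
      have h2 : (m - a) ^ 2 ≤ (N - m) ^ 2 := by
        have h3 : N < a := lt_of_le_of_lt h1 (not_le.1 h)
        nlinarith
      have h3 : 1 ≤ K * (N - m) ^ 2 := by
        rw [hK]
        have h4 : (0 : ℝ) < (m - a) ^ 2 := by positivity
        calc (1 : ℝ) = ((m - a) ^ 2)⁻¹ * (m - a) ^ 2 := (inv_mul_cancel₀ h4.ne').symm
          _ ≤ ((m - a) ^ 2)⁻¹ * (N - m) ^ 2 := mul_le_mul_of_nonneg_left h2 (by positivity)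
      linarith
  have h1 := W_mono p h0 key t 1 ∅ hInv
  rw [W_fst p (fun σ => if a ≤ fixN σ then (1 : ℝ) else 0) t] at h1
  rw [W_lin p (fun _ T => ind ∅ T) (fun _ T => (2 * m * K) * (∑ x, ind {x} T) +
      (-K) * (∑ x, ∑ y, ind {x, y} T)) (1 - K * m ^ 2) 1 t,
    W_lin p (fun _ T => ∑ x, ind {x} T) (fun _ T => ∑ x, ∑ y, ind {x, y} T) (2 * m * K) (-K) t,
    W_ind, W_sum p Finset.univ (fun x _ T => ind {x} T) t,
    W_sum p Finset.univ (fun x _ T => ∑ y, ind {x, y} T) t] at h1
  have e3 : ∀ x : Fin n, W p t (fun _ T => ∑ y, ind {x, y} T) 1 ∅ = ∑ y, q p {x, y} ^ t := by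
    intro x
    rw [W_sum p Finset.univ (fun y _ T => ind {x, y} T) t]
    refine Finset.sum_congr rfl fun y _ => ?_
    rw [W_ind, ind_empty_right, one_mul]
  have e4 : ∀ x : Fin n, W p t (fun _ T => ind {x} T) 1 ∅ = q p {x} ^ t := by
    intro x
    rw [W_ind, ind_empty_right, one_mul]
  simp_rw [e3, e4] at h1
  rw [ind_empty_right, q_empty p hp, one_pow, one_mul, mul_one, one_mul] at h1
  refine le_trans (le_of_eq ?_) h1
  change 1 - (m2 p t - m ^ 2) / (m - a) ^ 2 =
    1 - K * m ^ 2 + (2 * m * K * m + -K * m2 p t)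
  rw [div_eq_mul_inv, ← hK]
  ring

end LOWM

open LOWM

theorem specLOW : SpecLOW := by
  intro C ε hC hε
  refine ⟨1 / (8 * C), by positivity, ⌈4 * C⌉₊ + ⌈(23 / ε) ^ 2⌉₊ + 2, ?_⟩
  intro n c p hn hc hu t ht
  have hn1 : (4 * C : ℝ) ≤ n := by
    have h1 : (⌈4 * C⌉₊ : ℝ) ≤ n := by exact_mod_cast (by omega : ⌈4 * C⌉₊ ≤ n)
    exact (Nat.le_ceil _).trans h1
  have hn2 : (23 / ε) ^ 2 ≤ (n : ℝ) := by
    have h1 : (⌈(23 / ε) ^ 2⌉₊ : ℝ) ≤ n := by exact_mod_cast (by omega : ⌈(23 / ε) ^ 2⌉₊ ≤ n)
    exact (Nat.le_ceil _).trans h1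
  have hnpos : 0 < n := by omega
  have hnR : (1 : ℝ) ≤ n := by exact_mod_cast hnpos
  have hn0 : (0 : ℝ) < n := by linarith
  have hs : 0 < Real.sqrt n := Real.sqrt_pos.2 hn0
  have hss : Real.sqrt n * Real.sqrt n = n := Real.mul_self_sqrt hn0.le
  have h0 : ∀ i j, 0 ≤ p i j := fun i j => le_trans (by positivity) (hu.lower i j)
  have hp := hu.total
  have hlog : 0 ≤ Real.log n := Real.log_nonneg hnR
  -- the probability of not using a position
  set v := 2 * C / (n : ℝ) with hv
  have hv0 : 0 ≤ v := by positivity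
  have hv1 : v ≤ 1 / 2 := by
    rw [hv, div_le_iff₀ hn0]
    linarith
  have hexpv : Real.exp (-(2 * v)) ≤ 1 - v := by
    have h1 : 1 + 2 * v ≤ Real.exp (2 * v) := by
      have := Real.add_one_le_exp (2 * v)
      linarith
    have h2 : 0 < Real.exp (2 * v) := Real.exp_pos _
    rw [Real.exp_neg, inv_le_comm₀ h2 (by linarith), inv_eq_one_div, div_le_iff₀ (by linarith)]
    nlinarith
  have hq1 : ∀ x : Fin n, Real.exp (-(2 * v)) ≤ q p {x} := fun x =>
    hexpv.trans (q_single p h0 hp hu.upper x)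
  have hqt : ∀ x : Fin n, (Real.sqrt n)⁻¹ ≤ q p {x} ^ t := by
    intro x
    have h1 : Real.exp (-(2 * v)) ^ t ≤ q p {x} ^ t :=
      pow_le_pow_left₀ (Real.exp_pos _).le (hq1 x) t
    refine le_trans ?_ h1
    rw [← Real.exp_nat_mul]
    have h2 : (Real.sqrt n)⁻¹ = Real.exp (-(Real.log n / 2)) := by
      rw [Real.exp_neg, Real.sqrt_eq_rpow, Real.rpow_def_of_pos hn0]
      congr 2
      ring
    rw [h2]
    apply Real.exp_le_exp.2
    have h3 : (t : ℝ) * (2 * v) ≤ Real.log n / 2 := by
      calc (t : ℝ) * (2 * v) ≤ (1 / (8 * C) * n * Real.log n) * (2 * v) :=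
            mul_le_mul_of_nonneg_right ht (by positivity)
        _ = Real.log n / 2 := by
            rw [hv]
            field_simp
            ring
    linarith
  have hqhalf : ∀ x : Fin n, 1 / 2 ≤ q p {x} := fun x => by
    have h1 := q_single p h0 hp hu.upper x
    rw [← hv] at h1
    linarith
  -- the mean
  have hm : Real.sqrt n ≤ mm p t := by
    unfold mm
    calc Real.sqrt n = ∑ _x : Fin n, (Real.sqrt n)⁻¹ := by
          rw [Finset.sum_const, Finset.card_univ, Fintype.card_fin, nsmul_eq_mul,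
            ← div_eq_mul_inv, eq_div_iff hs.ne', hss]
      _ ≤ ∑ x : Fin n, q p {x} ^ t := Finset.sum_le_sum fun x _ => hqt x
  have hmpos : 0 < mm p t := hs.trans_le hm
  -- the second moment
  set u := Real.log n / n with hu'
  have hu0 : 0 ≤ u := by positivity
  have hu1 : u ≤ 1 := by
    rw [hu', div_le_one hn0]
    exact (Real.log_le_sub_one_of_pos hn0).trans (by linarith)
  have hpair : ∀ x y : Fin n, q p {x, y} ^ t ≤
      (if x = y then q p {x} ^ t else 0) + Real.exp u * (q p {x} ^ t * q p {y} ^ t) := by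
    intro x y
    have hx0 := q_nonneg p h0 {x}
    have hy0 := q_nonneg p h0 {y}
    by_cases hxy : x = y
    · subst hxy
      rw [if_pos rfl]
      have h1 : ({x, x} : Finset (Fin n)) = {x} := Finset.pair_eq_singleton x
      rw [h1]
      have : 0 ≤ Real.exp u * (q p {x} ^ t * q p {x} ^ t) := by positivity
      linarith
    · rw [if_neg hxy, zero_add]
      have h1 := q_pair p h0 hp hu.upper hxy
      have h2 : q p {x, y} ≤ (q p {x} * q p {y}) * (1 + 8 * C / (n : ℝ) ^ 2) := by
        have h3 : 1 / 4 ≤ q p {x} * q p {y} := by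
          nlinarith [hqhalf x, hqhalf y]
        have h4 : 0 ≤ 8 * C / (n : ℝ) ^ 2 := by positivity
        have h5 : 2 * C / (n : ℝ) ^ 2 = 1 / 4 * (8 * C / (n : ℝ) ^ 2) := by ring
        rw [h5] at h1
        nlinarith
      have h3 : q p {x, y} ^ t ≤ ((q p {x} * q p {y}) * (1 + 8 * C / (n : ℝ) ^ 2)) ^ t :=
        pow_le_pow_left₀ (q_nonneg p h0 _) h2 t
      refine h3.trans ?_
      rw [mul_pow, mul_pow, mul_comm]
      refine mul_le_mul_of_nonneg_right ?_ (by positivity)
      have h4 : 1 + 8 * C / (n : ℝ) ^ 2 ≤ Real.exp (8 * C / (n : ℝ) ^ 2) := by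
        have := Real.add_one_le_exp (8 * C / (n : ℝ) ^ 2)
        linarith
      refine (pow_le_pow_left₀ (by positivity) h4 t).trans ?_
      rw [← Real.exp_nat_mul]
      apply Real.exp_le_exp.2
      calc (t : ℝ) * (8 * C / (n : ℝ) ^ 2) ≤
            (1 / (8 * C) * n * Real.log n) * (8 * C / (n : ℝ) ^ 2) :=
            mul_le_mul_of_nonneg_right ht (by positivity)
        _ = u := by
            rw [hu']
            field_simp
  have hm2 : m2 p t ≤ mm p t + Real.exp u * mm p t ^ 2 := by
    unfold m2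
    calc ∑ x, ∑ y, q p {x, y} ^ t ≤ ∑ x : Fin n, ∑ y : Fin n,
          ((if x = y then q p {x} ^ t else 0) + Real.exp u * (q p {x} ^ t * q p {y} ^ t)) :=
          Finset.sum_le_sum fun x _ => Finset.sum_le_sum fun y _ => hpair x y
      _ = mm p t + Real.exp u * mm p t ^ 2 := by
          simp_rw [Finset.sum_add_distrib]
          congr 1
          · unfold mm
            refine Finset.sum_congr rfl fun x _ => ?_
            rw [Finset.sum_ite_eq Finset.univ x, if_pos (Finset.mem_univ _)]
          · unfold mm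
            rw [pow_two, Finset.sum_mul_sum, Finset.mul_sum]
            refine Finset.sum_congr rfl fun x _ => ?_
            rw [Finset.mul_sum]
  set a := Real.sqrt n / 2 with ha
  have ham : a < mm p t := by
    rw [ha]
    linarith
  have hsm := second_moment p h0 hp t a ham
  have hvar : (m2 p t - mm p t ^ 2) / (mm p t - a) ^ 2 ≤ 4 / Real.sqrt n + 8 * u := by
    have h1 : mm p t ^ 2 / 4 ≤ (mm p t - a) ^ 2 := by
      have h2 : mm p t / 2 ≤ mm p t - a := by
        rw [ha]
        linarith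
      nlinarith
    have h2 : Real.exp u - 1 ≤ 2 * u := by
      have h3 := Real.abs_exp_sub_one_le (x := u) (by rwa [abs_of_nonneg hu0])
      rw [abs_of_nonneg hu0] at h3
      exact (le_abs_self _).trans h3
    have h3 : m2 p t - mm p t ^ 2 ≤ mm p t + 2 * u * mm p t ^ 2 := by
      nlinarith [sq_nonneg (mm p t)]
    have h4 : 0 < mm p t ^ 2 / 4 := by positivity
    have h5 : 0 ≤ mm p t + 2 * u * mm p t ^ 2 := by positivity
    calc (m2 p t - mm p t ^ 2) / (mm p t - a) ^ 2
        ≤ (mm p t + 2 * u * mm p t ^ 2) / (mm p t - a) ^ 2 :=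
          div_le_div_of_nonneg_right h3 (by positivity)
      _ ≤ (mm p t + 2 * u * mm p t ^ 2) / (mm p t ^ 2 / 4) :=
          div_le_div_of_nonneg_left h5 h4 h1
      _ = 4 / mm p t + 8 * u := by
          field_simp
          ring
      _ ≤ 4 / Real.sqrt n + 8 * u := by
          have := div_le_div_of_nonneg_left (by norm_num : (0 : ℝ) ≤ 4) hs hm
          linarith
  -- the uniform law
  have hunif : EU (fun σ : Perm (Fin n) => if a ≤ fixN σ then (1 : ℝ) else 0) ≤
      2 / Real.sqrt n := by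
    have h1 : EU (fun σ : Perm (Fin n) => if a ≤ fixN σ then (1 : ℝ) else 0) ≤
        EU (fun σ : Perm (Fin n) => (1 / a) * fixN σ + 0 * (1 : ℝ)) := by
      apply EU_mono
      intro σ
      have hapos : 0 < a := by positivity
      have hf0 : 0 ≤ fixN σ := by
        unfold fixN
        exact Finset.sum_nonneg fun x _ => by split_ifs <;> norm_num
      split_ifs with h
      · rw [zero_mul, add_zero, one_div, ← div_eq_inv_mul, one_le_div hapos]
        exact h
      · positivity
    rw [EU_lin fixN (fun _ => 1), EU_fixN hnpos] at h1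
    refine h1.trans (le_of_eq ?_)
    rw [ha]
    field_simp
    ring
  have htv := tv_ge p hp t (fun σ => if a ≤ fixN σ then (1 : ℝ) else 0)
    (fun σ => by split_ifs <;> norm_num) (fun σ => by split_ifs <;> norm_num)
  -- numbers
  have hu2 : 8 * u ≤ 16 / Real.sqrt n := by
    have h1 : Real.log n ≤ 2 * Real.sqrt n := by
      have h2 : Real.log n = 2 * Real.log (Real.sqrt n) := by
        rw [Real.log_sqrt hn0.le]
        ring
      rw [h2]
      have := Real.log_le_sub_one_of_pos hs
      linarith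
    rw [hu', le_div_iff₀ hs]
    calc 8 * (Real.log n / n) * Real.sqrt n = 8 * Real.log n * (Real.sqrt n / n) := by ring
      _ ≤ 8 * (2 * Real.sqrt n) * (Real.sqrt n / n) := by
          refine mul_le_mul_of_nonneg_right ?_ (by positivity)
          linarith
      _ = 16 * (Real.sqrt n * Real.sqrt n) / n := by ring
      _ = 16 := by
          rw [hss]
          field_simp
  have hfin : 22 / Real.sqrt n < ε := by
    rw [div_lt_iff₀ hs]
    have h1 : 23 / ε ≤ Real.sqrt n := by
      rw [← Real.sqrt_sq (by positivity : (0 : ℝ) ≤ 23 / ε)]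
      exact Real.sqrt_le_sqrt hn2
    rw [div_le_iff₀ hε] at h1
    linarith
  have h6 : 4 / Real.sqrt n + 16 / Real.sqrt n + 2 / Real.sqrt n = 22 / Real.sqrt n := by ring
  linarith

end Pool.Agent.Lib.MP8c2010.NU
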