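import Pool.Agent.Lib.MP_8c2010_pr.NU.Spec

set_option autoImplicit false

/-! # Module MAR: bounds for the entropy of the marginal -/

namespace Pool.Agent.Lib.MP8c2010.NU

open Equiv Finset

namespace MARM

theorem entS_congr {ι : Type} (s : Finset ι) (a b : ι → ℝ) (h : ∀ i ∈ s, a i = b i) :
    entS s a = entS s b := by
  unfold entS
  rw [Finset.sum_congr rfl (fun i hi => by rw [h i hi]),
    Finset.sum_congr rfl h]

theorem entS_reindex {n : ℕ} (S T : Finset (Fin n)) (π : Perm (Fin n))
    (h : S.image (fun x => π x) = T) (a : Fin n → ℝ) :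
    entS T a = entS S (fun j => a (π j)) := by
  have hinj : Set.InjOn (fun x => π x) (S : Set (Fin n)) := fun x _ y _ hxy => π.injective hxy
  unfold entS
  rw [← h, Finset.sum_image hinj, Finset.sum_image hinj, Finset.card_image_of_injOn hinj]

theorem marg_nonneg {n : ℕ} (A : Finset (Fin n)) (i : Fin n) (f : Perm (Fin n) → ℝ)
    (hf : ∀ σ, 0 ≤ f σ) (v : Fin n) : 0 ≤ marg A i f v := by
  unfold marg
  exact div_nonneg (Finset.sum_nonneg fun π _ => hf _) (Nat.cast_nonneg _)

theorem fix_of_mem {n : ℕ} (A : Finset (Fin n)) (i : Fin n) (π : Perm (Fin n))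
    (hπ : π ∈ SymA (A.erase i)) : π i = i := by
  unfold SymA at hπ
  exact (Finset.mem_filter.mp hπ).2 i (Finset.notMem_erase i A)

theorem mem_big {n : ℕ} (A : Finset (Fin n)) (i v : Fin n) (hi : i ∈ A) (hv : v ∈ A)
    (π : Perm (Fin n)) (hπ : π ∈ SymA (A.erase i)) : swap i v * π ∈ SymA A := by
  unfold SymA at hπ ⊢
  rw [Finset.mem_filter] at hπ ⊢
  refine ⟨Finset.mem_univ _, fun x hx => ?_⟩
  have h1 : π x = x := hπ.2 x (fun h => hx (Finset.mem_of_mem_erase h))
  rw [Perm.mul_apply, h1]
  exact swap_apply_of_ne_of_ne (fun h => hx (h ▸ hi)) (fun h => hx (h ▸ hv))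

theorem image_erase {n : ℕ} (A : Finset (Fin n)) (i v0 : Fin n) (π : Perm (Fin n))
    (hA : A.image (fun x => π x) = A) (hv : π i = v0) :
    (A.erase i).image (fun x => π x) = A.erase v0 := by
  ext y
  simp only [Finset.mem_image, Finset.mem_erase]
  constructor
  · rintro ⟨x, ⟨hxi, hxA⟩, rfl⟩
    refine ⟨fun h => hxi (π.injective (h.trans hv.symm)), ?_⟩
    rw [← hA]
    exact Finset.mem_image_of_mem _ hxA
  · rintro ⟨hy, hyA⟩
    rw [← hA] at hyA
    obtain ⟨x, hxA, rfl⟩ := Finset.mem_image.mp hyA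
    exact ⟨x, ⟨fun h => hy (by rw [h, hv]), hxA⟩, rfl⟩

end MARM

open MARM

theorem specMAR (hJEN : SpecJEN) (hERA : SpecERA) (hSYM : SpecSYM) : SpecMAR := by
  obtain ⟨S1, S2, S3, S4, S5, -, S7⟩ := hSYM
  intro n A i hi f hf
  have hcA : (0 : ℝ) < (A.card : ℝ) := by
    exact_mod_cast Finset.card_pos.mpr ⟨i, hi⟩
  have hcS : (0 : ℝ) < ((SymA A).card : ℝ) := by
    exact_mod_cast Finset.card_pos.mpr ⟨1, S7 n A⟩
  have hcS' : (0 : ℝ) < ((SymA (A.erase i)).card : ℝ) := by
    exact_mod_cast Finset.card_pos.mpr ⟨1, S7 n (A.erase i)⟩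
  have hcard : ((SymA A).card : ℝ) = (A.card : ℝ) * ((SymA (A.erase i)).card : ℝ) := by
    rw [S2 n A i hi]; push_cast; ring
  constructor
  · -- (1)
    have key := hJEN.2 (Fin n) (Perm (Fin n)) A (SymA A)
      (fun π v => f (π * swap i (π⁻¹ v))) ⟨i, hi⟩ ⟨1, S7 n A⟩ (fun _ _ _ _ => hf _)
    have e1 : entS A (fun v => (∑ π ∈ SymA A, f (π * swap i (π⁻¹ v))) / ((SymA A).card : ℝ)) =
        entS A (marg A i f) := by
      apply entS_congr
      intro v hv
      rw [S3 n A i v hi hv f, hcard]
      unfold marg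
      field_simp
    rw [e1] at key
    refine le_trans key (le_of_eq ?_)
    congr 1
    refine Finset.sum_congr rfl fun π hπ => ?_
    rw [entS_reindex A A π (S5 n A π hπ).1]
    apply entS_congr
    intro j _
    simp
  · intro h4
    have hERA2 := (hERA (Fin n) A (marg A i f) (fun v _ => marg_nonneg A i f hf v)).2 h4
    refine le_trans hERA2 ?_
    refine mul_le_mul_of_nonneg_left ?_ (by norm_num)
    have hv0 : ∀ v0 ∈ A, entS (A.erase v0) (marg A i f) ≤
        (∑ π ∈ SymA (A.erase i),
          entS (A.erase i) (fun j => f ((swap i v0 * π) * swap i j))) /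
          ((SymA (A.erase i)).card : ℝ) := by
      intro v0 hv0
      have hne : (A.erase v0).Nonempty := by
        rw [← Finset.card_pos, Finset.card_erase_of_mem hv0]; omega
      have key := hJEN.2 (Fin n) (Perm (Fin n)) (A.erase v0) (SymA (A.erase i))
        (fun π v => f ((swap i v0 * π) * swap i ((swap i v0 * π)⁻¹ v))) hne
        ⟨1, S7 n (A.erase i)⟩ (fun _ _ _ _ => hf _)
      have e1 : entS (A.erase v0) (fun v => (∑ π ∈ SymA (A.erase i),
          f ((swap i v0 * π) * swap i ((swap i v0 * π)⁻¹ v))) /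
            ((SymA (A.erase i)).card : ℝ)) = entS (A.erase v0) (marg A i f) := by
        apply entS_congr
        intro v hv
        rw [S4 n A i v0 v hi hv0 (Finset.mem_of_mem_erase hv) (Finset.ne_of_mem_erase hv) f]
        rfl
      rw [e1] at key
      refine le_trans key (le_of_eq ?_)
      congr 1
      refine Finset.sum_congr rfl fun π hπ => ?_
      have hbig := mem_big A i v0 hi hv0 π hπ
      have hval : (swap i v0 * π) i = v0 := by
        rw [Perm.mul_apply, fix_of_mem A i π hπ, swap_apply_left]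
      rw [entS_reindex (A.erase i) (A.erase v0) (swap i v0 * π)
        (image_erase A i v0 _ (S5 n A _ hbig).1 hval)]
      apply entS_congr
      intro j _
      have hinv : (swap i v0 * π)⁻¹ ((swap i v0 * π) j) = j := by
        rw [← Perm.mul_apply, inv_mul_cancel, Perm.one_apply]
      rw [hinv]
    have hsum := Finset.sum_le_sum hv0
    rw [S1 n A i hi (fun π => entS (A.erase i) (fun j => f (π * swap i j))), hcard]
    rw [← Finset.sum_div] at hsum
    rw [div_le_div_iff₀ hcA (mul_pos hcA hcS')]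
    rw [le_div_iff₀ hcS'] at hsum
    nlinarith [mul_le_mul_of_nonneg_left hsum hcA.le]

end Pool.Agent.Lib.MP8c2010.NU
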