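import Pool.Agent.Lib.MP_8c2010_pr.NU.Spec

/-! # Module MON: the total variation distance is nonincreasing -/

set_option autoImplicit false

namespace Pool.Agent.Lib.MP8c2010.NU

open Equiv Finset

namespace MONM

lemma fact_pos (n : ℕ) : (0 : ℝ) < (n.factorial : ℝ) := by exact_mod_cast n.factorial_pos

lemma EU_mono {n : ℕ} {f g : Perm (Fin n) → ℝ} (h : ∀ σ, f σ ≤ g σ) : EU f ≤ EU g := by
  unfold EU
  exact div_le_div_of_nonneg_right (Finset.sum_le_sum fun σ _ => h σ) (fact_pos n).le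

lemma EU_nonneg {n : ℕ} {f : Perm (Fin n) → ℝ} (h : ∀ σ, 0 ≤ f σ) : 0 ≤ EU f := by
  unfold EU
  exact div_nonneg (Finset.sum_nonneg fun σ _ => h σ) (fact_pos n).le

lemma EU_add {n : ℕ} (f g : Perm (Fin n) → ℝ) : EU (fun σ => f σ + g σ) = EU f + EU g := by
  unfold EU
  rw [Finset.sum_add_distrib, add_div]

lemma EU_one {n : ℕ} : EU (fun _ : Perm (Fin n) => (1 : ℝ)) = 1 := by
  unfold EU
  rw [Finset.sum_const, Finset.card_univ, Fintype.card_perm, Fintype.card_fin, nsmul_eq_mul,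
    mul_one, div_self (fact_pos n).ne']

lemma Pop_sub_one {n : ℕ} {c C : ℝ} {p : Fin n → Fin n → ℝ} (hp : NearlyUniform c C p)
    (hc : 0 < c) (f : Perm (Fin n) → ℝ) (σ : Perm (Fin n)) :
    |Pop p f σ - 1| ≤ Pop p (fun τ => |f τ - 1|) σ := by
  have h1 : Pop p f σ - 1 = ∑ i, ∑ j, p i j * (f (σ * swap i j) - 1) := by
    unfold Pop
    conv_lhs => rw [← hp.total]
    rw [← Finset.sum_sub_distrib]
    refine Finset.sum_congr rfl fun i _ => ?_
    rw [← Finset.sum_sub_distrib]
    refine Finset.sum_congr rfl fun j _ => ?_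
    ring
  have h0 : ∀ i j, 0 ≤ p i j := fun i j => le_trans (by positivity) (hp.lower i j)
  rw [h1]
  unfold Pop
  refine (Finset.abs_sum_le_sum_abs _ _).trans (Finset.sum_le_sum fun i _ => ?_)
  refine (Finset.abs_sum_le_sum_abs _ _).trans (Finset.sum_le_sum fun j _ => ?_)
  rw [abs_mul, abs_of_nonneg (h0 i j)]

end MONM

open MONM in
theorem specMON (hSMO : SpecSMO) : SpecMON := by
  intro n c C p hn hc hp
  obtain ⟨-, -, -, hPop, hd0, hd1, -⟩ := hSMO n c C p hn hc hp
  refine ⟨fun t => ?_, fun t => ?_, fun t => ?_⟩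
  · unfold tv
    refine mul_le_mul_of_nonneg_left ?_ (by norm_num)
    have h2 : EU (fun σ => |dens p (t + 1) σ - 1|) ≤ EU (Pop p (fun τ => |dens p t τ - 1|)) :=
      EU_mono fun σ => Pop_sub_one hp hc (dens p t) σ
    rw [hPop] at h2
    exact h2
  · unfold tv
    exact mul_nonneg (by norm_num) (EU_nonneg fun σ => abs_nonneg _)
  · unfold tv
    have h2 : EU (fun σ => |dens p t σ - 1|) ≤ EU (fun σ => dens p t σ + 1) := by
      refine EU_mono fun σ => ?_
      have := hd0 t σ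
      rw [abs_le]
      constructor <;> linarith
    rw [EU_add, EU_one, hd1 t] at h2
    linarith

end Pool.Agent.Lib.MP8c2010.NU
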