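import Pool.Agent.Lib.MP_8c2010_pr.NU.Spec

/-!
# MP_8c2010_pr, module PIN: weak Pinsker inequality
-/

set_option autoImplicit false

namespace Pool.Agent.Lib.MP8c2010.NU

open Equiv Finset

theorem specPIN (hPTW : SpecPTW) : SpecPIN := by
  intro n f hf h1
  obtain ⟨p1, p2, -, -⟩ := hPTW
  obtain ⟨Q, hQ⟩ : ∃ Q : ℝ, Q = (n.factorial : ℝ) := ⟨_, rfl⟩
  have hQ0 : 0 < Q := by
    rw [hQ]
    exact_mod_cast n.factorial_pos
  have hcard : ∑ _σ : Perm (Fin n), (1 : ℝ) = Q := by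
    rw [sum_const, card_univ, Fintype.card_perm, Fintype.card_fin, nsmul_eq_mul, mul_one, hQ]
  have hsum : ∑ σ, f σ = Q := by
    unfold EU at h1
    rw [← hQ] at h1
    field_simp at h1
    exact h1
  have hent : ent f = (∑ σ, (phi (f σ) - f σ + 1)) / Q := by
    unfold ent
    rw [h1]
    unfold EU
    have e1 : phi 1 = 0 := by simp [phi]
    rw [e1, sub_zero, sum_add_distrib, sum_sub_distrib, hsum, hcard, ← hQ]
    congr 1
    ring
  have hS2 : ∑ σ, (f σ + 2) = 3 * Q := by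
    rw [sum_add_distrib, hsum]
    have e1 : ∑ _σ : Perm (Fin n), (2 : ℝ) = 2 * Q := by
      rw [← hcard, mul_sum]
      simp
    rw [e1]
    ring
  have hCS : (∑ σ, √((f σ + 2) * (phi (f σ) - f σ + 1))) ^ 2 ≤
      (∑ σ, (f σ + 2)) * ∑ σ, (phi (f σ) - f σ + 1) := by
    refine Finset.sum_sq_le_sum_mul_sum_of_sq_eq_mul _ (fun σ _ => by linarith [hf σ])
      (fun σ _ => p1 _ (hf σ)) (fun σ _ => ?_)
    rw [Real.sq_sqrt]
    exact mul_nonneg (by linarith [hf σ]) (p1 _ (hf σ))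
  have hle : ∑ σ, |f σ - 1| ≤ ∑ σ, √((f σ + 2) * (phi (f σ) - f σ + 1)) := by
    refine sum_le_sum fun σ _ => ?_
    rw [← Real.sqrt_sq_eq_abs]
    exact Real.sqrt_le_sqrt (p2 _ (hf σ))
  have hnn : 0 ≤ ∑ σ, |f σ - 1| := sum_nonneg fun σ _ => abs_nonneg _
  have h2 : (∑ σ, |f σ - 1|) ^ 2 ≤ 3 * Q * ∑ σ, (phi (f σ) - f σ + 1) := by
    rw [← hS2]
    exact (pow_le_pow_left₀ hnn hle 2).trans hCS
  rw [hent]
  unfold EU
  rw [← hQ, div_pow, div_le_iff₀ (by positivity)]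
  calc (∑ σ, |f σ - 1|) ^ 2 ≤ 3 * Q * ∑ σ, (phi (f σ) - f σ + 1) := h2
    _ = 3 * ((∑ σ, (phi (f σ) - f σ + 1)) / Q) * Q ^ 2 := by
      field_simp

end Pool.Agent.Lib.MP8c2010.NU
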