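import Pool.Agent.Lib.MP_8c2010_pr.NU.Spec

/-!
# PTW: pointwise inequalities for `x log x`
-/

set_option autoImplicit false

namespace Pool.Agent.Lib.MP8c2010.NU

namespace PTWM

/-- `h ≥ 0` -/
lemma h_nonneg (x : ℝ) (hx : 0 ≤ x) : 0 ≤ phi x - x + 1 := by
  unfold phi
  rcases hx.eq_or_lt with rfl | hx
  · norm_num
  · have h1 := Real.one_sub_inv_le_log_of_pos hx
    have h2 : x * (1 - x⁻¹) ≤ x * Real.log x := mul_le_mul_of_nonneg_left h1 hx.le
    have h3 : x * (1 - x⁻¹) = x - 1 := by field_simp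
    rw [h3] at h2
    linarith

/-- the case `x ≥ 1` -/
lemma big (x : ℝ) (hx : 1 ≤ x) : (x - 1) ^ 2 ≤ (x + 1) * (phi x - x + 1) := by
  unfold phi
  have h1 := Real.le_log_one_add_of_nonneg (x := x - 1) (by linarith)
  have h2 : (1 : ℝ) + (x - 1) = x := by ring
  rw [h2, div_le_iff₀ (by linarith)] at h1
  have h3 : 2 * (x - 1) ≤ Real.log x * (x + 1) := by linarith
  have h4 : x * (2 * (x - 1)) ≤ x * (Real.log x * (x + 1)) :=
    mul_le_mul_of_nonneg_left h3 (by linarith)
  nlinarith

/-- the case `0 ≤ x ≤ 1` -/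
lemma small (x : ℝ) (h0 : 0 ≤ x) (hx : x ≤ 1) : (x - 1) ^ 2 ≤ 2 * (phi x - x + 1) := by
  unfold phi
  rcases h0.eq_or_lt with rfl | h0
  · norm_num
  · have h1 : Real.sinh (Real.log x) ≤ Real.log x :=
      Real.sinh_le_self_iff.2 (Real.log_nonpos h0.le hx)
    rw [Real.sinh_log h0] at h1
    have h2 : x * ((x - x⁻¹) / 2) ≤ x * Real.log x := mul_le_mul_of_nonneg_left h1 h0.le
    have h3 : x * ((x - x⁻¹) / 2) = (x ^ 2 - 1) / 2 := by field_simp
    rw [h3] at h2
    nlinarith

/-- `x (log x)^2 ≤ (x - 1)^2` -/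
lemma log_sq (x : ℝ) (hx : 0 < x) : x * Real.log x ^ 2 ≤ (x - 1) ^ 2 := by
  obtain ⟨v, hv⟩ : ∃ v : ℝ, v = Real.log x / 2 := ⟨_, rfl⟩
  have h1 : v ^ 2 ≤ Real.sinh v ^ 2 := by
    rcases le_total 0 v with h | h
    · exact pow_le_pow_left₀ h (Real.self_le_sinh_iff.2 h) 2
    · have h2 := Real.sinh_le_self_iff.2 h
      nlinarith
  have h2 : Real.exp v * Real.exp v = x := by
    rw [← Real.exp_add, hv, add_halves, Real.exp_log hx]
  have h3 : Real.exp v * Real.exp (-v) = 1 := by rw [← Real.exp_add, add_neg_cancel, Real.exp_zero]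
  have h4 : Real.log x = 2 * v := by rw [hv]; ring
  rw [Real.sinh_eq] at h1
  have h5 : x * ((Real.exp v - Real.exp (-v)) / 2) ^ 2 = (x - 1) ^ 2 / 4 := by
    have h6 : Real.exp v * (Real.exp v - Real.exp (-v)) = x - 1 := by
      rw [mul_sub, h2, h3]
    calc x * ((Real.exp v - Real.exp (-v)) / 2) ^ 2
        = (Real.exp v * (Real.exp v - Real.exp (-v))) ^ 2 / 4 := by
          rw [← h2]
          ring
      _ = (x - 1) ^ 2 / 4 := by rw [h6]
  have h6 : x * v ^ 2 ≤ x * ((Real.exp v - Real.exp (-v)) / 2) ^ 2 :=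
    mul_le_mul_of_nonneg_left h1 hx.le
  rw [h5] at h6
  rw [h4]
  linarith

end PTWM

open PTWM in
theorem specPTW : SpecPTW := by
  refine ⟨h_nonneg, ?_, ?_, ?_⟩
  · intro x hx
    have h0 := h_nonneg x hx
    rcases le_total 1 x with h | h
    · have h1 := big x h
      nlinarith
    · have h1 := small x hx h
      nlinarith
  · intro x m hx hxm hm
    have h0 := h_nonneg x hx
    rcases le_total 1 x with h | h
    · have h1 := big x h
      nlinarith
    · have h1 := small x hx h
      nlinarith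
  · intro x L hx hL hL1
    have h0 := h_nonneg x hx.le
    have h2 := log_sq x hx
    have hLL : (1 : ℝ) ≤ L ^ 2 := by nlinarith
    have h3 : 6 * (phi x - x + 1) ≤ 6 * L ^ 2 * (phi x - x + 1) := by nlinarith
    rcases le_total 1 x with h | h
    · have h1 := big x h
      have h4 : (x + 1) * Real.log x ^ 2 ≤ 2 * (x * Real.log x ^ 2) := by
        have := sq_nonneg (Real.log x)
        nlinarith
      have h5 : (x + 1) * Real.log x ^ 2 ≤ (x + 1) * (2 * (phi x - x + 1)) := by linarith
      have h6 : Real.log x ^ 2 ≤ 2 * (phi x - x + 1) := le_of_mul_le_mul_left h5 (by linarith)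
      linarith
    · have h1 := small x hx.le h
      have hu : Real.log x ^ 2 ≤ L ^ 2 := by
        rw [← sq_abs]
        exact pow_le_pow_left₀ (abs_nonneg _) hL 2
      have he := Real.exp_one_lt_d9
      rcases le_total (-1) (Real.log x) with h4 | h4
      · -- `x ≥ exp (-1)`
        have h5 : Real.exp (-1) ≤ x := by
          rw [← Real.exp_log hx]
          exact Real.exp_le_exp.2 h4
        have h6 : (1 : ℝ) / 3 ≤ x := by
          refine le_trans ?_ h5
          rw [Real.exp_neg, one_div]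
          exact inv_anti₀ (Real.exp_pos 1) (by linarith)
        have h8 : 1 ≤ 3 * x := by linarith
        have h9 : Real.log x ^ 2 ≤ 3 * (x * Real.log x ^ 2) := by
          have := sq_nonneg (Real.log x)
          nlinarith
        linarith
      · have h5 : x ≤ Real.exp (-1) := by
          rw [← Real.exp_log hx]
          exact Real.exp_le_exp.2 h4
        have h6 : Real.exp (-1) ≤ 1 / 2.7 := by
          rw [Real.exp_neg, one_div]
          refine inv_anti₀ (by norm_num) ?_
          have := Real.exp_one_gt_d9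
          linarith
        have h7 : x ≤ 1 / 2.7 := h5.trans h6
        have h8 : (1 : ℝ) / 3 ≤ (x - 1) ^ 2 := by
          have h9 : (1 : ℝ) - 1 / 2.7 ≤ 1 - x := by linarith
          have h10 : ((1 : ℝ) - 1 / 2.7) ^ 2 ≤ (1 - x) ^ 2 :=
            pow_le_pow_left₀ (by norm_num) h9 2
          have h11 : (1 : ℝ) / 3 ≤ ((1 : ℝ) - 1 / 2.7) ^ 2 := by norm_num
          nlinarith
        have h9 : 1 ≤ 6 * (phi x - x + 1) := by linarith
        nlinarith

end Pool.Agent.Lib.MP8c2010.NU
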