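import Pool.Agent.Lib.MP_8c2010_pr.NU.Spec

/-!
# REC: a numerical recursion
-/

set_option autoImplicit false

namespace Pool.Agent.Lib.MP8c2010.NU

theorem specREC : SpecREC := by
  intro x X K t0 m hX hK hm h0 hx h
  have hanti : Antitone x := antitone_nat_of_succ_le hx
  have hm0 : (0 : ℝ) < m := by exact_mod_cast hm
  by_cases hs : ∃ s, t0 ≤ s ∧ s < t0 + m ∧ x s < X
  · obtain ⟨s, _, hs2, hs3⟩ := hs
    have h1 : x (t0 + m) ≤ x s := hanti hs2.le
    have h2 : 0 < K / m := by positivity
    linarith
  · push Not at hs
    have key : ∀ j : ℕ, j ≤ m → x (t0 + j) * j ≤ K := by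
      intro j
      induction j with
      | zero => intro _; simp [hK.le]
      | succ j ih =>
        intro hj
        have h1 := ih (by omega)
        have h2 : x (t0 + j) ^ 2 ≤ K * (x (t0 + j) - x (t0 + j + 1)) := by
          rcases h (t0 + j) (by omega) (by omega) with h3 | h3
          · exact absurd (hs (t0 + j) (by omega) (by omega)) (not_le.mpr h3)
          · exact h3
        have ha : 0 ≤ x (t0 + j) := h0 _
        have hb : 0 ≤ x (t0 + j + 1) := h0 _
        have hj0 : (0 : ℝ) ≤ j := Nat.cast_nonneg j
        rw [← add_assoc]
        push_cast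
        set a := x (t0 + j)
        set b := x (t0 + j + 1)
        have haK : a ≤ K := by
          by_contra hc
          push Not at hc
          nlinarith [mul_nonneg hK.le hb]
        have h4 : (b * (j + 1)) * K ≤ K * K := by
          have h5 : 0 ≤ (K - a * j) * (K - a) :=
            mul_nonneg (by linarith) (by linarith)
          have h6 : K * b ≤ K * a - a ^ 2 := by linarith
          have h7 : (K * b) * (j + 1) ≤ (K * a - a ^ 2) * (j + 1) :=
            mul_le_mul_of_nonneg_right h6 (by linarith)
          nlinarith [sq_nonneg a]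
        exact le_of_mul_le_mul_right h4 hK
    have h1 := key m le_rfl
    have h2 : x (t0 + m) ≤ K / m := by
      rw [le_div_iff₀ hm0]
      exact h1
    linarith

end Pool.Agent.Lib.MP8c2010.NU
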