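import Pool.Agent.Lib.MP_8c2010_pr.NU.Spec

/-!
# SMO: basic facts on the densities of the walk
-/

set_option autoImplicit false

namespace Pool.Agent.Lib.MP8c2010.NU

open Equiv Finset

namespace SMOM

variable {n : ℕ} {c C : ℝ} {p : Fin n → Fin n → ℝ}

theorem p_nonneg (hc : 0 < c) (hp : NearlyUniform c C p) (i j : Fin n) : 0 ≤ p i j :=
  le_trans (by positivity) (hp.lower i j)

theorem sum_const_sq (hn : 2 ≤ n) (a : ℝ) : ∑ _i : Fin n, ∑ _j : Fin n, a / (n : ℝ) ^ 2 = a := by
  have h : (n : ℝ) ≠ 0 := by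
    have : n ≠ 0 := by omega
    exact_mod_cast this
  simp only [sum_const, card_univ, Fintype.card_fin, nsmul_eq_mul]
  field_simp

theorem c_le_one (hn : 2 ≤ n) (hp : NearlyUniform c C p) : c ≤ 1 := by
  rw [← hp.total, ← sum_const_sq hn c]
  exact sum_le_sum fun i _ => sum_le_sum fun j _ => hp.lower i j

theorem one_le_C (hn : 2 ≤ n) (hp : NearlyUniform c C p) : 1 ≤ C := by
  rw [← hp.total, ← sum_const_sq hn C]
  exact sum_le_sum fun i _ => sum_le_sum fun j _ => hp.upper i j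

theorem one_le_LL (hn : 2 ≤ n) (hc : 0 < c) (hc1 : c ≤ 1) : 1 ≤ LL n c := by
  have hn2 : (2 : ℝ) ≤ n := by exact_mod_cast hn
  have h1 : (8 : ℝ) ≤ 2 * (n : ℝ) ^ 2 / c := by
    rw [le_div_iff₀ hc]
    nlinarith
  have h2 : (1 : ℝ) / 2 ≤ Real.log 8 := by
    have := Real.one_sub_inv_le_log_of_pos (show (0 : ℝ) < 8 by norm_num)
    norm_num at this ⊢
    linarith
  have h3 := Real.log_le_log (by norm_num) h1
  unfold LL
  linarith

theorem EU_Pop (hp : NearlyUniform c C p) (f : Perm (Fin n) → ℝ) : EU (Pop p f) = EU f := by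
  unfold EU Pop
  congr 1
  rw [sum_comm]
  have h : ∀ i ∈ (univ : Finset (Fin n)), ∑ σ : Perm (Fin n), ∑ j, p i j * f (σ * swap i j) =
      ∑ j, p i j * ∑ σ, f σ := by
    intro i _
    rw [sum_comm]
    refine sum_congr rfl fun j _ => ?_
    rw [← mul_sum]
    congr 1
    exact Equiv.sum_comp (Equiv.mulRight (swap i j)) f
  rw [sum_congr rfl h]
  simp only [← sum_mul]
  rw [hp.total, one_mul]

theorem dens_nonneg (hc : 0 < c) (hp : NearlyUniform c C p) (t : ℕ) (σ : Perm (Fin n)) :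
    0 ≤ dens p t σ := by
  induction t generalizing σ with
  | zero =>
    unfold dens
    split_ifs
    · positivity
    · exact le_refl _
  | succ t ih =>
    unfold dens Pop
    exact sum_nonneg fun i _ => sum_nonneg fun j _ => mul_nonneg (p_nonneg hc hp i j) (ih _)

theorem EU_dens (hp : NearlyUniform c C p) (t : ℕ) : EU (dens p t) = 1 := by
  induction t with
  | zero =>
    unfold EU dens
    have h : (n.factorial : ℝ) ≠ 0 := by exact_mod_cast n.factorial_ne_zero
    rw [Finset.sum_ite_eq']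
    simp [h]
  | succ t ih =>
    unfold dens
    rw [EU_Pop hp]
    exact ih

theorem sum_dens (hp : NearlyUniform c C p) (t : ℕ) :
    ∑ σ, dens p t σ = (n.factorial : ℝ) := by
  have h := EU_dens hp t
  have h1 : (n.factorial : ℝ) ≠ 0 := by exact_mod_cast n.factorial_ne_zero
  unfold EU at h
  rw [div_eq_one_iff_eq h1] at h
  exact h

theorem dens_le (hc : 0 < c) (hp : NearlyUniform c C p) (t : ℕ) (σ : Perm (Fin n)) :
    dens p t σ ≤ n.factorial := by
  rw [← sum_dens hp t]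
  exact single_le_sum (f := dens p t) (fun τ _ => dens_nonneg hc hp t τ) (mem_univ σ)

theorem summ_half : Summable fun m : ℕ => (1 / 2 : ℝ) ^ (m + 1) := by
  have h := summable_geometric_two.mul_right (1 / 2 : ℝ)
  refine h.congr fun m => ?_
  rw [pow_succ]

theorem tsum_half : ∑' m : ℕ, (1 / 2 : ℝ) ^ (m + 1) = 1 := by
  have h : ∀ m : ℕ, (1 / 2 : ℝ) ^ (m + 1) = (1 / 2 : ℝ) ^ m * (1 / 2) := fun m => pow_succ _ _
  simp only [h]
  rw [tsum_mul_right, tsum_geometric_two]
  norm_num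

theorem summ (hc : 0 < c) (hp : NearlyUniform c C p) (t : ℕ) (σ : Perm (Fin n)) :
    Summable fun m : ℕ => (1 / 2 : ℝ) ^ (m + 1) * dens p (t + m) σ := by
  refine Summable.of_nonneg_of_le (fun m => mul_nonneg (by positivity) (dens_nonneg hc hp _ _))
    (fun m => mul_le_mul_of_nonneg_left (dens_le hc hp _ _) (by positivity))
    (summ_half.mul_right (n.factorial : ℝ))

theorem sm_nonneg (hc : 0 < c) (hp : NearlyUniform c C p) (t : ℕ) (σ : Perm (Fin n)) :
    0 ≤ sm p t σ :=
  tsum_nonneg fun m => mul_nonneg (by positivity) (dens_nonneg hc hp _ _)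

theorem sm_rec (hc : 0 < c) (hp : NearlyUniform c C p) (t : ℕ) (σ : Perm (Fin n)) :
    sm p t σ = (1 / 2) * dens p t σ + (1 / 2) * sm p (t + 1) σ := by
  unfold sm
  rw [(summ hc hp t σ).tsum_eq_zero_add, ← tsum_mul_left]
  congr 1
  · simp
  · refine tsum_congr fun m => ?_
    rw [pow_succ, show t + (m + 1) = t + 1 + m by ring]
    ring

theorem sm_succ (hc : 0 < c) (hp : NearlyUniform c C p) (t : ℕ) :
    sm p (t + 1) = Pop p (sm p t) := by
  funext σ
  unfold Pop sm
  have h1 : ∀ i j : Fin n, Summable fun m : ℕ =>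
      p i j * ((1 / 2 : ℝ) ^ (m + 1) * dens p (t + m) (σ * swap i j)) :=
    fun i j => (summ hc hp t _).mul_left _
  have h2 : ∀ i : Fin n, ∑ j, p i j * ∑' m : ℕ, (1 / 2 : ℝ) ^ (m + 1) *
      dens p (t + m) (σ * swap i j) = ∑' m : ℕ, ∑ j,
        p i j * ((1 / 2 : ℝ) ^ (m + 1) * dens p (t + m) (σ * swap i j)) := by
    intro i
    rw [Summable.tsum_finsetSum fun j _ => h1 i j]
    exact sum_congr rfl fun j _ => tsum_mul_left.symm
  rw [sum_congr rfl fun i _ => h2 i, ← Summable.tsum_finsetSum fun i _ =>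
    summable_sum fun j _ => h1 i j]
  refine tsum_congr fun m => ?_
  rw [show t + 1 + m = t + m + 1 by ring]
  change (1 / 2 : ℝ) ^ (m + 1) * Pop p (dens p (t + m)) σ = _
  unfold Pop
  rw [mul_sum]
  refine sum_congr rfl fun i _ => ?_
  rw [mul_sum]
  refine sum_congr rfl fun j _ => ?_
  ring

theorem EU_sm (hc : 0 < c) (hp : NearlyUniform c C p) (t : ℕ) : EU (sm p t) = 1 := by
  have h1 : (n.factorial : ℝ) ≠ 0 := by exact_mod_cast n.factorial_ne_zero
  unfold EU
  rw [div_eq_one_iff_eq h1]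
  unfold sm
  rw [← Summable.tsum_finsetSum fun σ _ => summ hc hp t σ]
  have h2 : ∀ m : ℕ, ∑ σ : Perm (Fin n), (1 / 2 : ℝ) ^ (m + 1) * dens p (t + m) σ =
      (1 / 2 : ℝ) ^ (m + 1) * n.factorial := by
    intro m
    rw [← mul_sum, sum_dens hp]
  simp only [h2]
  rw [tsum_mul_right, tsum_half, one_mul]

theorem sm_swap (hc : 0 < c) (hp : NearlyUniform c C p) (t : ℕ) (σ : Perm (Fin n))
    (i j : Fin n) : c / (2 * (n : ℝ) ^ 2) * sm p t (σ * swap i j) ≤ sm p t σ := by
  have h1 := sm_rec hc hp t σ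
  have h2 := dens_nonneg hc hp t σ
  have h3 : c / (n : ℝ) ^ 2 * sm p t (σ * swap i j) ≤ sm p (t + 1) σ := by
    rw [sm_succ hc hp]
    unfold Pop
    calc c / (n : ℝ) ^ 2 * sm p t (σ * swap i j) ≤ p i j * sm p t (σ * swap i j) :=
          mul_le_mul_of_nonneg_right (hp.lower i j) (sm_nonneg hc hp _ _)
      _ ≤ ∑ j, p i j * sm p t (σ * swap i j) :=
          single_le_sum (f := fun j => p i j * sm p t (σ * swap i j))
            (fun k _ => mul_nonneg (p_nonneg hc hp i k) (sm_nonneg hc hp _ _)) (mem_univ j)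
      _ ≤ _ := single_le_sum (f := fun i => ∑ j, p i j * sm p t (σ * swap i j))
            (fun k _ => sum_nonneg fun l _ =>
              mul_nonneg (p_nonneg hc hp k l) (sm_nonneg hc hp _ _)) (mem_univ i)
  have h4 : c / (2 * (n : ℝ) ^ 2) * sm p t (σ * swap i j) =
      (1 / 2) * (c / (n : ℝ) ^ 2 * sm p t (σ * swap i j)) := by
    rw [mul_comm (2 : ℝ), ← div_div]
    ring
  rw [h4]
  linarith

theorem sm_pos (hn : 2 ≤ n) (hc : 0 < c) (hp : NearlyUniform c C p) (t : ℕ)
    (σ : Perm (Fin n)) : 0 < sm p t σ := by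
  have hn0 : (0 : ℝ) < n := by
    have : 0 < n := by omega
    exact_mod_cast this
  obtain ⟨σ₀, h0⟩ : ∃ σ₀, 0 < sm p t σ₀ := by
    by_contra h
    push Not at h
    have h1 : EU (sm p t) ≤ 0 := by
      unfold EU
      exact div_nonpos_of_nonpos_of_nonneg (sum_nonpos fun τ _ => h τ) (by positivity)
    rw [EU_sm hc hp] at h1
    linarith
  have key : ∀ π : Perm (Fin n), ∀ τ, 0 < sm p t τ → 0 < sm p t (τ * π) := by
    intro π
    refine Equiv.Perm.swap_induction_on' (motive := fun π => ∀ τ, 0 < sm p t τ →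
      0 < sm p t (τ * π)) π ?_ ?_
    · intro τ hτ
      rwa [mul_one]
    · intro f x y _ ih τ hτ
      have h1 := ih τ hτ
      have h2 := sm_swap hc hp t (τ * (f * swap x y)) x y
      rw [mul_assoc, mul_assoc, swap_mul_self, mul_one] at h2
      exact lt_of_lt_of_le (mul_pos (by positivity) h1) h2
  have h := key (σ₀⁻¹ * σ) σ₀ h0
  rwa [mul_inv_cancel_left] at h

theorem log_le (hn : 2 ≤ n) (hc : 0 < c) (hp : NearlyUniform c C p) (t : ℕ)
    (σ : Perm (Fin n)) (i j : Fin n) :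
    Real.log (sm p t (σ * swap i j)) - Real.log (sm p t σ) ≤ LL n c / 2 := by
  have hn0 : (0 : ℝ) < n := by
    have : 0 < n := by omega
    exact_mod_cast this
  have h1 := Real.log_le_log (mul_pos (by positivity) (sm_pos hn hc hp t _))
    (sm_swap hc hp t σ i j)
  rw [Real.log_mul (by positivity) (sm_pos hn hc hp t _).ne'] at h1
  have h2 : Real.log (c / (2 * (n : ℝ) ^ 2)) = -(LL n c / 2) := by
    have h3 : c / (2 * (n : ℝ) ^ 2) = (2 * (n : ℝ) ^ 2 / c)⁻¹ := (inv_div _ _).symm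
    rw [h3, Real.log_inv]
    unfold LL
    ring
  rw [h2] at h1
  linarith

end SMOM

open SMOM in
/-- SMO: basic facts on the densities. -/
theorem specSMO : SpecSMO := by
  intro n c C p hn hc hp
  have h1 := c_le_one hn hp
  refine ⟨h1, one_le_C hn hp, one_le_LL hn hc h1, EU_Pop hp, dens_nonneg hc hp, EU_dens hp,
    sm_pos hn hc hp, EU_sm hc hp, sm_rec hc hp, sm_succ hc hp, ?_⟩
  intro t σ i j
  rw [abs_le]
  constructor
  · have h2 := log_le hn hc hp t (σ * swap i j) i j
    rw [mul_assoc, swap_mul_self, mul_one] at h2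
    linarith
  · exact log_le hn hc hp t σ i j

end Pool.Agent.Lib.MP8c2010.NU
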