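import Pool.Agent.Lib.MP_8c2010_pr.NU.Spec

/-!
# MP_8c2010_pr, module SYM: summation over `SymA`
-/

set_option autoImplicit false

namespace Pool.Agent.Lib.MP8c2010.NU

open Equiv Finset

namespace SYMM

variable {n : ℕ} {A : Finset (Fin n)}

theorem mem_SymA {π : Perm (Fin n)} : π ∈ SymA A ↔ ∀ x, x ∉ A → π x = x := by
  simp [SymA]

theorem one_mem : (1 : Perm (Fin n)) ∈ SymA A := mem_SymA.2 fun _ _ => rfl

theorem mul_mem {π σ : Perm (Fin n)} (h1 : π ∈ SymA A) (h2 : σ ∈ SymA A) : π * σ ∈ SymA A := by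
  rw [mem_SymA] at h1 h2 ⊢
  intro x hx
  rw [Perm.mul_apply, h2 x hx, h1 x hx]

theorem inv_mem {π : Perm (Fin n)} (h : π ∈ SymA A) : π⁻¹ ∈ SymA A := by
  rw [mem_SymA] at h ⊢
  intro x hx
  rw [Perm.inv_eq_iff_eq, h x hx]

theorem swap_mem {a b : Fin n} (ha : a ∈ A) (hb : b ∈ A) : swap a b ∈ SymA A := by
  rw [mem_SymA]
  intro x hx
  refine swap_apply_of_ne_of_ne ?_ ?_
  · rintro rfl
    exact hx ha
  · rintro rfl
    exact hx hb

theorem apply_mem {π : Perm (Fin n)} (h : π ∈ SymA A) {x : Fin n} (hx : x ∈ A) : π x ∈ A := by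
  by_contra hcon
  have h1 := mem_SymA.1 h (π x) hcon
  have h2 : π x = x := π.injective h1
  rw [h2] at hcon
  exact hcon hx

theorem erase_fix {π : Perm (Fin n)} {i : Fin n} (h : π ∈ SymA (A.erase i)) : π i = i :=
  mem_SymA.1 h i (by simp)

theorem erase_mem {π : Perm (Fin n)} {i : Fin n} (h : π ∈ SymA (A.erase i)) : π ∈ SymA A := by
  rw [mem_SymA] at h ⊢
  intro x hx
  exact h x fun h' => hx (mem_of_mem_erase h')

theorem mem_erase_of {π : Perm (Fin n)} {i : Fin n} (h : π ∈ SymA A) (hi : π i = i) :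
    π ∈ SymA (A.erase i) := by
  rw [mem_SymA] at h ⊢
  intro x hx
  by_cases hxi : x = i
  · rw [hxi, hi]
  · exact h x fun h' => hx (mem_erase.2 ⟨hxi, h'⟩)

theorem sw (a b : Fin n) (π : Perm (Fin n)) : swap a b * (swap a b * π) = π := by
  rw [← mul_assoc, swap_mul_self, one_mul]

theorem sw' (a b : Fin n) (π : Perm (Fin n)) : π * swap a b * swap a b = π := by
  rw [mul_assoc, swap_mul_self, mul_one]

theorem part1 {i : Fin n} (hi : i ∈ A) (g : Perm (Fin n) → ℝ) :
    ∑ π ∈ SymA A, g π = ∑ v ∈ A, ∑ π ∈ SymA (A.erase i), g (swap i v * π) := by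
  rw [← Finset.sum_product']
  refine Finset.sum_nbij' (fun π => (π i, swap i (π i) * π)) (fun p => swap i p.1 * p.2) ?_ ?_ ?_
    ?_ ?_
  · intro π hπ
    have h1 := apply_mem hπ hi
    refine mem_product.2 ⟨h1, mem_erase_of (mul_mem (swap_mem hi h1) hπ) ?_⟩
    rw [Perm.mul_apply, swap_apply_right]
  · rintro ⟨v, π⟩ h
    have h' := mem_product.1 h
    exact mul_mem (swap_mem hi h'.1) (erase_mem h'.2)
  · intro π _
    exact sw _ _ _
  · rintro ⟨v, π⟩ h
    have h' := mem_product.1 h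
    have h1 : (swap i v * π) i = v := by
      rw [Perm.mul_apply, erase_fix h'.2, swap_apply_left]
    show ((swap i v * π) i, swap i ((swap i v * π) i) * (swap i v * π)) = (v, π)
    rw [h1, sw]
  · intro π _
    show g π = g (swap i (π i) * (swap i (π i) * π))
    rw [sw]

/-- the new permutation -/
theorem inv_apply {i v : Fin n} {π : Perm (Fin n)} (h : π i = v) : π⁻¹ v = i := by
  rw [← h]
  exact π.symm_apply_apply i

theorem apply_inv (π : Perm (Fin n)) (v : Fin n) : π (π⁻¹ v) = v := π.apply_symm_apply v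

theorem part3 {i v : Fin n} (hi : i ∈ A) (hv : v ∈ A) (g : Perm (Fin n) → ℝ) :
    ∑ π ∈ SymA A, g (π * swap i (π⁻¹ v)) =
      (A.card : ℝ) * ∑ π ∈ SymA (A.erase i), g (swap i v * π) := by
  have h0 : (A.card : ℝ) * ∑ π ∈ SymA (A.erase i), g (swap i v * π) =
      ∑ p ∈ A ×ˢ SymA (A.erase i), g (swap i v * p.2) := by
    rw [Finset.sum_product]
    simp
  rw [h0]
  refine Finset.sum_nbij' (fun π => (π⁻¹ v, swap i v * (π * swap i (π⁻¹ v))))
    (fun p => (swap i v * p.2) * swap i p.1) ?_ ?_ ?_ ?_ ?_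
  · intro π hπ
    have h1 := apply_mem (inv_mem hπ) hv
    refine mem_product.2 ⟨h1, mem_erase_of (mul_mem (swap_mem hi hv)
      (mul_mem hπ (swap_mem hi h1))) ?_⟩
    rw [Perm.mul_apply, Perm.mul_apply, swap_apply_left, apply_inv, swap_apply_right]
  · rintro ⟨j, π⟩ h
    have h' := mem_product.1 h
    exact mul_mem (mul_mem (swap_mem hi hv) (erase_mem h'.2)) (swap_mem hi h'.1)
  · intro π _
    show swap i v * (swap i v * (π * swap i (π⁻¹ v))) * swap i (π⁻¹ v) = π
    rw [sw, sw']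
  · rintro ⟨j, π⟩ h
    have h' := mem_product.1 h
    have h1 : ((swap i v * π) * swap i j) j = v := by
      rw [Perm.mul_apply, swap_apply_right, Perm.mul_apply, erase_fix h'.2, swap_apply_left]
    have h2 := inv_apply h1
    show (((swap i v * π) * swap i j)⁻¹ v, swap i v * ((swap i v * π) * swap i j *
      swap i (((swap i v * π) * swap i j)⁻¹ v))) = (j, π)
    rw [h2, sw', sw]
  · intro π _
    show g (π * swap i (π⁻¹ v)) = g (swap i v * (swap i v * (π * swap i (π⁻¹ v))))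
    rw [sw]

theorem part4aux {i v0 v : Fin n} (hi : i ∈ A) (hv0 : v0 ∈ A) (hv : v ∈ A)
    {π : Perm (Fin n)} (hπ : π ∈ SymA (A.erase i)) :
    swap i v * ((swap i v0 * π) * swap i ((swap i v0 * π)⁻¹ v)) ∈ SymA (A.erase i) ∧
    (v ≠ v0 → (swap i v * (swap i v * ((swap i v0 * π) * swap i ((swap i v0 * π)⁻¹ v))))⁻¹ v0 =
      (swap i v0 * π)⁻¹ v) := by
  have h1 : swap i v0 * π ∈ SymA A := mul_mem (swap_mem hi hv0) (erase_mem hπ)
  have h2 : (swap i v0 * π) i = v0 := by
    rw [Perm.mul_apply, erase_fix hπ, swap_apply_left]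
  set σ := swap i v0 * π with hσ
  have h3 : σ⁻¹ v ∈ A := apply_mem (inv_mem h1) hv
  refine ⟨mem_erase_of (mul_mem (swap_mem hi hv) (mul_mem h1 (swap_mem hi h3))) ?_, ?_⟩
  · rw [Perm.mul_apply, Perm.mul_apply, swap_apply_left, apply_inv, swap_apply_right]
  · intro _
    rw [sw]
    apply inv_apply
    rw [Perm.mul_apply, swap_apply_right, h2]

theorem part4 {i v0 v : Fin n} (hi : i ∈ A) (hv0 : v0 ∈ A) (hv : v ∈ A) (hne : v ≠ v0)
    (g : Perm (Fin n) → ℝ) :
    ∑ π ∈ SymA (A.erase i), g ((swap i v0 * π) * swap i ((swap i v0 * π)⁻¹ v)) =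
      ∑ π ∈ SymA (A.erase i), g (swap i v * π) := by
  refine Finset.sum_nbij'
    (fun π => swap i v * ((swap i v0 * π) * swap i ((swap i v0 * π)⁻¹ v)))
    (fun π => swap i v0 * ((swap i v * π) * swap i ((swap i v * π)⁻¹ v0))) ?_ ?_ ?_ ?_ ?_
  · intro π hπ
    exact (part4aux hi hv0 hv hπ).1
  · intro π hπ
    exact (part4aux hi hv hv0 hπ).1
  · intro π hπ
    have h1 := (part4aux hi hv0 hv hπ).2 hne
    show swap i v0 * ((swap i v * (swap i v * ((swap i v0 * π) *
      swap i ((swap i v0 * π)⁻¹ v)))) * swap i ((swap i v * (swap i v * ((swap i v0 * π) *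
      swap i ((swap i v0 * π)⁻¹ v))))⁻¹ v0)) = π
    rw [h1, sw, sw', sw]
  · intro π hπ
    have h1 := (part4aux hi hv hv0 hπ).2 hne.symm
    show swap i v * ((swap i v0 * (swap i v0 * ((swap i v * π) *
      swap i ((swap i v * π)⁻¹ v0)))) * swap i ((swap i v0 * (swap i v0 * ((swap i v * π) *
      swap i ((swap i v * π)⁻¹ v0))))⁻¹ v)) = π
    rw [h1, sw, sw', sw]
  · intro π _
    show g _ = g (swap i v * (swap i v * ((swap i v0 * π) * swap i ((swap i v0 * π)⁻¹ v))))
    rw [sw]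

theorem image_eq {π : Perm (Fin n)} (hπ : π ∈ SymA A) : A.image (fun x => π x) = A := by
  refine Finset.eq_of_subset_of_card_le ?_ ?_
  · intro y hy
    obtain ⟨x, hx, rfl⟩ := mem_image.1 hy
    exact apply_mem hπ hx
  · rw [Finset.card_image_of_injective _ π.injective]

end SYMM

open SYMM in
theorem specSYM : SpecSYM := by
  refine ⟨fun n A i hi g => part1 hi g, fun n A i hi => ?_, fun n A i v hi hv g => part3 hi hv g,
    fun n A i v0 v hi hv0 hv hne g => part4 hi hv0 hv hne g, fun n A π hπ =>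
      ⟨image_eq hπ, image_eq (inv_mem hπ)⟩, fun n => ?_, fun n A => one_mem⟩
  · have h := part1 hi (fun _ => (1 : ℝ))
    simp only [sum_const, nsmul_eq_mul, mul_one] at h
    exact_mod_cast h
  · have h : SymA (Finset.univ : Finset (Fin n)) = Finset.univ := by
      ext π
      simp [mem_SymA]
    refine ⟨h, ?_⟩
    rw [h, card_univ, Fintype.card_perm, Fintype.card_fin]

end Pool.Agent.Lib.MP8c2010.NU
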