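import Pool.Agent.Lib.MP_8c2010_pr.NU.Spec

set_option autoImplicit false

/-! # Module TVL: large total variation distance or fast entropy drop -/

namespace Pool.Agent.Lib.MP8c2010.NU

open Equiv

namespace TVLM

variable {n : ℕ}

lemma fpos (n : ℕ) : (0 : ℝ) < (n.factorial : ℝ) := by exact_mod_cast n.factorial_pos

lemma EU_add (f g : Perm (Fin n) → ℝ) : EU (fun σ => f σ + g σ) = EU f + EU g := by
  simp only [EU, Finset.sum_add_distrib, add_div]

lemma EU_sub (f g : Perm (Fin n) → ℝ) : EU (fun σ => f σ - g σ) = EU f - EU g := by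
  simp only [EU, Finset.sum_sub_distrib, sub_div]

lemma EU_mul (a : ℝ) (f : Perm (Fin n) → ℝ) : EU (fun σ => a * f σ) = a * EU f := by
  simp only [EU, ← Finset.mul_sum, mul_div_assoc]

lemma EU_mono {f g : Perm (Fin n) → ℝ} (h : ∀ σ, f σ ≤ g σ) : EU f ≤ EU g :=
  div_le_div_of_nonneg_right (Finset.sum_le_sum fun σ _ => h σ) (fpos n).le

lemma EU_congr {f g : Perm (Fin n) → ℝ} (h : ∀ σ, f σ = g σ) : EU f = EU g := by
  simp only [EU, h]

lemma EU_one : EU (fun _ : Perm (Fin n) => (1 : ℝ)) = 1 := by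
  simp only [EU, Finset.sum_const, Finset.card_univ, Fintype.card_perm, Fintype.card_fin,
    nsmul_eq_mul, mul_one]
  exact div_self (fpos n).ne'

/-- self-adjointness -/
lemma adj (p : Fin n → Fin n → ℝ) (f g : Perm (Fin n) → ℝ) :
    EU (fun σ => Pop p f σ * g σ) = EU (fun σ => f σ * Pop p g σ) := by
  have h : ∑ σ : Perm (Fin n), Pop p f σ * g σ = ∑ σ : Perm (Fin n), f σ * Pop p g σ := by
    simp only [Pop, Finset.sum_mul, Finset.mul_sum]
    rw [Finset.sum_comm, Finset.sum_comm (s := Finset.univ (α := Perm (Fin n)))]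
    refine Finset.sum_congr rfl fun i _ => ?_
    rw [Finset.sum_comm, Finset.sum_comm (s := Finset.univ (α := Perm (Fin n)))]
    refine Finset.sum_congr rfl fun j _ => ?_
    refine Fintype.sum_equiv (Equiv.mulRight (swap i j)) _ _ fun σ => ?_
    simp only [Equiv.coe_mulRight]
    rw [mul_assoc σ, swap_mul_self, mul_one]
    ring
  simp only [EU, h]

lemma pop_le {c C : ℝ} {p : Fin n → Fin n → ℝ} (hc : 0 < c) (hp : NearlyUniform c C p)
    {F : Perm (Fin n) → ℝ} {a : ℝ} (h : ∀ σ i j, |F (σ * swap i j) - F σ| ≤ a)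
    (σ : Perm (Fin n)) : F σ - a ≤ Pop p F σ ∧ Pop p F σ ≤ F σ + a := by
  have hp0 : ∀ i j, 0 ≤ p i j := fun i j => le_trans (by positivity) (hp.lower i j)
  have e : ∀ b : ℝ, b = ∑ i, ∑ j, p i j * b := by
    intro b
    simp only [← Finset.sum_mul, hp.total, one_mul]
  constructor
  · rw [e (F σ - a), Pop]
    refine Finset.sum_le_sum fun i _ => Finset.sum_le_sum fun j _ =>
      mul_le_mul_of_nonneg_left ?_ (hp0 i j)
    have := (abs_le.mp (h σ i j)).1
    linarith
  · rw [e (F σ + a), Pop]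
    refine Finset.sum_le_sum fun i _ => Finset.sum_le_sum fun j _ =>
      mul_le_mul_of_nonneg_left ?_ (hp0 i j)
    have := (abs_le.mp (h σ i j)).2
    linarith

end TVLM

open TVLM in
theorem specTVL (hSMO : SpecSMO) (hDIS : SpecDIS) (hVAR : SpecVAR) : SpecTVL := by
  intro n c C ε p hn hc hp hε hε1 s htv hx
  obtain ⟨hc1, hC1, hL1, hEP, hd0, hd1, hs0, hs1, hsd, hsP, hlip⟩ := hSMO n c C p hn hc hp
  set L := LL n c with hL
  set x := Dk p s with hxdef
  have hC0 : 0 < C := by linarith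
  set F : Perm (Fin n) → ℝ := fun σ => Real.log (sm p s σ) with hF
  set Φ : Perm (Fin n) → ℝ := fun σ => Real.log (sm p (s + 1) σ) with hΦ
  have hFlip : ∀ σ i j, |F (σ * swap i j) - F σ| ≤ L / 2 := fun σ i j => hlip s σ i j
  set E : ℕ → (Perm (Fin n) → ℝ) → ℝ := fun t G => EU (fun σ => dens p t σ * G σ) with hE
  set M := E (s + 2) F with hM
  have hlog : 0 < Real.log (2 / ε) := Real.log_pos (by rw [lt_div_iff₀ hε]; linarith)
  -- (a)
  set V := EU (fun σ => dens p (s + 2) σ * F σ ^ 2) - M ^ 2 with hV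
  have hVle : V ≤ 12 * (C / c) * (s + 2) * L ^ 2 * (x - Dk p (s + 1)) := by
    have h1 := hVAR n c C p (by omega) hc hp F Φ (s + 1)
    have h2 := hDIS n c C p hn hc hp s
    have h3 : EU (fun τ => dens p (s + 1) τ * ∑ i, ∑ j, p i j * (F (τ * swap i j) - Φ τ) ^ 2) ≤
        2 * EU (fun τ => sm p (s + 1) τ * ∑ i, ∑ j, p i j *
          (Real.log (sm p s (τ * swap i j)) - Real.log (sm p (s + 1) τ)) ^ 2) := by
      rw [← EU_mul]
      refine EU_mono fun τ => ?_
      have h4 : dens p (s + 1) τ ≤ 2 * sm p (s + 1) τ := by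
        have := hsd (s + 1) τ
        have := hs0 (s + 1 + 1) τ
        linarith
      have h5 : 0 ≤ ∑ i, ∑ j, p i j * (F (τ * swap i j) - Φ τ) ^ 2 := by
        refine Finset.sum_nonneg fun i _ => Finset.sum_nonneg fun j _ => mul_nonneg ?_ (sq_nonneg _)
        exact le_trans (by positivity) (hp.lower i j)
      have h6 := mul_le_mul_of_nonneg_right h4 h5
      calc _ ≤ _ := h6
        _ = _ := by rw [mul_assoc]
    have h1' : V ≤ (C / c) * (((s + 1 : ℕ) : ℝ) + 1) * EU (fun τ => dens p (s + 1) τ *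
        ∑ i, ∑ j, p i j * (F (τ * swap i j) - Φ τ) ^ 2) := h1
    have hk : 0 ≤ (C / c) * (((s + 1 : ℕ) : ℝ) + 1) := by positivity
    have h7 := mul_le_mul_of_nonneg_left h3 hk
    have h8 := mul_le_mul_of_nonneg_left h2 hk
    calc V ≤ _ := h1'
      _ ≤ _ := h7
      _ = 2 * ((C / c) * (((s + 1 : ℕ) : ℝ) + 1) * EU (fun τ => sm p (s + 1) τ * ∑ i, ∑ j, p i j *
          (Real.log (sm p s (τ * swap i j)) - Real.log (sm p (s + 1) τ)) ^ 2)) := by ring
      _ ≤ 2 * ((C / c) * (((s + 1 : ℕ) : ℝ) + 1) * (6 * L ^ 2 * (x - Dk p (s + 1)))) := by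
          linarith
      _ = _ := by push_cast; ring
  -- (b)
  have hxF : x = EU (fun σ => sm p s σ * F σ) := by
    rw [hxdef, Dk, ent, hs1]
    simp only [phi, Real.log_one, mul_zero, sub_zero]
    rfl
  have hE1 : ∀ t, E t F ≤ E (t + 1) F + L / 2 := by
    intro t
    have h1 : E (t + 1) F = EU (fun σ => dens p t σ * Pop p F σ) := adj p (dens p t) F
    rw [h1]
    have h2 : E t F - L / 2 = EU (fun σ => dens p t σ * (F σ - L / 2)) := by
      have : EU (fun σ => dens p t σ * (F σ - L / 2)) =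
          EU (fun σ => dens p t σ * F σ - (L / 2) * dens p t σ) := EU_congr fun σ => by ring
      rw [this, EU_sub, EU_mul, hd1]
      ring
    have h3 : EU (fun σ => dens p t σ * (F σ - L / 2)) ≤ EU (fun σ => dens p t σ * Pop p F σ) :=
      EU_mono fun σ => mul_le_mul_of_nonneg_left (pop_le hc hp hFlip σ).1 (hd0 t σ)
    linarith
  have hxE : x ≤ E s F + L / 2 := by
    have h1 : EU (fun σ => sm p s σ * F σ) =
        (1 / 2) * E s F + (1 / 2) * EU (fun σ => sm p (s + 1) σ * F σ) := by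
      rw [hE]
      simp only
      rw [← EU_mul, ← EU_mul, ← EU_add]
      refine EU_congr fun σ => ?_
      rw [hsd s σ]
      ring
    have h2 : EU (fun σ => sm p (s + 1) σ * F σ) ≤ x + L / 2 := by
      rw [hsP s]
      rw [adj p (sm p s) F]
      have h3 : EU (fun σ => sm p s σ * (F σ + L / 2)) = x + L / 2 := by
        have : EU (fun σ => sm p s σ * (F σ + L / 2)) =
            EU (fun σ => sm p s σ * F σ + (L / 2) * sm p s σ) := EU_congr fun σ => by ring
        rw [this, EU_add, EU_mul, hs1, ← hxF]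
        ring
      rw [← h3]
      exact EU_mono fun σ => mul_le_mul_of_nonneg_left (pop_le hc hp hFlip σ).2 (hs0 s σ).le
    rw [← hxF] at h1
    linarith
  have hMx : x - 3 * L / 2 ≤ M := by
    have h1 := hE1 s
    have h2 := hE1 (s + 1)
    have h3 : E (s + 1 + 1) F = M := rfl
    rw [h3] at h2
    linarith
  have hM2 : x / 2 ≤ M := by linarith
  have hM3 : Real.log (2 / ε) ≤ M / 2 := by linarith
  have hM0 : 0 < M := by linarith
  -- (c)
  classical
  set G : Perm (Fin n) → ℝ := fun σ => if M / 2 ≤ F σ then 1 else 0 with hG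
  have hG1 : EU G ≤ ε / 2 := by
    have h1 : EU G ≤ EU (fun σ => Real.exp (-(M / 2)) * sm p s σ) := by
      refine EU_mono fun σ => ?_
      simp only [hG]
      split_ifs with h
      · have h2 : Real.exp (M / 2) ≤ sm p s σ := by
          rw [← Real.le_log_iff_exp_le (hs0 s σ)]
          exact h
        calc (1 : ℝ) = Real.exp (-(M / 2)) * Real.exp (M / 2) := by
              rw [← Real.exp_add]; simp
          _ ≤ _ := mul_le_mul_of_nonneg_left h2 (Real.exp_pos _).le
      · exact mul_nonneg (Real.exp_pos _).le (hs0 s σ).le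
    rw [EU_mul, hs1, mul_one] at h1
    have h3 : Real.exp (-(M / 2)) ≤ Real.exp (-(Real.log (2 / ε))) :=
      Real.exp_le_exp.mpr (by linarith)
    rw [Real.exp_neg (Real.log (2 / ε)), Real.exp_log (by positivity), inv_div] at h3
    linarith
  have hcheb : M ^ 2 / 4 * (1 - E (s + 2) G) ≤ V := by
    have h1 : V = EU (fun σ => dens p (s + 2) σ * (F σ - M) ^ 2) := by
      have : EU (fun σ => dens p (s + 2) σ * (F σ - M) ^ 2) =
          EU (fun σ => (dens p (s + 2) σ * F σ ^ 2 - (2 * M) * (dens p (s + 2) σ * F σ)) +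
            M ^ 2 * dens p (s + 2) σ) := EU_congr fun σ => by ring
      rw [this, EU_add, EU_sub, EU_mul, EU_mul, hd1]
      have h2 : EU (fun σ => dens p (s + 2) σ * F σ) = M := rfl
      rw [h2, hV]
      ring
    have h2 : M ^ 2 / 4 * (1 - E (s + 2) G) =
        EU (fun σ => (M ^ 2 / 4) * (dens p (s + 2) σ * (1 - G σ))) := by
      rw [EU_mul]
      congr 1
      have : EU (fun σ => dens p (s + 2) σ * (1 - G σ)) =
          EU (fun σ => dens p (s + 2) σ - dens p (s + 2) σ * G σ) := EU_congr fun σ => by ring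
      rw [this, EU_sub]
      rw [show EU (fun σ => dens p (s + 2) σ) = 1 from hd1 (s + 2)]
    rw [h1, h2]
    refine EU_mono fun σ => ?_
    have h3 : M ^ 2 / 4 * (1 - G σ) ≤ (F σ - M) ^ 2 := by
      simp only [hG]
      split_ifs with h
      · rw [sub_self, mul_zero]; exact sq_nonneg _
      · push Not at h
        nlinarith
    have h4 := mul_le_mul_of_nonneg_left h3 (hd0 (s + 2) σ)
    calc _ = dens p (s + 2) σ * (M ^ 2 / 4 * (1 - G σ)) := by ring
      _ ≤ _ := h4
  have htv2 : E (s + 2) G - EU G ≤ tv p (s + 2) := by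
    have h1 : E (s + 2) G - EU G = EU (fun σ => (dens p (s + 2) σ - 1) * G σ) := by
      have : EU (fun σ => (dens p (s + 2) σ - 1) * G σ) =
          EU (fun σ => dens p (s + 2) σ * G σ - G σ) := EU_congr fun σ => by ring
      rw [this, EU_sub]
    have h2 : tv p (s + 2) = EU (fun σ => (1 / 2) * |dens p (s + 2) σ - 1| +
        (1 / 2) * (dens p (s + 2) σ - 1)) := by
      rw [EU_add, EU_mul, EU_mul, EU_sub]
      rw [show EU (fun σ => dens p (s + 2) σ) = 1 from hd1 (s + 2), EU_one, tv]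
      ring
    rw [h1, h2]
    refine EU_mono fun σ => ?_
    simp only [hG]
    split_ifs with h
    · have := le_abs_self (dens p (s + 2) σ - 1)
      linarith
    · have := neg_abs_le (dens p (s + 2) σ - 1)
      linarith
  have hfin : ε / 2 ≤ 1 - E (s + 2) G := by linarith
  have h1 : M ^ 2 / 4 * (ε / 2) ≤ V :=
    le_trans (mul_le_mul_of_nonneg_left hfin (by positivity)) hcheb
  have hx0 : 0 ≤ x := by linarith
  have h2 : (x / 2) ^ 2 ≤ M ^ 2 := pow_le_pow_left₀ (by linarith) hM2 2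
  have h3 : ε * x ^ 2 / 32 ≤ V := by nlinarith
  have h4 := h3.trans hVle
  have h5 : 12 * (C / c) * (s + 2) * L ^ 2 * (x - Dk p (s + 1)) =
      (12 * C * (s + 2) * L ^ 2 * (x - Dk p (s + 1))) / c := by
    field_simp
  rw [h5, le_div_iff₀ hc] at h4
  linarith

end Pool.Agent.Lib.MP8c2010.NU
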