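import Pool.Agent.Lib.MP_8c2010_pr.NU.Spec

/-!
# NU, module UPP: mixing in order `n log n`
-/

set_option autoImplicit false

namespace Pool.Agent.Lib.MP8c2010.NU

open Equiv Finset

namespace UPPM

theorem exp_le {θ T : ℝ} (hθ : 0 < θ) (h : -Real.log θ ≤ T) : Real.exp (-T) ≤ θ := by
  rw [← Real.le_log_iff_exp_le hθ]
  linarith

theorem log8 : Real.log 8 ≤ 3 := by
  have h : Real.log 8 = 3 * Real.log 2 := by
    rw [show (8 : ℝ) = 2 ^ 3 by norm_num, Real.log_pow]
    norm_num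
  rw [h]
  linarith [Real.log_two_lt_d9]

end UPPM

open UPPM in
theorem specUPP (hENT0 : SpecENT0) (hFIN : SpecFIN) (hMON : SpecMON) : SpecUPP := by
  intro c C ε hc hε
  obtain ⟨η, hη⟩ : ∃ η : ℝ, η = min (1 / 48) (ε ^ 2 / 48) := ⟨_, rfl⟩
  have hη0 : 0 < η := by
    rw [hη]
    exact lt_min (by norm_num) (by positivity)
  have hη1 : η ≤ 1 / 48 := by
    rw [hη]
    exact min_le_left _ _
  have hη2 : η ≤ ε ^ 2 / 48 := by
    rw [hη]
    exact min_le_right _ _
  obtain ⟨θ, hθ⟩ : ∃ θ : ℝ, θ = ε ^ 2 / 9 := ⟨_, rfl⟩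
  have hθ0 : 0 < θ := by
    rw [hθ]
    positivity
  obtain ⟨Lη, hLη⟩ : ∃ Lη : ℝ, Lη = max 0 (-Real.log η) := ⟨_, rfl⟩
  obtain ⟨Lθ, hLθ⟩ : ∃ Lθ : ℝ, Lθ = max 0 (-Real.log θ) := ⟨_, rfl⟩
  have hLη0 : 0 ≤ Lη := by
    rw [hLη]
    exact le_max_left _ _
  have hLθ0 : 0 ≤ Lθ := by
    rw [hLθ]
    exact le_max_left _ _
  have hLη1 : -Real.log η ≤ Lη := by
    rw [hLη]
    exact le_max_right _ _
  have hLθ1 : -Real.log θ ≤ Lθ := by
    rw [hLθ]
    exact le_max_right _ _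
  refine ⟨9 / (4 * c) * (2 + Lη + Lθ) + 2, by positivity, fun n p hn hp t ht => ?_⟩
  have hn0 : (0 : ℝ) < n := by
    have : 0 < n := by omega
    exact_mod_cast this
  have hn1 : (1 : ℝ) ≤ n := by
    have : 1 ≤ n := by omega
    exact_mod_cast this
  have hlog : 0 ≤ Real.log n := Real.log_nonneg hn1
  have hlogn : Real.log n ≤ n := (Real.log_le_sub_one_of_pos hn0).trans (by linarith)
  obtain ⟨u, hu⟩ : ∃ u : ℝ, u = 9 * n / (4 * c) := ⟨_, rfl⟩
  have hu0 : 0 < u := by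
    rw [hu]
    positivity
  obtain ⟨k, hk⟩ : ∃ k : ℕ, k = ⌈u * (2 * Real.log n + Lη)⌉₊ := ⟨_, rfl⟩
  obtain ⟨s, hs⟩ : ∃ s : ℕ, s = ⌈u * Lθ⌉₊ := ⟨_, rfl⟩
  have hk1 : u * (2 * Real.log n + Lη) ≤ k := by
    rw [hk]
    exact Nat.le_ceil _
  have hk2 : (k : ℝ) ≤ u * (2 * Real.log n + Lη) + 1 := by
    rw [hk]
    exact (Nat.ceil_lt_add_one (by positivity)).le
  have hs1 : u * Lθ ≤ s := by
    rw [hs]
    exact Nat.le_ceil _
  have hs2 : (s : ℝ) ≤ u * Lθ + 1 := by
    rw [hs]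
    exact (Nat.ceil_lt_add_one (by positivity)).le
  have hscale : ∀ x y : ℝ, u * x ≤ y → x ≤ 4 * c * y / (9 * n) := by
    intro x y hxy
    rw [le_div_iff₀ (by positivity)]
    have h1 : 4 * c * (u * x) = x * (9 * n) := by
      rw [hu]
      field_simp
    rw [← h1]
    exact mul_le_mul_of_nonneg_left hxy (by positivity)
  -- the entropy after `k` steps
  have hD : Dk p k ≤ η := by
    obtain ⟨_, _, h3, h4⟩ := hENT0 n c C p hn hc hp
    have h5 := h4 0 k
    rw [Nat.zero_add] at h5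
    have h6 := hscale _ _ hk1
    have h7 : Real.exp (-(4 * c * k / (9 * n))) ≤ Real.exp (-(2 * Real.log n + Lη)) :=
      Real.exp_le_exp.2 (by linarith)
    have h8 : Real.exp (-(2 * Real.log n + Lη)) * (n * Real.log n) ≤ η := by
      have h9 : Real.exp (-(2 * Real.log n + Lη)) = Real.exp (-Lη) / (n : ℝ) ^ 2 := by
        rw [neg_add, Real.exp_add, Real.exp_neg (2 * Real.log n), two_mul, Real.exp_add,
          Real.exp_log hn0, pow_two]
        field_simp
      rw [h9]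
      have h10 := exp_le hη0 hLη1
      have h11 : n * Real.log n ≤ (n : ℝ) ^ 2 := by
        rw [pow_two]
        exact mul_le_mul_of_nonneg_left hlogn hn0.le
      calc Real.exp (-Lη) / (n : ℝ) ^ 2 * (n * Real.log n)
          ≤ Real.exp (-Lη) / (n : ℝ) ^ 2 * (n : ℝ) ^ 2 :=
            mul_le_mul_of_nonneg_left h11 (by positivity)
        _ = Real.exp (-Lη) := by field_simp
        _ ≤ η := h10
    calc Dk p k ≤ Real.exp (-(4 * c * k / (9 * n))) * Dk p 0 := h5
      _ ≤ Real.exp (-(4 * c * k / (9 * n))) * (n * Real.log n) :=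
          mul_le_mul_of_nonneg_left (h3 0) (Real.exp_pos _).le
      _ ≤ Real.exp (-(2 * Real.log n + Lη)) * (n * Real.log n) :=
          mul_le_mul_of_nonneg_right h7 (by positivity)
      _ ≤ η := h8
  have hF := hFIN n c C η p hn hc hp hη0.le hη1 k s hD
  have h1 : 2 * Real.sqrt (3 * η) ≤ ε / 2 := by
    have h2 : Real.sqrt (3 * η) ≤ ε / 4 := by
      rw [Real.sqrt_le_left (by positivity)]
      nlinarith
    linarith
  have h2 : Real.sqrt (3 * (Real.exp (-(4 * c * s / (9 * n))) * Real.log 8)) / 2 ≤ ε / 2 := by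
    have h3 : Real.sqrt (3 * (Real.exp (-(4 * c * s / (9 * n))) * Real.log 8)) ≤ ε := by
      rw [Real.sqrt_le_left hε.le]
      have h4 := hscale _ _ hs1
      have h5 : Real.exp (-(4 * c * s / (9 * n))) ≤ θ := exp_le hθ0 (by linarith)
      have h6 : Real.exp (-(4 * c * s / (9 * n))) * Real.log 8 ≤ θ * 3 :=
        mul_le_mul h5 log8 (Real.log_nonneg (by norm_num)) hθ0.le
      rw [hθ] at h6
      linarith
    linarith
  have hks : k + s ≤ t := by
    have h3 : ((k + s : ℕ) : ℝ) ≤ t := by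
      push_cast
      refine le_trans ?_ ht
      have h4 : (9 / (4 * c) * (2 + Lη + Lθ) + 2) * n * (1 + Real.log n) =
          u * (2 * Real.log n + Lη + Lθ) + 2 + (u * (2 + (Lη + Lθ) * Real.log n) +
            (2 * (n - 1) + 2 * n * Real.log n)) := by
        rw [hu]
        field_simp
        ring
      have h5 : 0 ≤ u * (2 + (Lη + Lθ) * Real.log n) := by positivity
      have h6 : 0 ≤ 2 * ((n : ℝ) - 1) + 2 * n * Real.log n := by
        have : 0 ≤ 2 * (n : ℝ) * Real.log n := by positivity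
        linarith
      rw [h4]
      linarith
    exact_mod_cast h3
  have hanti : Antitone (tv p) := antitone_nat_of_succ_le (hMON n c C p hn hc hp).1
  have h3 := hanti hks
  linarith

end Pool.Agent.Lib.MP8c2010.NU
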