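import Pool.Agent.Lib.MP_8c2010_pr.NU.Spec

/-!
# Module WIN (MP_8c2010_pr, NU): the window (helper26)
-/

set_option autoImplicit false

namespace Pool.Agent.Lib.MP8c2010.NU

open Equiv Finset

namespace WINM

lemma le_of {n : ℕ} {c C : ℝ} {p : Fin n → Fin n → ℝ} (hn : 2 ≤ n) (hp : NearlyUniform c C p) :
    c ≤ C := by
  have h1 := (hp.lower ⟨0, by omega⟩ ⟨0, by omega⟩).trans (hp.upper ⟨0, by omega⟩ ⟨0, by omega⟩)
  have h2 : (0 : ℝ) < (n : ℝ) ^ 2 := by positivity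
  rwa [div_le_div_iff_of_pos_right h2] at h1

lemma tv_anti (hMON : SpecMON) {n : ℕ} {c C : ℝ} {p : Fin n → Fin n → ℝ} (hn : 2 ≤ n)
    (hc : 0 < c) (hp : NearlyUniform c C p) : Antitone (tv p) :=
  antitone_nat_of_succ_le (hMON n c C p hn hc hp).1

lemma LL_abs {n : ℕ} {c : ℝ} (hn : 2 ≤ n) (hc : 0 < c) :
    |LL n c| ≤ 2 * (|Real.log (2 / c)| + 2) * (1 + Real.log n) := by
  have hn0 : (0 : ℝ) < n := by
    have : 0 < n := by omega
    exact_mod_cast this
  have hn1 : (1 : ℝ) ≤ n := by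
    have : 1 ≤ n := by omega
    exact_mod_cast this
  have hl : 0 ≤ Real.log n := Real.log_nonneg hn1
  have e : LL n c = 2 * (Real.log (2 / c) + 2 * Real.log n) := by
    unfold LL
    rw [show 2 * (n : ℝ) ^ 2 / c = 2 / c * (n : ℝ) ^ 2 by ring,
      Real.log_mul (by positivity) (by positivity), Real.log_pow]
    push_cast
    ring
  rw [e, abs_mul, abs_two]
  have h1 : |Real.log (2 / c) + 2 * Real.log n| ≤ |Real.log (2 / c)| + 2 * Real.log n := by
    refine (abs_add_le _ _).trans ?_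
    rw [abs_of_nonneg (by positivity : 0 ≤ 2 * Real.log n)]
  have h2 := abs_nonneg (Real.log (2 / c))
  nlinarith [mul_nonneg h2 hl]

end WINM

open WINM in
theorem specWIN (hMON : SpecMON) (hUPP : SpecUPP) (hENT0 : SpecENT0) (hTVL : SpecTVL)
    (hREC : SpecREC) (hFIN : SpecFIN) : SpecWIN := by
  intro c C ε hc hε hε1
  obtain ⟨K0, hK0, hU⟩ := hUPP c C ε hc hε
  by_cases hC : c ≤ C
  swap
  · exact ⟨1, one_pos, fun n p hn hp => absurd (le_of hn hp) hC⟩
  have hC0 : 0 < C := lt_of_lt_of_le hc hC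
  obtain ⟨a, ha⟩ : ∃ a : ℝ, a = 2 * (|Real.log (2 / c)| + 2) := ⟨_, rfl⟩
  have ha0 : 0 < a := by
    rw [ha]
    have := abs_nonneg (Real.log (2 / c))
    linarith
  obtain ⟨le, hle⟩ : ∃ le : ℝ, le = Real.log (2 / ε) := ⟨_, rfl⟩
  have hle0 : 0 < le := by
    rw [hle]
    refine Real.log_pos ?_
    rw [lt_div_iff₀ hε]
    linarith
  obtain ⟨b, hb⟩ : ∃ b : ℝ, b = 384 * C * (K0 + 2) * a ^ 2 / (ε * c) := ⟨_, rfl⟩
  have hb0 : 0 < b := by
    rw [hb]
    positivity
  obtain ⟨B, hB⟩ : ∃ B : ℝ, B = 3 * a + 4 * le + b := ⟨_, rfl⟩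
  have hB0 : 0 < B := by
    rw [hB]
    positivity
  obtain ⟨η, hη⟩ : ∃ η : ℝ, η = min (1 / 48) (ε ^ 2 / 48) := ⟨_, rfl⟩
  have hη0 : 0 < η := by
    rw [hη]
    exact lt_min (by norm_num) (by positivity)
  have hη1 : η ≤ 1 / 48 := by
    rw [hη]
    exact min_le_left _ _
  have hη2 : η ≤ ε ^ 2 / 48 := by
    rw [hη]
    exact min_le_right _ _
  have hl8 : 0 < Real.log 8 := Real.log_pos (by norm_num)
  obtain ⟨q, hq⟩ : ∃ q : ℝ, q = |Real.log (B / η)| := ⟨_, rfl⟩
  obtain ⟨r, hr⟩ : ∃ r : ℝ, r = |Real.log (ε ^ 2 / (3 * Real.log 8))| := ⟨_, rfl⟩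
  have hq0 : 0 ≤ q := hq ▸ abs_nonneg _
  have hr0 : 0 ≤ r := hr ▸ abs_nonneg _
  refine ⟨9 / (4 * c) * (q + 3) + 9 / (4 * c) * r + 2, by positivity, ?_⟩
  intro n p hn hp t u htv htu
  have hn0 : (0 : ℝ) < n := by
    have : 0 < n := by omega
    exact_mod_cast this
  have hn2 : (2 : ℝ) ≤ n := by exact_mod_cast hn
  obtain ⟨Ln, hLn⟩ : ∃ Ln : ℝ, Ln = 1 + Real.log n := ⟨_, rfl⟩
  have hLn1 : 1 ≤ Ln := by
    rw [hLn]
    have := Real.log_nonneg (by linarith : (1 : ℝ) ≤ n)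
    linarith
  obtain ⟨Q, hQ⟩ : ∃ Q : ℝ, Q = 1 + Real.log Ln := ⟨_, rfl⟩
  have hlogLn : 0 ≤ Real.log Ln := Real.log_nonneg hLn1
  have hQ1 : 1 ≤ Q := by rw [hQ]; linarith
  rw [← hLn, ← hQ] at htu
  have hanti := tv_anti hMON hn hc hp
  by_cases hbig : K0 * n * (1 + Real.log n) ≤ u
  · exact hU n p hn hp u hbig
  push Not at hbig
  rw [← hLn] at hbig
  obtain ⟨hD0, hD1, -, hD3⟩ := hENT0 n c C p hn hc hp
  have hK30 : 0 ≤ 9 / (4 * c) * (q + 3) := by positivity
  have hK40 : 0 ≤ 9 / (4 * c) * r := by positivity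
  have htu' : (t : ℝ) ≤ u := by
    have : 0 ≤ (9 / (4 * c) * (q + 3) + 9 / (4 * c) * r + 2) * n * Q := by positivity
    linarith
  -- the drop of the entropy
  have hX0 : 0 < 3 * (a * Ln) + 4 * le := by positivity
  have hKr : 0 < b * (n * Ln ^ 3) := by positivity
  have hdrop := hREC (Dk p) (3 * (a * Ln) + 4 * le) (b * (n * Ln ^ 3)) t n hX0 hKr (by omega)
    hD0 hD1 (by
      intro s hs1 hs2
      rcases lt_or_ge (Dk p s) (3 * (a * Ln) + 4 * le) with h | h
      · exact Or.inl h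
      refine Or.inr ?_
      have hLLa : |LL n c| ≤ a * Ln := by
        rw [ha, hLn]
        exact LL_abs hn hc
      have hLL1 : LL n c ≤ a * Ln := (le_abs_self _).trans hLLa
      have hLL2 : LL n c ^ 2 ≤ (a * Ln) ^ 2 := by
        rw [← sq_abs]
        exact pow_le_pow_left₀ (abs_nonneg _) hLLa 2
      have h1 := hTVL n c C ε p hn hc hp hε hε1 s
        ((hanti (show t ≤ s + 2 by omega)).trans htv) (by rw [← hle]; linarith)
      have hΔ : 0 ≤ Dk p s - Dk p (s + 1) := by linarith [hD1 s]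
      have hs3 : ((s : ℝ) + 2) ≤ (K0 + 2) * (n * Ln) := by
        have h2 : (s : ℝ) + 1 ≤ t + n := by exact_mod_cast hs2
        have h3 : (n : ℝ) ≤ n * Ln := le_mul_of_one_le_right hn0.le hLn1
        have h4 : K0 * n * Ln = K0 * (n * Ln) := by ring
        linarith
      have h2 : 384 * C * (s + 2) * (LL n c) ^ 2 ≤
          384 * C * ((K0 + 2) * (n * Ln)) * (a * Ln) ^ 2 := by
        refine mul_le_mul ?_ hLL2 (sq_nonneg _) (by positivity)
        exact mul_le_mul_of_nonneg_left hs3 (by positivity)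
      have h3 := mul_le_mul_of_nonneg_right h2 hΔ
      have h4 : ε * c * Dk p s ^ 2 ≤
          384 * C * ((K0 + 2) * (n * Ln)) * (a * Ln) ^ 2 * (Dk p s - Dk p (s + 1)) :=
        h1.trans h3
      have h5 : b * (n * Ln ^ 3) * (ε * c) =
          384 * C * ((K0 + 2) * (n * Ln)) * (a * Ln) ^ 2 := by
        rw [hb]
        field_simp
      rw [← h5] at h4
      have h6 : ε * c * Dk p s ^ 2 ≤ ε * c * (b * (n * Ln ^ 3) * (Dk p s - Dk p (s + 1))) := by
        calc _ ≤ _ := h4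
          _ = _ := by ring
      exact le_of_mul_le_mul_left h6 (by positivity))
  have hLn3 : Ln ≤ Ln ^ 3 := le_self_pow₀ hLn1 (by norm_num)
  have hLn3' : 1 ≤ Ln ^ 3 := one_le_pow₀ hLn1
  have hB2 : Dk p (t + n) ≤ B * Ln ^ 3 := by
    refine hdrop.trans ?_
    have h1 : b * (n * Ln ^ 3) / n = b * Ln ^ 3 := by
      field_simp
    rw [h1, hB]
    nlinarith
  -- the entropy phase
  obtain ⟨j, hj⟩ : ∃ j : ℕ, j = ⌈9 / (4 * c) * (q + 3) * (n * Q)⌉₊ := ⟨_, rfl⟩
  have hj1 : 9 / (4 * c) * (q + 3) * (n * Q) ≤ j := by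
    rw [hj]
    exact Nat.le_ceil _
  have hj2 : (j : ℝ) < 9 / (4 * c) * (q + 3) * (n * Q) + 1 := by
    rw [hj]
    exact Nat.ceil_lt_add_one (by positivity)
  have hDη : Dk p (t + n + j) ≤ η := by
    refine (hD3 (t + n) j).trans ?_
    have h1 : (q + 3) * Q ≤ 4 * c * j / (9 * n) := by
      rw [le_div_iff₀ (by positivity)]
      have h2 : 4 * c * (9 / (4 * c) * (q + 3) * (n * Q)) ≤ 4 * c * j :=
        mul_le_mul_of_nonneg_left hj1 (by positivity)
      have h3 : 4 * c * (9 / (4 * c) * (q + 3) * (n * Q)) = (q + 3) * Q * (9 * n) := by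
        field_simp
      linarith
    have h2 : q + 3 * Real.log Ln ≤ (q + 3) * Q := by
      have h3 : q * 1 ≤ q * Q := mul_le_mul_of_nonneg_left hQ1 hq0
      have h4 : Real.log Ln ≤ Q := by rw [hQ]; linarith
      linarith
    have h3 : Real.log (B / η) + 3 * Real.log Ln ≤ 4 * c * j / (9 * n) := by
      have h4 : Real.log (B / η) ≤ q := by rw [hq]; exact le_abs_self _
      linarith
    have h4 : Real.exp (-(4 * c * j / (9 * n))) ≤ (B / η)⁻¹ * (Ln ^ 3)⁻¹ := by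
      have h5 : (B / η)⁻¹ * (Ln ^ 3)⁻¹ = Real.exp (-(Real.log (B / η) + 3 * Real.log Ln)) := by
        rw [neg_add, Real.exp_add, Real.exp_neg, Real.exp_neg, Real.exp_log (by positivity)]
        congr 2
        rw [mul_comm, Real.exp_mul, Real.exp_log (by linarith)]
        norm_cast
      rw [h5]
      exact Real.exp_le_exp.2 (by linarith)
    calc Real.exp (-(4 * c * j / (9 * n))) * Dk p (t + n)
        ≤ (B / η)⁻¹ * (Ln ^ 3)⁻¹ * (B * Ln ^ 3) :=
          mul_le_mul h4 hB2 (hD0 _) (by positivity)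
      _ = η := by
          field_simp
  -- the last phase
  obtain ⟨m, hm⟩ : ∃ m : ℕ, m = ⌈9 / (4 * c) * r * n⌉₊ := ⟨_, rfl⟩
  have hm1 : 9 / (4 * c) * r * n ≤ m := by
    rw [hm]
    exact Nat.le_ceil _
  have hm2 : (m : ℝ) < 9 / (4 * c) * r * n + 1 := by
    rw [hm]
    exact Nat.ceil_lt_add_one (by positivity)
  have hfin := hFIN n c C η p hn hc hp hη0.le hη1 (t + n + j) m hDη
  have hlast : tv p (t + n + j + m) ≤ ε := by
    refine hfin.trans ?_
    have h1 : Real.sqrt (3 * η) ≤ ε / 4 := by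
      rw [Real.sqrt_le_left (by positivity)]
      nlinarith
    have h2 : r ≤ 4 * c * m / (9 * n) := by
      rw [le_div_iff₀ (by positivity)]
      have h3 : 4 * c * (9 / (4 * c) * r * n) ≤ 4 * c * m :=
        mul_le_mul_of_nonneg_left hm1 (by positivity)
      have h4 : 4 * c * (9 / (4 * c) * r * n) = r * (9 * n) := by
        field_simp
      linarith
    have h3 : Real.exp (-(4 * c * m / (9 * n))) ≤ ε ^ 2 / (3 * Real.log 8) := by
      have h4 : ε ^ 2 / (3 * Real.log 8) = Real.exp (Real.log (ε ^ 2 / (3 * Real.log 8))) :=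
        (Real.exp_log (by positivity)).symm
      rw [h4]
      refine Real.exp_le_exp.2 ?_
      have h5 : -Real.log (ε ^ 2 / (3 * Real.log 8)) ≤ r := by
        rw [hr]
        exact neg_le_abs _
      linarith
    have h4 : Real.sqrt (3 * (Real.exp (-(4 * c * m / (9 * n))) * Real.log 8)) ≤ ε := by
      rw [Real.sqrt_le_left hε.le]
      calc 3 * (Real.exp (-(4 * c * m / (9 * n))) * Real.log 8)
          ≤ 3 * (ε ^ 2 / (3 * Real.log 8) * Real.log 8) := by
            have := mul_le_mul_of_nonneg_right h3 hl8.le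
            linarith
        _ = ε ^ 2 := by
            field_simp
    linarith
  refine (hanti ?_).trans hlast
  have h1 : ((t + n + j + m : ℕ) : ℝ) ≤ u := by
    push_cast
    have h2 : (n : ℝ) ≤ n * Q := le_mul_of_one_le_right hn0.le hQ1
    have h3 : 9 / (4 * c) * r * n ≤ 9 / (4 * c) * r * (n * Q) :=
      mul_le_mul_of_nonneg_left h2 hK40
    have h4 : (9 / (4 * c) * (q + 3) + 9 / (4 * c) * r + 2) * n * Q =
        9 / (4 * c) * (q + 3) * (n * Q) + 9 / (4 * c) * r * (n * Q) + 2 * (n * Q) := by ring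
    rw [h4] at htu
    linarith
  exact_mod_cast h1

end Pool.Agent.Lib.MP8c2010.NU
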