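import Pool.Agent.Lib.MP_8c2010_pr.NU.JEN
import Pool.Agent.Lib.MP_8c2010_pr.NU.PTW
import Pool.Agent.Lib.MP_8c2010_pr.NU.ERA
import Pool.Agent.Lib.MP_8c2010_pr.NU.SYM
import Pool.Agent.Lib.MP_8c2010_pr.NU.CHA
import Pool.Agent.Lib.MP_8c2010_pr.NU.MAR
import Pool.Agent.Lib.MP_8c2010_pr.NU.IND
import Pool.Agent.Lib.MP_8c2010_pr.NU.CTR
import Pool.Agent.Lib.MP_8c2010_pr.NU.SMO
import Pool.Agent.Lib.MP_8c2010_pr.NU.ENT0
import Pool.Agent.Lib.MP_8c2010_pr.NU.DIS
import Pool.Agent.Lib.MP_8c2010_pr.NU.VAR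
import Pool.Agent.Lib.MP_8c2010_pr.NU.TVL
import Pool.Agent.Lib.MP_8c2010_pr.NU.REC
import Pool.Agent.Lib.MP_8c2010_pr.NU.PIN
import Pool.Agent.Lib.MP_8c2010_pr.NU.FIN
import Pool.Agent.Lib.MP_8c2010_pr.NU.MON
import Pool.Agent.Lib.MP_8c2010_pr.NU.UPP
import Pool.Agent.Lib.MP_8c2010_pr.NU.WIN
import Pool.Agent.Lib.MP_8c2010_pr.NU.LOW

set_option autoImplicit false

/-! # All modules: the four facts used by the final theorem -/

namespace Pool.Agent.Lib.MP8c2010.NU

theorem allERA : SpecERA := specERA specPTW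
theorem allCHA : SpecCHA := specCHA specSYM
theorem allMAR : SpecMAR := specMAR specJEN allERA specSYM
theorem allIND : SpecIND := specIND specJEN allERA specSYM allCHA allMAR
theorem allCTR : SpecCTR := specCTR allIND specJEN specSYM
theorem allENT0 : SpecENT0 := specENT0 specSMO allCTR
theorem allDIS : SpecDIS := specDIS specSMO specPTW
theorem allTVL : SpecTVL := specTVL specSMO allDIS specVAR
theorem allPIN : SpecPIN := specPIN specPTW
theorem allFIN : SpecFIN := specFIN specSMO allCTR allPIN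
theorem allMON : SpecMON := specMON specSMO
theorem allUPP : SpecUPP := specUPP allENT0 allFIN allMON
theorem allWIN : SpecWIN := specWIN allMON allUPP allENT0 allTVL specREC allFIN
theorem allLOW : SpecLOW := specLOW

end Pool.Agent.Lib.MP8c2010.NU
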