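import Pool.Agent.Lib.MP_8c2010_pr.NU.Spec

/-!
# NU, module JEN: Jensen's inequality for the entropy
-/

set_option autoImplicit false

namespace Pool.Agent.Lib.MP8c2010.NU

open Equiv Finset

namespace JENM

theorem entS_nonneg {ι : Type} (s : Finset ι) (a : ι → ℝ) (hs : s.Nonempty)
    (ha : ∀ i ∈ s, 0 ≤ a i) : 0 ≤ entS s a := by
  have hN : (0 : ℝ) < s.card := by exact_mod_cast hs.card_pos
  have h := Real.convexOn_mul_log.map_sum_le (t := s) (w := fun _ => 1 / (s.card : ℝ)) (p := a)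
    (fun i _ => by positivity) (by rw [sum_const, nsmul_eq_mul]; field_simp)
    (fun i hi => ha i hi)
  simp only [smul_eq_mul, ← mul_sum] at h
  unfold entS phi
  rw [div_eq_mul_one_div (∑ i ∈ s, a i * Real.log (a i)), div_eq_mul_one_div (∑ i ∈ s, a i),
    mul_comm _ (1 / (s.card : ℝ)), mul_comm (∑ i ∈ s, a i) (1 / (s.card : ℝ))]
  linarith

theorem key {ι : Type} (s : Finset ι) (x A : ι → ℝ) (hs : s.Nonempty) (hx : ∀ i ∈ s, 0 ≤ x i)
    (hA : ∀ i ∈ s, 0 ≤ A i) (hxA : ∀ i ∈ s, 0 < x i → 0 < A i) {M : ℝ} (hM : 0 < M)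
    (hMA : ∑ i ∈ s, A i = s.card * M) :
    (∑ i ∈ s, x i * (Real.log (A i) - Real.log M)) / (s.card : ℝ) ≤ entS s x := by
  have hN : (0 : ℝ) < s.card := by exact_mod_cast hs.card_pos
  obtain ⟨m, hm⟩ : ∃ m : ℝ, m = (∑ i ∈ s, x i) / (s.card : ℝ) := ⟨_, rfl⟩
  have hsum : ∑ i ∈ s, x i = s.card * m := by
    rw [hm]
    field_simp
  have hm0 : 0 ≤ m := by
    rw [hm]
    exact div_nonneg (sum_nonneg hx) hN.le
  unfold entS
  rw [← hm]
  rcases hm0.eq_or_lt with h0 | h0
  · have h1 : ∀ i ∈ s, x i = 0 := by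
      rw [← h0, mul_zero] at hsum
      exact (sum_eq_zero_iff_of_nonneg hx).1 hsum
    have h2 : ∑ i ∈ s, x i * (Real.log (A i) - Real.log M) = 0 :=
      sum_eq_zero fun i hi => by rw [h1 i hi, zero_mul]
    have h3 : ∑ i ∈ s, phi (x i) = 0 :=
      sum_eq_zero fun i hi => by rw [phi, h1 i hi, zero_mul]
    rw [h2, h3, ← h0, phi]
    simp
  · have h1 : ∀ i ∈ s, x i * (Real.log (A i) - Real.log M) ≤
        phi (x i) - x i * Real.log m + m / M * A i - x i := by
      intro i hi
      rcases (hx i hi).eq_or_lt with h2 | h2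
      · rw [← h2, phi]
        have h3 : 0 ≤ m / M * A i := mul_nonneg (div_nonneg h0.le hM.le) (hA i hi)
        simp only [zero_mul, sub_zero, zero_add]
        exact h3
      · have h3 := hxA i hi h2
        have h4 := Real.log_le_sub_one_of_pos (x := m / M * A i / x i) (by positivity)
        rw [Real.log_div (by positivity) h2.ne', Real.log_mul (by positivity) h3.ne',
          Real.log_div h0.ne' hM.ne'] at h4
        have h5 := mul_le_mul_of_nonneg_left h4 h2.le
        have h6 : x i * (m / M * A i / x i - 1) = m / M * A i - x i := by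
          field_simp
        rw [h6] at h5
        rw [phi]
        linarith
    have h2 := sum_le_sum h1
    have h3 : ∑ i ∈ s, (phi (x i) - x i * Real.log m + m / M * A i - x i) =
        ∑ i ∈ s, phi (x i) - s.card * phi m := by
      rw [sum_sub_distrib, sum_add_distrib, sum_sub_distrib, ← sum_mul, ← mul_sum, hMA, hsum, phi]
      field_simp
      ring
    rw [h3] at h2
    rw [div_le_iff₀ hN, sub_mul, div_mul_cancel₀ _ hN.ne']
    linarith

end JENM

open JENM in
theorem specJEN : SpecJEN := by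
  refine ⟨fun ι s a hs ha => entS_nonneg s a hs ha, fun ι κ s t a hs ht ha => ?_⟩
  have hN : (0 : ℝ) < s.card := by exact_mod_cast hs.card_pos
  have hT : (0 : ℝ) < t.card := by exact_mod_cast ht.card_pos
  obtain ⟨A, hA⟩ : ∃ A : ι → ℝ, A = fun i => (∑ k ∈ t, a k i) / (t.card : ℝ) := ⟨_, rfl⟩
  rw [← hA]
  have hA0 : ∀ i ∈ s, 0 ≤ A i := by
    intro i hi
    rw [hA]
    exact div_nonneg (sum_nonneg fun k hk => ha k hk i hi) hT.le
  obtain ⟨M, hM⟩ : ∃ M : ℝ, M = (∑ i ∈ s, A i) / (s.card : ℝ) := ⟨_, rfl⟩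
  have hsum : ∑ i ∈ s, A i = s.card * M := by
    rw [hM]
    field_simp
  have hM0 : 0 ≤ M := by
    rw [hM]
    exact div_nonneg (sum_nonneg hA0) hN.le
  rcases hM0.eq_or_lt with h0 | h0
  · have h1 : ∀ i ∈ s, A i = 0 := by
      rw [← h0, mul_zero] at hsum
      exact (sum_eq_zero_iff_of_nonneg hA0).1 hsum
    have h2 : entS s A = 0 := by
      unfold entS
      rw [← hM, ← h0, sum_eq_zero fun i hi => by rw [phi, h1 i hi, zero_mul], phi]
      simp
    rw [h2]
    exact div_nonneg (sum_nonneg fun k hk => entS_nonneg s _ hs (ha k hk)) hT.le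
  · have h1 : ∀ k ∈ t, (∑ i ∈ s, a k i * (Real.log (A i) - Real.log M)) / (s.card : ℝ) ≤
        entS s (a k) := by
      intro k hk
      refine key s (a k) A hs (ha k hk) hA0 (fun i hi hpos => ?_) h0 hsum
      rw [hA]
      exact div_pos (sum_pos' (fun k hk => ha k hk i hi) ⟨k, hk, hpos⟩) hT
    have h2 := sum_le_sum h1
    rw [le_div_iff₀ hT]
    refine le_trans (le_of_eq ?_) h2
    have h3 : entS s A = (∑ i ∈ s, A i * (Real.log (A i) - Real.log M)) / (s.card : ℝ) := by
      unfold entS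
      rw [← hM]
      simp only [mul_sub, sum_sub_distrib]
      rw [← sum_mul, hsum]
      simp only [phi]
      rw [sub_div, mul_assoc, mul_div_cancel_left₀ _ hN.ne']
    rw [h3, ← sum_div, div_mul_eq_mul_div]
    congr 1
    rw [sum_comm, sum_mul]
    refine sum_congr rfl fun i _ => ?_
    rw [← sum_mul]
    have h4 : ∑ k ∈ t, a k i = A i * t.card := by
      rw [hA]
      exact (div_mul_cancel₀ _ hT.ne').symm
    rw [h4]
    ring

end Pool.Agent.Lib.MP8c2010.NU
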