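import Mathlib

set_option autoImplicit false

/-! # Cutoff for ALL nearly uniform random transposition walks: definitions and module statements

Overview of the proof (complete, elementary). Weights `p i j` on ordered pairs with
`c/n^2 ≤ p i j ≤ C/n^2`, sum 1. One step: `σ -> σ * swap i j` with probability `p i j`.
`dens p t` = density (with respect to the uniform law) of the walk started at 1 after `t` steps,
`sm p t` = its geometric smoothing, `Dk p t` = relative entropy of `sm p t`.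
(1) Ent f ≤ (9/4) sum_k E Ent_j f(σ * swap k j)  (IND), hence Dk (t+1) ≤ (1 - 4c/(9n)) Dk t (CTR).
(2) local Poincare inequality (VAR), dissipation (DIS), so that log (sm p t) is concentrated under
the walk unless Dk drops fast; if the total variation distance is at most 1 - ε it cannot be
concentrated at a large value (TVL). So Dk drops to (log n)^3 in n steps (REC).
(3) entropy contraction finishes (FIN). Everything takes n * (1 + log (1 + log n)) steps, while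
the mixing times are of order n log n (UPP, LOW). -/

namespace Pool.Agent.Lib.MP8c2010.NU

open Equiv Finset

/-- the function x log x (value 0 at 0, since log 0 = 0) -/
noncomputable def phi (x : ℝ) : ℝ := x * Real.log x

/-- entropy of `a` for the uniform law on the finite set `s` -/
noncomputable def entS {ι : Type} (s : Finset ι) (a : ι → ℝ) : ℝ :=
  (∑ i ∈ s, phi (a i)) / (s.card : ℝ) - phi ((∑ i ∈ s, a i) / (s.card : ℝ))

/-- average over all permutations -/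
noncomputable def EU {n : ℕ} (f : Perm (Fin n) → ℝ) : ℝ := (∑ σ, f σ) / (n.factorial : ℝ)

/-- entropy with respect to the uniform law on the permutations -/
noncomputable def ent {n : ℕ} (f : Perm (Fin n) → ℝ) : ℝ := EU (fun σ => phi (f σ)) - phi (EU f)

/-- permutations which fix everything outside `A` -/
def SymA {n : ℕ} (A : Finset (Fin n)) : Finset (Perm (Fin n)) :=
  Finset.univ.filter (fun π => ∀ x, x ∉ A → π x = x)

/-- the star functional of `f` on `SymA A` -/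
noncomputable def starS {n : ℕ} (A : Finset (Fin n)) (f : Perm (Fin n) → ℝ) : ℝ :=
  ∑ k ∈ A, (∑ π ∈ SymA A, entS A (fun j => f (π * swap k j))) / ((SymA A).card : ℝ)

/-- the transition operator of the walk -/
noncomputable def Pop {n : ℕ} (p : Fin n → Fin n → ℝ) (f : Perm (Fin n) → ℝ)
    (σ : Perm (Fin n)) : ℝ := ∑ i, ∑ j, p i j * f (σ * swap i j)

/-- nearly uniform weights with constants `c`, `C` -/
structure NearlyUniform {n : ℕ} (c C : ℝ) (p : Fin n → Fin n → ℝ) : Prop where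
  lower : ∀ i j, c / (n : ℝ) ^ 2 ≤ p i j
  upper : ∀ i j, p i j ≤ C / (n : ℝ) ^ 2
  total : ∑ i, ∑ j, p i j = 1

/-- density with respect to the uniform law of the walk started at 1 after `t` steps -/
noncomputable def dens {n : ℕ} (p : Fin n → Fin n → ℝ) : ℕ → Perm (Fin n) → ℝ
  | 0 => fun σ => if σ = 1 then (n.factorial : ℝ) else 0
  | t + 1 => Pop p (dens p t)

/-- geometric smoothing of the density -/
noncomputable def sm {n : ℕ} (p : Fin n → Fin n → ℝ) (t : ℕ) (σ : Perm (Fin n)) : ℝ :=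
  ∑' m : ℕ, (1 / 2 : ℝ) ^ (m + 1) * dens p (t + m) σ

/-- total variation distance to the uniform law after `t` steps -/
noncomputable def tv {n : ℕ} (p : Fin n → Fin n → ℝ) (t : ℕ) : ℝ :=
  (1 / 2) * EU (fun σ => |dens p t σ - 1|)

/-- relative entropy of the smoothed density -/
noncomputable def Dk {n : ℕ} (p : Fin n → Fin n → ℝ) (t : ℕ) : ℝ := ent (sm p t)

/-- the logarithmic Lipschitz constant (for two swaps) -/
noncomputable def LL (n : ℕ) (c : ℝ) : ℝ := 2 * Real.log (2 * (n : ℝ) ^ 2 / c)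

/-! ## Part A: the entropy inequality on permutations -/

/-- PTW (pointwise inequalities, 80 lines). Write h x = x log x - x + 1.
(1) h ≥ 0: log x ≥ 1 - 1/x, i.e. `Real.one_sub_inv_le_log_of_pos` (x = 0: h = 1).
(2) (x-1)^2 ≤ (x+2) h(x) for x ≥ 0. For x ≥ 1: log x ≥ 2(x-1)/(x+1) (Mathlib, or: the derivative of
log x - 2(x-1)/(x+1) is (x-1)^2/(x (x+1)^2) ≥ 0), hence h ≥ (x-1)^2/(x+1). For 0 ≤ x ≤ 1:
h(x) ≥ (x-1)^2/2 : x = 0 is clear; g(x) = x log x - x + 1 - (x-1)^2/2 has g(1) = 0 and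
g'(x) = log x - (x - 1) ≤ 0 on (0,1], so g ≥ 0.
(3) (x-1)^2 ≤ (m+1) h(x) for 0 ≤ x ≤ m, m ≥ 1: the same two cases.
(4) (log x)^2 ≤ 6 L^2 h(x) for x > 0, |log x| ≤ L, 1 ≤ L. Put u = log x, H(u) = u e^u - e^u + 1,
H'(u) = u e^u. u ≥ 0: H(u) ≥ u^2/2 (the difference has derivative u(e^u - 1) ≥ 0). u ≤ 0: H is
antitone on (-∞,0]; for -1 ≤ u ≤ 0: H(u) ≥ u^2/6 (derivative of H - u^2/6 is u(e^u - 1/3) ≤ 0 as
e^u ≥ e^(-1) > 1/3, value 0 at 0), and for u ≤ -1: H(u) ≥ H(-1) ≥ 1/6, so u^2 ≤ L^2 ≤ 6 L^2 H(u). -/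
def SpecPTW : Prop :=
  (∀ x : ℝ, 0 ≤ x → 0 ≤ phi x - x + 1) ∧
  (∀ x : ℝ, 0 ≤ x → (x - 1) ^ 2 ≤ (x + 2) * (phi x - x + 1)) ∧
  (∀ x m : ℝ, 0 ≤ x → x ≤ m → 1 ≤ m → (x - 1) ^ 2 ≤ (m + 1) * (phi x - x + 1)) ∧
  (∀ x L : ℝ, 0 < x → |Real.log x| ≤ L → 1 ≤ L →
    (Real.log x) ^ 2 ≤ 6 * L ^ 2 * (phi x - x + 1))

/-- JEN (Jensen for the entropy, 80 lines). (1) entS ≥ 0 for a nonempty set and nonnegative a
(convexity of phi on [0,∞), `Real.convexOn_mul_log`, `ConvexOn.map_sum_le`).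
(2) convexity of the entropy: the entropy of an average of functions is at most the average of the
entropies. PROOF: for nonnegative x_i > 0 ... use the homogeneous function
H(x,m) = x log (x/m) (0 if x = 0), jointly convex: log sum inequality. Or: entS s a =
sup over b > 0 with mean 1 of mean (a log b); simplest: with b_i = A_i / (mean A) where A = average
of the a_k (if mean A = 0 all is 0): entS s A = mean_i A_i log b_i (terms with A_i = 0 vanish)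
= average_k mean_i a_k i log b_i, and for every k: mean_i a_k i * log b_i ≤ entS s (a_k): this is
x log b ≤ x log (x/m) + m b - x for x ≥ 0, m = mean of a_k, m > 0, b > 0 (from
log (m b / x) ≤ m b / x - 1), summed with mean b = 1; (if b_i = 0 then a_k i = 0 for all k). -/
def SpecJEN : Prop :=
  (∀ (ι : Type) (s : Finset ι) (a : ι → ℝ), s.Nonempty → (∀ i ∈ s, 0 ≤ a i) → 0 ≤ entS s a) ∧
  (∀ (ι κ : Type) (s : Finset ι) (t : Finset κ) (a : κ → ι → ℝ), s.Nonempty → t.Nonempty →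
    (∀ k ∈ t, ∀ i ∈ s, 0 ≤ a k i) →
    entS s (fun i => (∑ k ∈ t, a k i) / (t.card : ℝ)) ≤ (∑ k ∈ t, entS s (a k)) / (t.card : ℝ))

/-- ERA (removing one point, 120 lines; uses PTW (3)). N = card s, A = mean of a on s,
m_i = mean of a on s minus i = (N A - a_i)/(N-1).
(1) mean_i entS (s.erase i) a = mean_i [mean_(j ≠ i) phi(a_j) - phi(m_i)] = mean_j phi(a_j) -
mean_i phi(m_i) (double sum: each j occurs N-1 times) ≤ mean phi(a) - phi(mean m_i) and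
mean_i m_i = A (Jensen).
(2) if A = 0 all is 0. Otherwise x_i = a_i/A ∈ [0,N], mean 1, entS s a = A mean h(x_i)
(h = phi - x + 1), and by (1) entS s a = mean_i entS (s.erase i) a + [mean_i phi(m_i) - phi(A)].
With y_i = m_i/A = (N - x_i)/(N-1), mean 1: mean phi(m_i) - phi(A) = A mean phi(y_i)
≤ A mean (y_i^2 - y_i) (log y ≤ y - 1) = A mean (y_i - 1)^2 = A mean (x_i-1)^2/(N-1)^2
≤ A (N+1)/(N-1)^2 mean h(x_i) = (N+1)/(N-1)^2 entS s a ≤ (5/9) entS s a for N ≥ 4. -/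
def SpecERA : Prop :=
  ∀ (ι : Type) [DecidableEq ι] (s : Finset ι) (a : ι → ℝ), (∀ i ∈ s, 0 ≤ a i) →
    (2 ≤ s.card → (∑ i ∈ s, entS (s.erase i) a) / (s.card : ℝ) ≤ entS s a) ∧
    (4 ≤ s.card → entS s a ≤ (9 / 4) * ((∑ i ∈ s, entS (s.erase i) a) / (s.card : ℝ)))

/-- SYM (summation over SymA, 120 lines). i ∈ A.
(1) π ↦ (π i, swap i (π i) * π) is a bijection SymA A → A × SymA (A.erase i), inverse
(v, π) ↦ swap i v * π.
(2) hence card (SymA A) = card A * card (SymA (A.erase i)).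
(3) for v ∈ A: ρ = π * swap i (π⁻¹ v) lies in SymA A, ρ i = v, and every ρ with ρ i = v comes from
exactly card A elements π = ρ * swap i j, j ∈ A (then π⁻¹ v = j); and the ρ with ρ i = v are the
swap i v * π, π ∈ SymA (A.erase i).
(4) for v0 ≠ v in A: π ↦ ρ = π * swap i (π⁻¹ v) is a bijection from {π ∈ SymA A, π i = v0} to
{ρ ∈ SymA A, ρ i = v}, inverse ρ ↦ ρ * swap i (ρ⁻¹ v0).
(5) π ∈ SymA A maps A bijectively to itself.
(6) SymA univ = univ, card = n!. (7) 1 ∈ SymA A. -/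
def SpecSYM : Prop :=
  (∀ (n : ℕ) (A : Finset (Fin n)) (i : Fin n), i ∈ A → ∀ g : Perm (Fin n) → ℝ,
    ∑ π ∈ SymA A, g π = ∑ v ∈ A, ∑ π ∈ SymA (A.erase i), g (swap i v * π)) ∧
  (∀ (n : ℕ) (A : Finset (Fin n)) (i : Fin n), i ∈ A →
    (SymA A).card = A.card * (SymA (A.erase i)).card) ∧
  (∀ (n : ℕ) (A : Finset (Fin n)) (i v : Fin n), i ∈ A → v ∈ A → ∀ g : Perm (Fin n) → ℝ,
    ∑ π ∈ SymA A, g (π * swap i (π⁻¹ v)) =
      (A.card : ℝ) * ∑ π ∈ SymA (A.erase i), g (swap i v * π)) ∧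
  (∀ (n : ℕ) (A : Finset (Fin n)) (i v0 v : Fin n), i ∈ A → v0 ∈ A → v ∈ A → v ≠ v0 →
    ∀ g : Perm (Fin n) → ℝ,
    ∑ π ∈ SymA (A.erase i), g ((swap i v0 * π) * swap i ((swap i v0 * π)⁻¹ v)) =
      ∑ π ∈ SymA (A.erase i), g (swap i v * π)) ∧
  (∀ (n : ℕ) (A : Finset (Fin n)) (π : Perm (Fin n)), π ∈ SymA A →
    A.image (fun x => π x) = A ∧ A.image (fun x => π⁻¹ x) = A) ∧
  (∀ n : ℕ, SymA (Finset.univ : Finset (Fin n)) = Finset.univ ∧
    (SymA (Finset.univ : Finset (Fin n))).card = n.factorial) ∧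
  (∀ (n : ℕ) (A : Finset (Fin n)), (1 : Perm (Fin n)) ∈ SymA A)

/-- the marginal of `f` at the position `i`: average of `f` over the π ∈ SymA A with π i = v -/
noncomputable def marg {n : ℕ} (A : Finset (Fin n)) (i : Fin n) (f : Perm (Fin n) → ℝ)
    (v : Fin n) : ℝ :=
  (∑ π ∈ SymA (A.erase i), f (swap i v * π)) / ((SymA (A.erase i)).card : ℝ)

/-- CHA (chain rule, 60 lines; uses SYM). entS (SymA A) f = mean over v ∈ A of
entS (SymA (A.erase i)) (π ↦ f (swap i v * π)) + entS A (marg A i f): expand, use SYM (1), (2). -/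
def SpecCHA : Prop :=
  ∀ (n : ℕ) (A : Finset (Fin n)) (i : Fin n), i ∈ A → ∀ f : Perm (Fin n) → ℝ,
    entS (SymA A) f = (∑ v ∈ A, entS (SymA (A.erase i)) (fun π => f (swap i v * π))) /
      (A.card : ℝ) + entS A (marg A i f)

/-- MAR (bounds for the marginal, 150 lines; uses JEN, ERA, SYM). For π ∈ SymA A put
b_π v = f (π * swap i (π⁻¹ v)), v ∈ A.
(1) by SYM (3) the average of b_π v over π ∈ SymA A is marg A i f v (for v ∈ A), so by JEN (2)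
entS A (marg A i f) ≤ average over π of entS A b_π, and entS A b_π = entS A (j ↦ f (π * swap i j))
(reindex v = π j, SYM (5)).
(2) fix v0 ∈ A and average over the π = swap i v0 * π', π' ∈ SymA (A.erase i) (these are the π with
π i = v0): by SYM (4) the average of b_π v is marg A i f v for all v ∈ A.erase v0, so by JEN (2)
entS (A.erase v0) (marg A i f) ≤ average of entS (A.erase v0) b_π = average of
entS (A.erase i) (j ↦ f (π * swap i j)) (v = π j, and π j = v0 iff j = i). Average over v0 ∈ A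
(SYM (1)) and use ERA (2). (card A ≥ 4.) -/
def SpecMAR : Prop :=
  ∀ (n : ℕ) (A : Finset (Fin n)) (i : Fin n), i ∈ A → ∀ f : Perm (Fin n) → ℝ, (∀ σ, 0 ≤ f σ) →
    (entS A (marg A i f) ≤
      (∑ π ∈ SymA A, entS A (fun j => f (π * swap i j))) / ((SymA A).card : ℝ)) ∧
    (4 ≤ A.card → entS A (marg A i f) ≤ (9 / 4) *
      ((∑ π ∈ SymA A, entS (A.erase i) (fun j => f (π * swap i j))) / ((SymA A).card : ℝ)))

/-- IND (the induction, 200 lines; uses JEN, ERA, SYM, CHA, MAR). Let K(N) be the statement with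
constant κ: for all A with card A = N and all f ≥ 0: entS (SymA A) f ≤ κ starS A f. N = 1: both
sides 0, κ = 0. STEP from N-1 (constant κ ≥ 0) to N ≥ 2: by CHA, averaged over i ∈ A,
entS (SymA A) f = (1/N) sum_i { mean_v entS (SymA (A.erase i)) (f (swap i v * ·)) +
entS A (marg A i f) }. Induction hypothesis for A.erase i and every f (swap i v * ·) and SYM (1):
mean_v entS(..) ≤ κ sum_(k ∈ A.erase i) mean_(π ∈ SymA A) entS (A.erase i) (j ↦ f (π * swap k j)).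
For fixed k and π, a_j = f (π * swap k j): (1/N) sum_(i ≠ k) entS (A.erase i) a =
(1/N) sum_(i ∈ A) entS (A.erase i) a - (1/N) entS (A.erase k) a ≤ entS A a - (1/N) entS (A.erase k) a
(ERA (1)). So, with S = starS A f and S' = sum_k mean_π entS (A.erase k) (j ↦ f (π * swap k j)) ≥ 0,
entS (SymA A) f ≤ κ S - (κ/N) S' + (1/N) sum_i entS A (marg A i f).
Crude: the last sum is ≤ S (MAR (1)), constant κ + 1/N: N = 2: 1/2, N = 3: 5/6 ≤ 9/4.
Refined, N ≥ 4, κ = 9/4: the last sum is ≤ (9/4) S' (MAR (2)), so the constant 9/4 is kept. -/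
def SpecIND : Prop :=
  ∀ (n : ℕ) (A : Finset (Fin n)), A.Nonempty → ∀ f : Perm (Fin n) → ℝ, (∀ σ, 0 ≤ f σ) →
    entS (SymA A) f ≤ (9 / 4) * starS A f

/-- CTR (entropy contraction, 150 lines; uses IND, JEN, SYM). n ≥ 1. EU (Pop p g) = EU g (shift by a
swap, total weight 1). So ent f - ent (Pop p f) = EU (σ ↦ E_p(σ)), E_p(σ) = sum_ij p_ij phi(a_ij) -
phi(sum p_ij a_ij), a_ij = f (σ * swap i j). For q_ij = 1/n^2: E_p ≥ c E_q, since
E_p = min over m > 0 of sum p_ij (a_ij log (a_ij/m) - a_ij + m), every bracket ≥ 0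
(x log (x/m) - x + m ≥ 0), so E_p ≥ with m = sum p a: sum p (..) ≥ c sum q (..) ≥ c E_q (if
sum p a = 0 all a = 0; here p ≥ c q > 0). And E_q = mean_(k,j) phi(a_kj) - phi(mean) ≥
mean_k [mean_j phi(a_kj) - phi(mean_j a_kj)] (Jensen over k) = mean_k entS univ (a_k). So
ent f - ent (Pop p f) ≥ (c/n) sum_k EU (entS univ (j ↦ f (σ * swap k j))) = (c/n) starS univ f
≥ (4c/(9n)) ent f. Second statement: iterate, 0 ≤ ent and (1-x)^s ≤ exp(-x s) if 1 - x ≥ 0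
(4c/(9n) ≤ 1 as c ≤ 1, because the total weight is 1), ent (Pop^s f). Third: ent ≥ 0. -/
def SpecCTR : Prop :=
  ∀ (n : ℕ) (c C : ℝ) (p : Fin n → Fin n → ℝ), 1 ≤ n → 0 < c → NearlyUniform c C p →
    (∀ f : Perm (Fin n) → ℝ, (∀ σ, 0 ≤ f σ) → 0 ≤ ent f ∧
      ent (Pop p f) ≤ (1 - 4 * c / (9 * n)) * ent f) ∧
    (∀ f : Perm (Fin n) → ℝ, (∀ σ, 0 ≤ f σ) → ∀ s : ℕ,
      ent ((Pop p)^[s] f) ≤ Real.exp (-(4 * c * s / (9 * n))) * ent f)

/-! ## Part B: the walk -/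

/-- SMO (basic facts on the densities, 200 lines). n ≥ 2, 0 < c, NearlyUniform c C p.
(1) dens ≥ 0, EU (dens t) = 1 (EU (Pop p g) = EU g), so dens ≤ n!. (2) sm: summable (0 ≤ dens ≤ n!),
sm t σ = (1/2) dens t σ + (1/2) sm (t+1) σ (shift the series), sm (t+1) = Pop p (sm t) (finite sums
commute with tsum), EU (sm t) = 1, 0 ≤ sm. (3) sm t σ ≥ (1/2) dens t σ and
sm t σ ≥ (1/2) sm (t+1) σ = (1/2) Pop p (sm t) σ ≥ (1/2)(c/n^2) sm t (σ * swap i j). So sm > 0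
everywhere (EU = 1: positive somewhere; swaps generate all permutations:
`Equiv.Perm.swap_induction_on` or induction), and
|log sm t (σ * swap i j) - log sm t σ| ≤ log (2 n^2/c) = LL n c / 2 (both directions, the swap is an
involution). (4) c ≤ 1 ≤ C and 1 ≤ LL n c: sum of p is 1, log (2 n^2/c) ≥ log 8 ≥ 1/2 ... -/
def SpecSMO : Prop :=
  ∀ (n : ℕ) (c C : ℝ) (p : Fin n → Fin n → ℝ), 2 ≤ n → 0 < c → NearlyUniform c C p →
    c ≤ 1 ∧ 1 ≤ C ∧ 1 ≤ LL n c ∧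
    (∀ f : Perm (Fin n) → ℝ, EU (Pop p f) = EU f) ∧
    (∀ t σ, 0 ≤ dens p t σ) ∧ (∀ t, EU (dens p t) = 1) ∧
    (∀ t σ, 0 < sm p t σ) ∧ (∀ t, EU (sm p t) = 1) ∧
    (∀ t σ, sm p t σ = (1 / 2) * dens p t σ + (1 / 2) * sm p (t + 1) σ) ∧
    (∀ t, sm p (t + 1) = Pop p (sm p t)) ∧
    (∀ t σ i j, |Real.log (sm p t (σ * swap i j)) - Real.log (sm p t σ)| ≤ LL n c / 2)

/-- ENT0 (size of the entropy, 60 lines; uses SMO, CTR). 0 ≤ Dk, Dk (t+1) ≤ (1 - 4c/(9n)) Dk t ≤ Dk t,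
Dk t ≤ log n! ≤ n log n, because 0 ≤ sm ≤ n! (EU sm = 1), so phi (sm) ≤ sm log n!; phi 1 = 0;
n! ≤ n^n. Dk (t+s) ≤ exp(-(4 c s/(9 n))) Dk t (sm (t+s) is the s-fold image of sm t). -/
def SpecENT0 : Prop :=
  ∀ (n : ℕ) (c C : ℝ) (p : Fin n → Fin n → ℝ), 2 ≤ n → 0 < c → NearlyUniform c C p →
    (∀ t, 0 ≤ Dk p t) ∧ (∀ t, Dk p (t + 1) ≤ Dk p t) ∧ (∀ t, Dk p t ≤ n * Real.log n) ∧
    (∀ t s : ℕ, Dk p (t + s) ≤ Real.exp (-(4 * c * s / (9 * n))) * Dk p t)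

/-- DIS (dissipation controls the logarithmic gradient, 120 lines; uses SMO, PTW). With
a_ij = sm t (τ * swap i j), m = sm (t+1) τ = sum p_ij a_ij > 0, x_ij = a_ij/m, sum p_ij x_ij = 1:
Dk t - Dk (t+1) = EU phi(sm t) - EU phi(sm (t+1)) (phi 1 = 0) = EU_τ [sum p_ij phi(a_ij) - phi(m)]
(EU (Pop p g) = EU g for g = phi ∘ sm t) = EU_τ [m sum p_ij (phi(x_ij) - x_ij + 1)]. By SMO the
numbers log a_ij lie within LL/2 of log (sm t τ), hence so does log m (m is an average), so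
|log x_ij| ≤ LL, and PTW (4) with L = LL n c gives the claim. -/
def SpecDIS : Prop :=
  ∀ (n : ℕ) (c C : ℝ) (p : Fin n → Fin n → ℝ), 2 ≤ n → 0 < c → NearlyUniform c C p → ∀ t : ℕ,
    EU (fun τ => sm p (t + 1) τ * ∑ i, ∑ j, p i j *
      (Real.log (sm p t (τ * swap i j)) - Real.log (sm p (t + 1) τ)) ^ 2) ≤
      6 * (LL n c) ^ 2 * (Dk p t - Dk p (t + 1))

/-- VAR (local Poincare inequality, 200 lines). Let E_s(F) = EU (dens s * F) = expectation of F after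
s steps from 1; E_s (Pop p G) = E_(s+1) G. MARTINGALE: with F_r = (Pop p)^[r] F,
E_t(F^2) - (E_t F)^2 = sum_(s=1..t) E_(s-1) [Pop p (F_(t-s)^2) - (Pop p F_(t-s))^2]
(telescope: E_(s-1)(Pop(G^2)) = E_s(G^2), G = F_(t-s), Pop G = F_(t-s+1)). For fixed A:
Pop p (G^2)(A) - (Pop p G (A))^2 is the variance over (i,j) ~ p of G (A * swap i j) =
E_(B ~ step t-s) F (A * swap i j * B) [ (Pop^[r] F)(A) = EU_B (dens r B * F (A * B)), induction ].
By convexity of the variance (Cauchy-Schwarz) it is at most E_B of the variance over (i,j) of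
F (A * swap i j * B), which is ≤ E_B sum p_ij (F (A * swap i j * B) - Φ (A * B))^2. Now
A * swap i j * B = (A * B) * swap (B⁻¹ i) (B⁻¹ j); substituting i = B i', j = B j' the sum becomes
sum p_(B i')(B j') (F (A B swap i' j') - Φ (A B))^2 ≤ (C/c) ψ (A B), ψ as below (p ≤ C/n^2 ≤ (C/c) p).
Finally E_(A ~ s-1) E_(B ~ t-s) ψ (A B) = E_(t-1) ψ for each of the t values of s. -/
def SpecVAR : Prop :=
  ∀ (n : ℕ) (c C : ℝ) (p : Fin n → Fin n → ℝ), 1 ≤ n → 0 < c → NearlyUniform c C p →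
    ∀ (F Φ : Perm (Fin n) → ℝ) (t : ℕ),
    EU (fun σ => dens p (t + 1) σ * F σ ^ 2) - (EU (fun σ => dens p (t + 1) σ * F σ)) ^ 2 ≤
      (C / c) * (t + 1) * EU (fun τ => dens p t τ *
        ∑ i, ∑ j, p i j * (F (τ * swap i j) - Φ τ) ^ 2)

/-- TVL (large total variation or fast drop, 200 lines; uses SMO, DIS, VAR). L = LL n c, F = log sm s,
Φ = log sm (s+1), M = E_(s+2) F (E_t as in VAR), x = Dk s.
(a) V := Var_(s+2)(F) ≤ (C/c)(s+2) E_(s+1) ψ, ψ(τ) = sum p (F(τ swap) - Φ τ)^2, dens (s+1) ≤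
2 sm (s+1) (SMO), so V ≤ 2 (C/c)(s+2) EU(sm (s+1) ψ) ≤ 12 (C/c)(s+2) L^2 (Dk s - Dk (s+1)) (DIS).
(b) M ≥ x - 3L/2: x = EU (sm s * F) (phi 1 = 0); sm s = (1/2) dens s + (1/2) sm (s+1) and
EU (sm (s+1) F) = EU (sm s * Pop p F) ≤ EU (sm s F) + L/2 (self-adjointness, |F(σ swap) - F σ| ≤ L/2),
so x ≤ E_s F + L/2, and E_s F ≤ E_(s+1) F + L/2 ≤ E_(s+2) F + L.
(c) with x ≥ 3L + 4 log(2/ε): M ≥ x/2 and M ≥ 2 log(2/ε). Event G = {F ≥ M/2} = {sm s ≥ e^(M/2)}: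
uniform probability ≤ e^(-M/2) ≤ ε/2 (Markov, EU sm = 1); walk probability ≥ 1 - 4V/M^2 (Chebyshev).
1 - ε ≥ tv (s+2) ≥ E_(s+2) 1_G - EU 1_G ≥ 1 - 4V/M^2 - ε/2 (tv dominates: EU ((dens - 1) 1_G) ≤
EU (dens-1)^+ = tv). So 4V ≥ (ε/2) M^2 ≥ (ε/8) x^2, V ≥ ε x^2/32; combine with (a). -/
def SpecTVL : Prop :=
  ∀ (n : ℕ) (c C ε : ℝ) (p : Fin n → Fin n → ℝ), 2 ≤ n → 0 < c → NearlyUniform c C p →
    0 < ε → ε < 1 → ∀ s : ℕ, tv p (s + 2) ≤ 1 - ε →
    3 * LL n c + 4 * Real.log (2 / ε) ≤ Dk p s →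
    ε * c * (Dk p s) ^ 2 ≤ 384 * C * (s + 2) * (LL n c) ^ 2 * (Dk p s - Dk p (s + 1))

/-- REC (numerical recursion, 60 lines). x nonincreasing, x ≥ 0; for t0 ≤ s < t0 + m: either
x s < X or x s ^ 2 ≤ K (x s - x (s+1)). Then x (t0 + m) ≤ X + K/m. PROOF: if x s < X for one s in the
range then x (t0+m) ≤ x s < X. Otherwise (X > 0, so all x s > 0 in the range; if x (t0+m) = 0 fine):
1/x(s+1) ≥ 1/x s + 1/K, because 1/x(s+1) - 1/x s = (x s - x(s+1))/(x s x(s+1)) ≥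
(x s)^2/(K x s x(s+1)) ≥ 1/K. Sum: 1/x(t0+m) ≥ m/K. -/
def SpecREC : Prop :=
  ∀ (x : ℕ → ℝ) (X K : ℝ) (t0 m : ℕ), 0 < X → 0 < K → 1 ≤ m → (∀ s, 0 ≤ x s) →
    (∀ s, x (s + 1) ≤ x s) →
    (∀ s, t0 ≤ s → s < t0 + m → x s < X ∨ x s ^ 2 ≤ K * (x s - x (s + 1))) →
    x (t0 + m) ≤ X + K / m

/-- PIN (weak Pinsker inequality, 50 lines; uses PTW). f ≥ 0, EU f = 1:
EU |f - 1| ≤ EU (sqrt (f+2) sqrt (h f)), h x = phi x - x + 1 (PTW (2)), Cauchy-Schwarz: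
(EU |f-1|)^2 ≤ EU (f+2) EU (h f) = 3 ent f. -/
def SpecPIN : Prop :=
  ∀ (n : ℕ) (f : Perm (Fin n) → ℝ), (∀ σ, 0 ≤ f σ) → EU f = 1 →
    (EU (fun σ => |f σ - 1|)) ^ 2 ≤ 3 * ent f

/-- FIN (small smoothed entropy gives mixing, 180 lines; uses SMO, CTR, PIN). Dk k ≤ η ≤ 1/48.
d1 = EU |sm k - 1| ≤ sqrt (3η) ≤ 1/4. G = {sm k ≤ 2}; b := EU (dens k; not G) ≤ 2 EU (sm k; sm k > 2)
≤ 4 EU (sm k - 1)^+ = 2 d1 ≤ 1/2. g = dens k on G, 0 else: g ≤ 2 sm k ≤ 4, EU g = 1 - b ≥ 1/2.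
g1 = g/(1-b) is a density ≤ 8, so ent g1 ≤ log 8. dens (k+s) = Pop^s dens k = (1-b) Pop^s g1 + r,
r ≥ 0, EU r = b. EU |dens (k+s) - 1| ≤ (1-b) EU |Pop^s g1 - 1| + 2b ≤
sqrt (3 exp(-(4cs/(9n))) log 8) + 4 sqrt(3η). Half of it is tv. -/
def SpecFIN : Prop :=
  ∀ (n : ℕ) (c C η : ℝ) (p : Fin n → Fin n → ℝ), 2 ≤ n → 0 < c → NearlyUniform c C p →
    0 ≤ η → η ≤ 1 / 48 → ∀ k s : ℕ, Dk p k ≤ η →
    tv p (k + s) ≤ 2 * Real.sqrt (3 * η) +
      Real.sqrt (3 * (Real.exp (-(4 * c * s / (9 * n))) * Real.log 8)) / 2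

/-- MON (total variation is nonincreasing, 40 lines; uses SMO): |Pop p f - 1| = |Pop p (f - 1)| ≤
Pop p |f - 1| and EU (Pop p g) = EU g. Also 0 ≤ tv ≤ 1. -/
def SpecMON : Prop :=
  ∀ (n : ℕ) (c C : ℝ) (p : Fin n → Fin n → ℝ), 2 ≤ n → 0 < c → NearlyUniform c C p →
    (∀ t, tv p (t + 1) ≤ tv p t) ∧ (∀ t, 0 ≤ tv p t) ∧ (∀ t, tv p t ≤ 1)

/-- UPP (mixing in order n log n, 100 lines; uses ENT0, FIN, MON). For c, ε there is K with
tv p t ≤ ε whenever t ≥ K n (1 + log n): choose η = min (1/48) (ε^2/48) (so 2 sqrt(3η) ≤ ε/2), k steps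
make Dk ≤ exp(-(4ck/(9n))) n log n ≤ η for k ≥ K1 n (1 + log n), then s ≥ K2 n more steps. -/
def SpecUPP : Prop :=
  ∀ (c C ε : ℝ), 0 < c → 0 < ε → ∃ K : ℝ, 0 < K ∧ ∀ (n : ℕ) (p : Fin n → Fin n → ℝ), 2 ≤ n →
    NearlyUniform c C p → ∀ t : ℕ, K * n * (1 + Real.log n) ≤ t → tv p t ≤ ε

/-- WIN (the window, 250 lines; uses MON, UPP, ENT0, TVL, REC, FIN). Given c, C, ε. Suppose
tv p t ≤ 1 - ε. If t ≥ K0 n (1 + log n) (UPP) then tv p t ≤ ε already. Otherwise start at s0 = t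
(tv p (s+2) ≤ 1 - ε for all s ≥ t, MON). For t ≤ s < t + n: Dk s < X or TVL, with
X = 3 LL + 4 log (2/ε) and 384 C (s+2) LL^2/(ε c) ≤ K := K1 n (1 + log n)^3. REC with m = n:
Dk (t+n) ≤ X + K1 (1 + log n)^3 ≤ K2 (1 + log n)^3. ENT0: after j ≥ K3 n (1 + log (1 + log n)) more
steps Dk ≤ η (η as in UPP); FIN with s ≥ K4 n. Total ≤ K n (1 + log (1 + log n)). -/
def SpecWIN : Prop :=
  ∀ (c C ε : ℝ), 0 < c → 0 < ε → ε < 1 → ∃ K : ℝ, 0 < K ∧
    ∀ (n : ℕ) (p : Fin n → Fin n → ℝ), 2 ≤ n → NearlyUniform c C p → ∀ t u : ℕ,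
      tv p t ≤ 1 - ε → t + K * n * (1 + Real.log (1 + Real.log n)) ≤ u → tv p u ≤ ε

/-- LOW (the mixing times are at least of order n log n, 250 lines). Given C ≥ 1 and ε there are
κ = 1/(8C) and n0: for n ≥ n0 and t ≤ κ n log n: tv p t > 1 - ε. PROOF (second moment for the
positions never used). Joint walk (σ, T), T = set of positions used so far: expectation operator
W 0 G σ T = G σ T, W (t+1) G σ T = sum p_ij W t G (σ * swap i j) (insert i (insert j T)).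
Facts by induction: W t (G depending on σ only) 1 ∅ = EU (dens t * G); W linear and monotone;
W t (1[X ∩ T = ∅]) 1 ∅ = q_X^t, q_X = sum over i, j ∉ X of p_ij; invariant: x ∉ T implies σ x = x.
Let N = n - card T, Fix σ = number of fixed points ≥ N. E N = sum_x q_x^t, q_x ≥ 1 - 2C/n, so for
n ≥ 4C, t ≤ n log n/(8C): q_x^t ≥ exp(-4Ct/n) ≥ n^(-1/2), E N ≥ n^(1/2). Pairs x ≠ y:
q_xy = 1 - r_xy, r_xy ≥ r_x + r_y - 2C/n^2 (r = 1 - q), so q_xy ≤ q_x q_y + 2C/n^2 ≤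
q_x q_y (1 + 8C/n^2) (q ≥ 1/2), q_xy^t ≤ q_x^t q_y^t exp(8Ct/n^2), 8Ct/n^2 ≤ log n/n ≤ 1, so
Var N ≤ E N + 2 (log n/n) (E N)^2 and P(N < n^(1/2)/2) ≤ 4/n^(1/2) + 8 log n/n. Under the uniform
law E Fix = 1, P(Fix ≥ n^(1/2)/2) ≤ 2/n^(1/2). So tv ≥ 1 - 6/n^(1/2) - 8 log n/n. -/
def SpecLOW : Prop :=
  ∀ (C ε : ℝ), 1 ≤ C → 0 < ε → ∃ κ : ℝ, 0 < κ ∧ ∃ n0 : ℕ, ∀ (n : ℕ) (c : ℝ)
    (p : Fin n → Fin n → ℝ), n0 ≤ n → 0 < c → NearlyUniform c C p → ∀ t : ℕ,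
    (t : ℝ) ≤ κ * n * Real.log n → 1 - ε < tv p t

end Pool.Agent.Lib.MP8c2010.NU
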