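import Pool.Agent.Lib.MP_8c2010_pr.NU.Spec

/-!
# VAR: the local Poincare inequality
-/

set_option autoImplicit false

namespace Pool.Agent.Lib.MP8c2010.NU

open Equiv Finset

namespace VARM

variable {n : ℕ} {p : Fin n → Fin n → ℝ}

/-- expectation after `s` steps -/
noncomputable def E (p : Fin n → Fin n → ℝ) (s : ℕ) (G : Perm (Fin n) → ℝ) : ℝ :=
  EU (fun σ => dens p s σ * G σ)

lemma selfadj (f g : Perm (Fin n) → ℝ) : ∑ σ, Pop p f σ * g σ = ∑ σ, f σ * Pop p g σ := by
  have h : ∀ i j, ∑ σ : Perm (Fin n), p i j * f (σ * swap i j) * g σ =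
      ∑ σ : Perm (Fin n), f σ * (p i j * g (σ * swap i j)) := by
    intro i j
    rw [← Equiv.sum_comp (Equiv.mulRight (swap i j))
      (fun σ : Perm (Fin n) => p i j * f (σ * swap i j) * g σ)]
    refine Finset.sum_congr rfl fun σ _ => ?_
    simp only [Equiv.coe_mulRight, mul_assoc, Equiv.swap_mul_self, mul_one]
    ring
  unfold Pop
  calc ∑ σ, (∑ i, ∑ j, p i j * f (σ * swap i j)) * g σ
      = ∑ σ, ∑ i, ∑ j, p i j * f (σ * swap i j) * g σ := by
        simp only [Finset.sum_mul]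
    _ = ∑ i, ∑ j, ∑ σ, p i j * f (σ * swap i j) * g σ := by
        rw [Finset.sum_comm]
        refine Finset.sum_congr rfl fun i _ => ?_
        rw [Finset.sum_comm]
    _ = ∑ i, ∑ j, ∑ σ : Perm (Fin n), f σ * (p i j * g (σ * swap i j)) := by
        simp only [h]
    _ = ∑ σ, ∑ i, ∑ j, f σ * (p i j * g (σ * swap i j)) := by
        symm
        rw [Finset.sum_comm]
        refine Finset.sum_congr rfl fun i _ => ?_
        rw [Finset.sum_comm]
    _ = ∑ σ, f σ * ∑ i, ∑ j, p i j * g (σ * swap i j) := by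
        simp only [Finset.mul_sum]

lemma E_succ (s : ℕ) (G : Perm (Fin n) → ℝ) : E p (s + 1) G = E p s (Pop p G) := by
  unfold E EU
  congr 1
  exact selfadj (dens p s) G

lemma E_zero (G : Perm (Fin n) → ℝ) : E p 0 G = G 1 := by
  have hf : (n.factorial : ℝ) ≠ 0 := by exact_mod_cast n.factorial_ne_zero
  unfold E EU
  simp only [dens, ite_mul, zero_mul, Finset.sum_ite_eq', Finset.mem_univ, if_true]
  field_simp

lemma E_sub (s : ℕ) (G K : Perm (Fin n) → ℝ) :
    E p s (fun σ => G σ - K σ) = E p s G - E p s K := by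
  unfold E EU
  rw [← sub_div, ← Finset.sum_sub_distrib]
  congr 1
  exact Finset.sum_congr rfl fun σ _ => by ring

lemma E_smul (s : ℕ) (a : ℝ) (G : Perm (Fin n) → ℝ) :
    E p s (fun σ => a * G σ) = a * E p s G := by
  unfold E EU
  rw [← mul_div_assoc, Finset.mul_sum]
  congr 1
  exact Finset.sum_congr rfl fun σ _ => by ring

lemma Pop_mul (A : Perm (Fin n)) (F : Perm (Fin n) → ℝ) (B : Perm (Fin n)) :
    Pop p (fun B => F (A * B)) B = Pop p F (A * B) := by
  unfold Pop
  simp only [mul_assoc]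

lemma iter_eq (r : ℕ) : ∀ (F : Perm (Fin n) → ℝ) (A : Perm (Fin n)),
    ((Pop p)^[r]) F A = E p r (fun B => F (A * B)) := by
  induction r with
  | zero => intro F A; rw [E_zero]; simp
  | succ r ih =>
    intro F A
    rw [Function.iterate_succ_apply, ih (Pop p F) A, E_succ]
    congr 1

lemma E_iter (r : ℕ) : ∀ (s : ℕ) (G : Perm (Fin n) → ℝ),
    E p s ((Pop p)^[r] G) = E p (s + r) G := by
  induction r with
  | zero => intro s G; simp
  | succ r ih =>
    intro s G
    rw [Function.iterate_succ_apply', ← E_succ, ih, add_assoc, add_comm 1 r]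

lemma Pop_nonneg (hp : ∀ i j, 0 ≤ p i j) (f : Perm (Fin n) → ℝ) (hf : ∀ σ, 0 ≤ f σ)
    (σ : Perm (Fin n)) : 0 ≤ Pop p f σ :=
  Finset.sum_nonneg fun i _ => Finset.sum_nonneg fun j _ => mul_nonneg (hp i j) (hf _)

lemma dens_nonneg (hp : ∀ i j, 0 ≤ p i j) (s : ℕ) : ∀ σ, 0 ≤ dens p s σ := by
  induction s with
  | zero => intro σ; unfold dens; split_ifs <;> positivity
  | succ s ih => intro σ; exact Pop_nonneg hp _ ih σ

lemma E_one (ht : ∑ i, ∑ j, p i j = 1) (s : ℕ) : E p s (fun _ => 1) = 1 := by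
  induction s with
  | zero => rw [E_zero]
  | succ s ih =>
    rw [E_succ]
    have : Pop p (fun _ => (1 : ℝ)) = fun _ => 1 := by
      funext σ; unfold Pop; simpa using ht
    rw [this, ih]

lemma E_mono (hp : ∀ i j, 0 ≤ p i j) (s : ℕ) {G K : Perm (Fin n) → ℝ} (h : ∀ σ, G σ ≤ K σ) :
    E p s G ≤ E p s K := by
  unfold E EU
  refine div_le_div_of_nonneg_right ?_ (by positivity)
  exact Finset.sum_le_sum fun σ _ => mul_le_mul_of_nonneg_left (h σ) (dens_nonneg hp s σ)

/-- the square of a mean is at most the mean of the square -/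
lemma E_sq (hp : ∀ i j, 0 ≤ p i j) (ht : ∑ i, ∑ j, p i j = 1) (s : ℕ) (G : Perm (Fin n) → ℝ) :
    E p s G ^ 2 ≤ E p s (fun σ => G σ ^ 2) := by
  set m := E p s G with hm
  have h0 : 0 ≤ E p s (fun σ => (G σ - m) ^ 2) := by
    have := E_mono hp s (G := fun _ => 0) (K := fun σ => (G σ - m) ^ 2) (fun σ => sq_nonneg _)
    have hz : E p s (fun _ => (0 : ℝ)) = 0 := by unfold E EU; simp
    linarith
  have h1 : E p s (fun σ => (G σ - m) ^ 2) =
      E p s (fun σ => G σ ^ 2) - (2 * m) * E p s G + m ^ 2 * E p s (fun _ => 1) := by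
    unfold E EU
    rw [← mul_div_assoc, ← mul_div_assoc, ← sub_div, ← add_div, Finset.mul_sum, Finset.mul_sum,
      ← Finset.sum_sub_distrib, ← Finset.sum_add_distrib]
    congr 1
    exact Finset.sum_congr rfl fun σ _ => by ring
  rw [h1, E_one ht, ← hm] at h0
  nlinarith

lemma E_sum (s : ℕ) (w : Fin n → Fin n → ℝ) (G : Fin n → Fin n → Perm (Fin n) → ℝ) :
    ∑ i, ∑ j, w i j * E p s (G i j) = E p s (fun σ => ∑ i, ∑ j, w i j * G i j σ) := by
  unfold E EU
  simp only [← mul_div_assoc, ← Finset.sum_div]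
  congr 1
  simp only [Finset.mul_sum]
  symm
  rw [Finset.sum_comm]
  refine Finset.sum_congr rfl fun i _ => ?_
  rw [Finset.sum_comm]
  refine Finset.sum_congr rfl fun j _ => ?_
  exact Finset.sum_congr rfl fun σ _ => by ring

/-- the variance of one step is at most the mean square distance to any number -/
lemma var_le (ht : ∑ i, ∑ j, p i j = 1) (G : Perm (Fin n) → ℝ) (A : Perm (Fin n)) (m : ℝ) :
    Pop p (fun σ => G σ ^ 2) A - (Pop p G A) ^ 2 ≤ ∑ i, ∑ j, p i j * (G (A * swap i j) - m) ^ 2 := by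
  have h1 : ∑ i, ∑ j, p i j * (G (A * swap i j) - m) ^ 2 =
      Pop p (fun σ => G σ ^ 2) A - (2 * m) * Pop p G A + m ^ 2 * ∑ i, ∑ j, p i j := by
    unfold Pop
    simp only [Finset.mul_sum]
    rw [← Finset.sum_sub_distrib, ← Finset.sum_add_distrib]
    refine Finset.sum_congr rfl fun i _ => ?_
    rw [← Finset.sum_sub_distrib, ← Finset.sum_add_distrib]
    exact Finset.sum_congr rfl fun j _ => by ring
  rw [h1, ht]
  nlinarith [sq_nonneg (Pop p G A - m)]

lemma swap_comm' (B : Perm (Fin n)) (i j : Fin n) :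
    swap (B i) (B j) * B = B * swap i j := by
  rw [Equiv.mul_swap_eq_swap_mul]

/-- the local bound -/
lemma local_bound {c C : ℝ} (hn : 1 ≤ n) (hc : 0 < c) (h : NearlyUniform c C p)
    (hp : ∀ i j, 0 ≤ p i j) (F Φ : Perm (Fin n) → ℝ) (r : ℕ) (A : Perm (Fin n)) :
    Pop p (fun σ => ((Pop p)^[r] F) σ ^ 2) A - (Pop p ((Pop p)^[r] F) A) ^ 2 ≤
      (C / c) * ((Pop p)^[r] (fun τ => ∑ i, ∑ j, p i j * (F (τ * swap i j) - Φ τ) ^ 2)) A := by
  have hn0 : (0 : ℝ) < n := by exact_mod_cast hn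
  refine (var_le h.total _ A (E p r (fun B => Φ (A * B)))).trans ?_
  have h1 : ∀ i j, (((Pop p)^[r] F) (A * swap i j) - E p r (fun B => Φ (A * B))) ^ 2 ≤
      E p r (fun B => (F (A * swap i j * B) - Φ (A * B)) ^ 2) := by
    intro i j
    rw [iter_eq, ← E_sub]
    exact E_sq hp h.total r _
  calc ∑ i, ∑ j, p i j * (((Pop p)^[r] F) (A * swap i j) - E p r (fun B => Φ (A * B))) ^ 2
      ≤ ∑ i, ∑ j, p i j * E p r (fun B => (F (A * swap i j * B) - Φ (A * B)) ^ 2) :=
        Finset.sum_le_sum fun i _ => Finset.sum_le_sum fun j _ =>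
          mul_le_mul_of_nonneg_left (h1 i j) (hp i j)
    _ = E p r (fun B => ∑ i, ∑ j, p i j * (F (A * swap i j * B) - Φ (A * B)) ^ 2) :=
        E_sum r p (fun i j B => (F (A * swap i j * B) - Φ (A * B)) ^ 2)
    _ ≤ E p r (fun B => (C / c) * ∑ i, ∑ j, p i j * (F (A * B * swap i j) - Φ (A * B)) ^ 2) := by
        refine E_mono hp r fun B => ?_
        have h2 : ∑ i, ∑ j, p i j * (F (A * swap i j * B) - Φ (A * B)) ^ 2 =
            ∑ i, ∑ j, p (B i) (B j) * (F (A * B * swap i j) - Φ (A * B)) ^ 2 := by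
          rw [← Equiv.sum_comp B]
          refine Finset.sum_congr rfl fun i _ => ?_
          rw [← Equiv.sum_comp B]
          refine Finset.sum_congr rfl fun j _ => ?_
          rw [mul_assoc A, swap_comm', mul_assoc A B]
        rw [h2, Finset.mul_sum]
        refine Finset.sum_le_sum fun i _ => ?_
        rw [Finset.mul_sum]
        refine Finset.sum_le_sum fun j _ => ?_
        rw [← mul_assoc]
        refine mul_le_mul_of_nonneg_right ?_ (sq_nonneg _)
        have hl := h.lower i j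
        have hu := h.upper (B i) (B j)
        have hlu : c / (n : ℝ) ^ 2 ≤ C / (n : ℝ) ^ 2 := hl.trans (h.upper i j)
        have hcC : c ≤ C := by
          rwa [div_le_div_iff_of_pos_right (by positivity)] at hlu
        have hC : 0 < C := lt_of_lt_of_le hc hcC
        calc p (B i) (B j) ≤ C / (n : ℝ) ^ 2 := hu
          _ = (C / c) * (c / (n : ℝ) ^ 2) := by field_simp
          _ ≤ (C / c) * p i j := mul_le_mul_of_nonneg_left hl (by positivity)
    _ = (C / c) * ((Pop p)^[r] (fun τ => ∑ i, ∑ j, p i j * (F (τ * swap i j) - Φ τ) ^ 2)) A := by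
        rw [E_smul, iter_eq]

/-- the telescoping sum -/
lemma tele {c C : ℝ} (hn : 1 ≤ n) (hc : 0 < c) (h : NearlyUniform c C p)
    (hp : ∀ i j, 0 ≤ p i j) (F Φ : Perm (Fin n) → ℝ) (r : ℕ) : ∀ (s T : ℕ), s + r = T + 1 →
    E p (T + 1) (fun σ => F σ ^ 2) - E p s (fun σ => ((Pop p)^[r] F) σ ^ 2) ≤
      (C / c) * r * E p T (fun τ => ∑ i, ∑ j, p i j * (F (τ * swap i j) - Φ τ) ^ 2) := by
  induction r with
  | zero =>
    intro s T hs
    have : s = T + 1 := by omega
    subst this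
    simp
  | succ r ih =>
    intro s T hs
    have h1 := ih (s + 1) T (by omega)
    have h2 : E p (s + 1) (fun σ => ((Pop p)^[r] F) σ ^ 2) -
        E p s (fun σ => ((Pop p)^[r + 1] F) σ ^ 2) ≤
        (C / c) * E p T (fun τ => ∑ i, ∑ j, p i j * (F (τ * swap i j) - Φ τ) ^ 2) := by
      have hT : T = s + r := by omega
      rw [E_succ, ← E_sub, hT, ← E_iter r s, ← E_smul]
      refine E_mono hp s fun A => ?_
      have := local_bound hn hc h hp F Φ r A
      rw [Function.iterate_succ_apply']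
      exact this
    push_cast
    nlinarith [h1, h2]

end VARM

open VARM in
theorem specVAR : SpecVAR := by
  intro n c C p hn hc h F Φ t
  have hn0 : (0 : ℝ) < n := by exact_mod_cast hn
  have hp : ∀ i j, 0 ≤ p i j := fun i j => le_trans (by positivity) (h.lower i j)
  have h1 := tele hn hc h hp F Φ (t + 1) 0 t (by omega)
  rw [E_zero, iter_eq] at h1
  simp only [one_mul] at h1
  have h2 : E p (t + 1) (fun B => F B) = EU (fun σ => dens p (t + 1) σ * F σ) := rfl
  have h3 : E p (t + 1) (fun σ => F σ ^ 2) = EU (fun σ => dens p (t + 1) σ * F σ ^ 2) := rfl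
  have h4 : E p t (fun τ => ∑ i, ∑ j, p i j * (F (τ * swap i j) - Φ τ) ^ 2) =
      EU (fun τ => dens p t τ * ∑ i, ∑ j, p i j * (F (τ * swap i j) - Φ τ) ^ 2) := rfl
  rw [h2, h3, h4] at h1
  push_cast at h1
  exact h1

end Pool.Agent.Lib.MP8c2010.NU
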